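import Mathlib

/-!
# Independent sets of more than a quarter of the vertices: arithmetic for separating 4-cycles
-/

namespace Pool.Agent.Lib.Helper31.P80

/-- The equalities. -/
lemma arith_eq {n1 n2 A1 A2 a1 a2 b1 b2 c1 c2 d1 d2 ac1 ac2 bd1 bd2 : ℤ}
    (t0 : 4 * (A1 + A2) ≤ n1 + 4 + n2) (ta : 4 * (1 + a1 + a2) ≤ n1 + 4 + n2)
    (tb : 4 * (1 + b1 + b2) ≤ n1 + 4 + n2) (tc : 4 * (1 + c1 + c2) ≤ n1 + 4 + n2)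
    (td : 4 * (1 + d1 + d2) ≤ n1 + 4 + n2) (tac : 4 * (2 + ac1 + ac2) ≤ n1 + 4 + n2)
    (tbd : 4 * (2 + bd1 + bd2) ≤ n1 + 4 + n2)
    (s1 : (n1 ≤ ac1 + b1 + d1 + A1 ∧ n1 ≤ bd1 + a1 + c1 + A1) ∨
      (n1 ≤ a1 + b1 + c1 + d1 ∧ n1 ≤ ac1 + bd1 + 2 * A1))
    (s2 : (n2 ≤ ac2 + b2 + d2 + A2 ∧ n2 ≤ bd2 + a2 + c2 + A2) ∨
      (n2 ≤ a2 + b2 + c2 + d2 ∧ n2 ≤ ac2 + bd2 + 2 * A2)) :
    (n1 + 4 + n2 = 4 * (A1 + A2) ∧ a1 + a2 + 1 = A1 + A2 ∧ b1 + b2 + 1 = A1 + A2 ∧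
      c1 + c2 + 1 = A1 + A2 ∧ d1 + d2 + 1 = A1 + A2 ∧ ac1 + ac2 + 2 = A1 + A2 ∧
      bd1 + bd2 + 2 = A1 + A2) ∧
    ((n1 = ac1 + b1 + d1 + A1 ∧ n1 = bd1 + a1 + c1 + A1) ∨
      (n1 = a1 + b1 + c1 + d1 ∧ n1 = ac1 + bd1 + 2 * A1)) ∧
    ((n2 = ac2 + b2 + d2 + A2 ∧ n2 = bd2 + a2 + c2 + A2) ∨
      (n2 = a2 + b2 + c2 + d2 ∧ n2 = ac2 + bd2 + 2 * A2)) := by
  rcases s1 with ⟨p, q⟩ | ⟨p, q⟩ <;> rcases s2 with ⟨r, s⟩ | ⟨r, s⟩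
  · refine ⟨⟨?_, ?_, ?_, ?_, ?_, ?_, ?_⟩, Or.inl ⟨?_, ?_⟩, Or.inl ⟨?_, ?_⟩⟩ <;> linarith
  · refine ⟨⟨?_, ?_, ?_, ?_, ?_, ?_, ?_⟩, Or.inl ⟨?_, ?_⟩, Or.inr ⟨?_, ?_⟩⟩ <;> linarith
  · refine ⟨⟨?_, ?_, ?_, ?_, ?_, ?_, ?_⟩, Or.inr ⟨?_, ?_⟩, Or.inl ⟨?_, ?_⟩⟩ <;> linarith
  · refine ⟨⟨?_, ?_, ?_, ?_, ?_, ?_, ?_⟩, Or.inr ⟨?_, ?_⟩, Or.inr ⟨?_, ?_⟩⟩ <;> linarith

lemma arith_cases {ea eb ec ed eac ebd : ℤ} (ha : 0 ≤ ea) (ha' : ea ≤ 1) (hb : 0 ≤ eb)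
    (hb' : eb ≤ 1) (hc : 0 ≤ ec) (hc' : ec ≤ 1) (hd : 0 ≤ ed) (hd' : ed ≤ 1)
    (h1 : ea ≤ eac) (h2 : ec ≤ eac) (h3 : eac ≤ 1 + ea) (h4 : eac ≤ 1 + ec)
    (h5 : eb ≤ ebd) (h6 : ed ≤ ebd) (h7 : ebd ≤ 1 + eb) (h8 : ebd ≤ 1 + ed)
    (h : eac + eb + ed = ebd + ea + ec ∨ ea + eb + ec + ed = eac + ebd) :
    (eac = ea + ec ∧ ebd = eb + ed) ∨
    (ea = 1 ∧ eb = 1 ∧ ec = 1 ∧ ed = 1 ∧ eac = 1 ∧ ebd = 1 ∧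
      eac + eb + ed = ebd + ea + ec) ∨
    (ea = 0 ∧ eb = 0 ∧ ec = 0 ∧ ed = 0 ∧ eac = 1 ∧ ebd = 1 ∧
      eac + eb + ed = ebd + ea + ec) ∨
    (ea = 1 ∧ eb = 0 ∧ ec = 1 ∧ ed = 0 ∧ eac = 1 ∧ ebd = 1 ∧
      ea + eb + ec + ed = eac + ebd) ∨
    (ea = 0 ∧ eb = 1 ∧ ec = 0 ∧ ed = 1 ∧ eac = 1 ∧ ebd = 1 ∧
      ea + eb + ec + ed = eac + ebd) := by
  have e1 : ea = 0 ∨ ea = 1 := by omega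
  have e2 : eb = 0 ∨ eb = 1 := by omega
  have e3 : ec = 0 ∨ ec = 1 := by omega
  have e4 : ed = 0 ∨ ed = 1 := by omega
  rcases e1 with rfl | rfl <;> rcases e2 with rfl | rfl <;> rcases e3 with rfl | rfl <;>
    rcases e4 with rfl | rfl <;> omega

/-- The seven conditions for one side with a gadget of `k` vertices and values `w`. -/
def Opt (n A a b c d ac bd k w0 wa wb wc wd wac wbd : ℤ) : Prop :=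
  4 * (A + w0) ≤ n + 4 + k ∧ 4 * (1 + a + wa) ≤ n + 4 + k ∧ 4 * (1 + b + wb) ≤ n + 4 + k ∧
  4 * (1 + c + wc) ≤ n + 4 + k ∧ 4 * (1 + d + wd) ≤ n + 4 + k ∧
  4 * (2 + ac + wac) ≤ n + 4 + k ∧ 4 * (2 + bd + wbd) ≤ n + 4 + k

lemma arith_final {n1 n2 A1 A2 a1 a2 b1 b2 c1 c2 d1 d2 ac1 ac2 bd1 bd2 : ℤ}
    (t0 : 4 * (A1 + A2) ≤ n1 + 4 + n2) (ta : 4 * (1 + a1 + a2) ≤ n1 + 4 + n2)
    (tb : 4 * (1 + b1 + b2) ≤ n1 + 4 + n2) (tc : 4 * (1 + c1 + c2) ≤ n1 + 4 + n2)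
    (td : 4 * (1 + d1 + d2) ≤ n1 + 4 + n2) (tac : 4 * (2 + ac1 + ac2) ≤ n1 + 4 + n2)
    (tbd : 4 * (2 + bd1 + bd2) ≤ n1 + 4 + n2)
    (ma1 : a1 ≤ A1) (mb1 : b1 ≤ A1) (mc1 : c1 ≤ A1) (md1 : d1 ≤ A1)
    (ma2 : a2 ≤ A2) (mb2 : b2 ≤ A2) (mc2 : c2 ≤ A2) (md2 : d2 ≤ A2)
    (p1 : ac1 ≤ a1) (p2 : ac1 ≤ c1) (p3 : bd1 ≤ b1) (p4 : bd1 ≤ d1)
    (q1 : ac2 ≤ a2) (q2 : ac2 ≤ c2) (q3 : bd2 ≤ b2) (q4 : bd2 ≤ d2)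
    (s1 : (n1 ≤ ac1 + b1 + d1 + A1 ∧ n1 ≤ bd1 + a1 + c1 + A1) ∨
      (n1 ≤ a1 + b1 + c1 + d1 ∧ n1 ≤ ac1 + bd1 + 2 * A1))
    (s2 : (n2 ≤ ac2 + b2 + d2 + A2 ∧ n2 ≤ bd2 + a2 + c2 + A2) ∨
      (n2 ≤ a2 + b2 + c2 + d2 ∧ n2 ≤ ac2 + bd2 + 2 * A2)) :
    ((n1 + 4 + n2 = 4 * (A1 + A2) ∧ a1 + a2 + 1 = A1 + A2 ∧ b1 + b2 + 1 = A1 + A2 ∧
      c1 + c2 + 1 = A1 + A2 ∧ d1 + d2 + 1 = A1 + A2) ∧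
      (n1 = a1 + b1 + c1 + d1 ∧ n2 = a2 + b2 + c2 + d2) ∧
      (a1 < A1 → c1 < A1 → ac1 + 2 ≤ A1) ∧ (b1 < A1 → d1 < A1 → bd1 + 2 ≤ A1) ∧
      (a2 < A2 → c2 < A2 → ac2 + 2 ≤ A2) ∧ (b2 < A2 → d2 < A2 → bd2 + 2 ≤ A2)) ∨
    (Opt n1 A1 a1 b1 c1 d1 ac1 bd1 1 1 0 0 0 0 0 0 ∧
      Opt n2 A2 a2 b2 c2 d2 ac2 bd2 3 1 1 1 1 1 0 0) ∨
    (Opt n1 A1 a1 b1 c1 d1 ac1 bd1 3 1 1 1 1 1 0 0 ∧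
      Opt n2 A2 a2 b2 c2 d2 ac2 bd2 1 1 0 0 0 0 0 0) ∨
    (Opt n1 A1 a1 b1 c1 d1 ac1 bd1 2 1 0 1 0 1 0 0 ∧
      Opt n2 A2 a2 b2 c2 d2 ac2 bd2 2 1 1 0 1 0 0 0) ∨
    (Opt n1 A1 a1 b1 c1 d1 ac1 bd1 2 1 1 0 1 0 0 0 ∧
      Opt n2 A2 a2 b2 c2 d2 ac2 bd2 2 1 0 1 0 1 0 0) := by
  obtain ⟨⟨E1, Ea, Eb, Ec, Ed, Eac, Ebd⟩, S1, -⟩ := arith_eq t0 ta tb tc td tac tbd s1 s2
  clear t0 ta tb tc td tac tbd s1 s2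
  have hN : n1 = 4 * A1 - ((A1 - ac1) + (A1 - b1) + (A1 - d1)) ∨
      n1 = 4 * A1 - ((A1 - a1) + (A1 - b1) + (A1 - c1) + (A1 - d1)) := by
    rcases S1 with ⟨h, -⟩ | ⟨h, -⟩
    · left; linarith
    · right; linarith
  have hh : (A1 - ac1) + (A1 - b1) + (A1 - d1) = (A1 - bd1) + (A1 - a1) + (A1 - c1) ∨
      (A1 - a1) + (A1 - b1) + (A1 - c1) + (A1 - d1) = (A1 - ac1) + (A1 - bd1) := by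
    rcases S1 with ⟨h, h'⟩ | ⟨h, h'⟩
    · left; linarith
    · right; linarith
  have key := arith_cases (ea := A1 - a1) (eb := A1 - b1) (ec := A1 - c1) (ed := A1 - d1)
    (eac := A1 - ac1) (ebd := A1 - bd1) (by linarith) (by linarith) (by linarith) (by linarith)
    (by linarith) (by linarith) (by linarith) (by linarith) (by linarith) (by linarith)
    (by linarith) (by linarith) (by linarith) (by linarith) (by linarith) (by linarith) hh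
  unfold Opt
  rcases key with ⟨k1, k2⟩ | ⟨k1, k2, k3, k4, k5, k6, k7⟩ | ⟨k1, k2, k3, k4, k5, k6, k7⟩ |
    ⟨k1, k2, k3, k4, k5, k6, k7⟩ | ⟨k1, k2, k3, k4, k5, k6, k7⟩
  · left
    have hn1 : n1 = a1 + b1 + c1 + d1 := by
      rcases hN with h | h <;> linarith
    refine ⟨⟨E1, Ea, Eb, Ec, Ed⟩, ⟨hn1, by linarith⟩, ?_, ?_, ?_, ?_⟩
    · intro h h'
      clear hN hh S1
      omega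
    · intro h h'
      clear hN hh S1
      omega
    · intro h h'
      clear hN hh S1
      omega
    · intro h h'
      clear hN hh S1
      omega
  · right; right; left
    have hn1 : n1 = 4 * A1 - 3 := by
      rcases S1 with ⟨h, h'⟩ | ⟨h, h'⟩ <;> linarith
    have hn2 : n2 = 4 * A2 - 1 := by linarith
    refine ⟨⟨?_, ?_, ?_, ?_, ?_, ?_, ?_⟩, ⟨?_, ?_, ?_, ?_, ?_, ?_, ?_⟩⟩ <;> linarith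
  · right; left
    have hn1 : n1 = 4 * A1 - 1 := by
      rcases S1 with ⟨h, h'⟩ | ⟨h, h'⟩ <;> linarith
    have hn2 : n2 = 4 * A2 - 3 := by linarith
    refine ⟨⟨?_, ?_, ?_, ?_, ?_, ?_, ?_⟩, ⟨?_, ?_, ?_, ?_, ?_, ?_, ?_⟩⟩ <;> linarith
  · right; right; right; right
    have hn1 : n1 = 4 * A1 - 2 := by
      rcases S1 with ⟨h, h'⟩ | ⟨h, h'⟩ <;> linarith
    have hn2 : n2 = 4 * A2 - 2 := by linarith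
    refine ⟨⟨?_, ?_, ?_, ?_, ?_, ?_, ?_⟩, ⟨?_, ?_, ?_, ?_, ?_, ?_, ?_⟩⟩ <;> linarith
  · right; right; right; left
    have hn1 : n1 = 4 * A1 - 2 := by
      rcases S1 with ⟨h, h'⟩ | ⟨h, h'⟩ <;> linarith
    have hn2 : n2 = 4 * A2 - 2 := by linarith
    refine ⟨⟨?_, ?_, ?_, ?_, ?_, ?_, ?_⟩, ⟨?_, ?_, ?_, ?_, ?_, ?_, ?_⟩⟩ <;> linarith

end Pool.Agent.Lib.Helper31.P80
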