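import Pool.Agent.Lib.Helper31.P80.Defs

/-!
# Independent sets of more than a quarter of the vertices: counting along a separation
-/

namespace Pool.Agent.Lib.Helper31.P80

open SimpleGraph Classical

variable {V : Type}

/-- Every independent set of vertices of `G` contained in `A` has at most `|A| / 4` elements. -/
def NoLarge (G : SimpleGraph V) (A : Finset V) : Prop :=
  ∀ S : Finset V, S ⊆ A → G.IsIndepSet (S : Set V) → 4 * S.card ≤ A.card

lemma no_iff {G : SimpleGraph V} {A : Finset V} : No G A ↔ NoLarge G A := by
  constructor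
  · intro h S hS hi
    by_contra hcon
    push Not at hcon
    obtain ⟨S', hS', hcard⟩ := Finset.exists_subset_card_eq (show A.card / 4 + 1 ≤ S.card by omega)
    exact h ⟨S', hS'.trans hS, fun x hx y hy hne => hi (hS' hx) (hS' hy) hne, hcard⟩
  · rintro h ⟨S, hS, hi, hcard⟩
    have := h S hS hi
    omega

/-- The largest size of an independent subset of `U` without edges to `S`. -/
noncomputable def av (G : SimpleGraph V) (U S : Finset V) : ℕ :=
  (U.powerset.filter (fun J : Finset V => G.IsIndepSet (J : Set V) ∧ ∀ x ∈ J, ∀ y ∈ S, ¬ G.Adj x y)).sup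
    Finset.card

lemma le_av {G : SimpleGraph V} {U S J : Finset V} (hJ : J ⊆ U) (hi : G.IsIndepSet (J : Set V))
    (h : ∀ x ∈ J, ∀ y ∈ S, ¬ G.Adj x y) : J.card ≤ av G U S :=
  Finset.le_sup (f := Finset.card) (by
    rw [Finset.mem_filter, Finset.mem_powerset]
    exact ⟨hJ, hi, h⟩)

lemma exists_av (G : SimpleGraph V) (U S : Finset V) :
    ∃ J : Finset V, J ⊆ U ∧ G.IsIndepSet (J : Set V) ∧ (∀ x ∈ J, ∀ y ∈ S, ¬ G.Adj x y) ∧
      J.card = av G U S := by
  have hne : (U.powerset.filter (fun J : Finset V => G.IsIndepSet (J : Set V) ∧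
      ∀ x ∈ J, ∀ y ∈ S, ¬ G.Adj x y)).Nonempty := by
    refine ⟨∅, ?_⟩
    rw [Finset.mem_filter, Finset.mem_powerset]
    refine ⟨Finset.empty_subset _, ?_, ?_⟩
    · simp [SimpleGraph.IsIndepSet]
    · simp
  obtain ⟨J, hJ, he⟩ := Finset.exists_mem_eq_sup _ hne Finset.card
  rw [Finset.mem_filter, Finset.mem_powerset] at hJ
  exact ⟨J, hJ.1, hJ.2.1, hJ.2.2, he.symm⟩

lemma av_le {G : SimpleGraph V} {U S : Finset V} {k : ℕ}
    (h : ∀ J : Finset V, J ⊆ U → G.IsIndepSet (J : Set V) →
      (∀ x ∈ J, ∀ y ∈ S, ¬ G.Adj x y) → J.card ≤ k) : av G U S ≤ k := by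
  obtain ⟨J, h1, h2, h3, h4⟩ := exists_av G U S
  rw [← h4]
  exact h J h1 h2 h3

lemma av_anti {G : SimpleGraph V} {U S S' : Finset V} (h : S ⊆ S') : av G U S' ≤ av G U S :=
  av_le (fun _J h1 h2 h3 => le_av h1 h2 (fun x hx y hy => h3 x hx y (h hy)))

/-- A proper colouring of `U ∪ T` bounds `|U|` by the sum over the colours. -/
lemma pattern_le {G : SimpleGraph V} {U T : Finset V} {φ : V → Fin 4}
    (hφ : ∀ x ∈ U ∪ T, ∀ y ∈ U ∪ T, G.Adj x y → φ x ≠ φ y) :
    U.card ≤ ∑ c : Fin 4, av G U (T.filter (fun t => φ t = c)) := by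
  have h1 : U.card = ∑ c : Fin 4, (U.filter (fun u => φ u = c)).card :=
    Finset.card_eq_sum_card_fiberwise (fun _ _ => Finset.mem_coe.2 (Finset.mem_univ _))
  rw [h1]
  refine Finset.sum_le_sum (fun c _ => le_av (Finset.filter_subset _ _) ?_ ?_)
  · intro x hx y hy _ hadj
    rw [Finset.mem_coe, Finset.mem_filter] at hx hy
    exact hφ x (Finset.mem_union_left _ hx.1) y (Finset.mem_union_left _ hy.1) hadj
      (hx.2.trans hy.2.symm)
  · intro x hx y hy hadj
    rw [Finset.mem_filter] at hx hy
    exact hφ x (Finset.mem_union_left _ hx.1) y (Finset.mem_union_right _ hy.1) hadj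
      (hx.2.trans hy.2.symm)

lemma indep_union {G : SimpleGraph V} {A B : Finset V} (hA : G.IsIndepSet (A : Set V))
    (hB : G.IsIndepSet (B : Set V)) (h : ∀ x ∈ A, ∀ y ∈ B, ¬ G.Adj x y) :
    G.IsIndepSet ((A ∪ B : Finset V) : Set V) := by
  intro x hx y hy hne hadj
  rw [Finset.mem_coe, Finset.mem_union] at hx hy
  rcases hx with hx | hx <;> rcases hy with hy | hy
  · exact hA hx hy hne hadj
  · exact h x hx y hy hadj
  · exact h y hy x hx hadj.symm
  · exact hB hx hy hne hadj

lemma indep_subset {G : SimpleGraph V} {A B : Finset V} (hA : G.IsIndepSet (A : Set V))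
    (h : B ⊆ A) : G.IsIndepSet (B : Set V) :=
  fun _ hx _ hy hne => hA (h hx) (h hy) hne

/-- If there is no large independent set, the values on the two sides are bounded. -/
lemma tight_le {G : SimpleGraph V} {U1 T U2 S : Finset V}
    (hno : ∀ x ∈ U1, ∀ y ∈ U2, ¬ G.Adj x y) (h1T : Disjoint U1 T) (h2T : Disjoint U2 T)
    (h12 : Disjoint U1 U2) (hN : NoLarge G (U1 ∪ T ∪ U2)) (hS : S ⊆ T)
    (hi : G.IsIndepSet (S : Set V)) :
    4 * (S.card + av G U1 S + av G U2 S) ≤ U1.card + T.card + U2.card := by
  obtain ⟨J1, a1, a2, a3, a4⟩ := exists_av G U1 S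
  obtain ⟨J2, b1, b2, b3, b4⟩ := exists_av G U2 S
  have hind : G.IsIndepSet ((J1 ∪ S ∪ J2 : Finset V) : Set V) := by
    refine indep_union (indep_union a2 hi a3) b2 ?_
    intro x hx y hy hadj
    rw [Finset.mem_union] at hx
    rcases hx with hx | hx
    · exact hno x (a1 hx) y (b1 hy) hadj
    · exact b3 y hy x hx hadj.symm
  have hsub : J1 ∪ S ∪ J2 ⊆ U1 ∪ T ∪ U2 :=
    Finset.union_subset_union (Finset.union_subset_union a1 hS) b1
  have hc := hN _ hsub hind
  have d1 : Disjoint J1 S := Finset.disjoint_of_subset_left a1 (Finset.disjoint_of_subset_right hS h1T)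
  have d2 : Disjoint (J1 ∪ S) J2 := by
    rw [Finset.disjoint_union_left]
    refine ⟨Finset.disjoint_of_subset_left a1 (Finset.disjoint_of_subset_right b1 h12), ?_⟩
    exact (Finset.disjoint_of_subset_left b1 (Finset.disjoint_of_subset_right hS h2T)).symm
  have d3 : Disjoint (U1 ∪ T) U2 := by
    rw [Finset.disjoint_union_left]
    exact ⟨h12, h2T.symm⟩
  rw [Finset.card_union_of_disjoint d2, Finset.card_union_of_disjoint d1,
    Finset.card_union_of_disjoint d3, Finset.card_union_of_disjoint h1T] at hc
  omega

lemma noLarge_of {G : SimpleGraph V} {U B : Finset V} (hd : Disjoint U B)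
    (h : ∀ S : Finset V, S ⊆ B → G.IsIndepSet (S : Set V) →
      4 * (S.card + av G U S) ≤ U.card + B.card) : NoLarge G (U ∪ B) := by
  intro S hS hi
  have h1 := h (S ∩ B) Finset.inter_subset_right (indep_subset hi Finset.inter_subset_left)
  have h2 : (S ∩ U).card ≤ av G U (S ∩ B) := by
    refine le_av Finset.inter_subset_right (indep_subset hi Finset.inter_subset_left) ?_
    intro x hx y hy hadj
    rw [Finset.mem_inter] at hx hy
    exact hi hx.1 hy.1 (fun he => Finset.disjoint_left.1 hd hx.2 (he ▸ hy.2)) hadj
  have h3 : S.card ≤ (S ∩ U).card + (S ∩ B).card := by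
    refine le_trans (Finset.card_le_card ?_) (Finset.card_union_le _ _)
    intro x hx
    have := hS hx
    rw [Finset.mem_union] at this ⊢
    rw [Finset.mem_inter, Finset.mem_inter]
    tauto
  rw [Finset.card_union_of_disjoint hd]
  omega

/-- Two sets without large independent sets have a union without large independent sets. -/
lemma noLarge_union {G : SimpleGraph V} {A B : Finset V} (hd : Disjoint A B) (hA : NoLarge G A)
    (hB : NoLarge G B) : NoLarge G (A ∪ B) := by
  intro S hS hi
  have h1 := hA (S ∩ A) Finset.inter_subset_right (indep_subset hi Finset.inter_subset_left)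
  have h2 := hB (S ∩ B) Finset.inter_subset_right (indep_subset hi Finset.inter_subset_left)
  have h3 : S.card ≤ (S ∩ A).card + (S ∩ B).card := by
    refine le_trans (Finset.card_le_card ?_) (Finset.card_union_le _ _)
    intro x hx
    have := hS hx
    rw [Finset.mem_union] at this ⊢
    rw [Finset.mem_inter, Finset.mem_inter]
    tauto
  rw [Finset.card_union_of_disjoint hd]
  omega

/-! ### Colourings from minors -/

/-- Contract `D ∪ S` to one vertex. -/
lemma merge_coloring {C : ∀ V : Type, SimpleGraph V → Prop} (hC : FourColourClass C) [Finite V]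
    {G : SimpleGraph V} (hG : C V G) {U T D S : Finset V}
    (hUD : Disjoint U D) (hTD : Disjoint T D) (hS : S ⊆ T)
    (hi : G.IsIndepSet (S : Set V)) (hD : (G.induce (D : Set V)).Connected)
    (hatt : ∀ t ∈ T, ∃ d ∈ D, G.Adj t d) :
    ∃ φ : V → Fin 4, (∀ x ∈ U ∪ T, ∀ y ∈ U ∪ T, G.Adj x y → φ x ≠ φ y) ∧
      ∃ c0 : Fin 4, (∀ s ∈ S, φ s = c0) ∧ ∀ t ∈ T, t ∉ S → φ t ≠ c0 := by
  -- the minor
  let R : Finset V := (U ∪ T) \ S
  let H : SimpleGraph (Option {v : V // v ∈ R}) := SimpleGraph.fromRel (fun p q =>
    match p, q with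
    | some u, some v => G.Adj u v
    | none, some v => (v : V) ∈ T ∨ ∃ s ∈ S, G.Adj s v
    | _, none => False)
  have hmin : IsMinor H G := by
    refine ⟨fun v => if h : v ∈ R then some (some ⟨v, h⟩) else if v ∈ D ∨ v ∈ S then some none
      else none, ?_, ?_⟩
    · rintro (_ | w)
      · have hset : {v | (if h : v ∈ R then some (some (⟨v, h⟩ : {v : V // v ∈ R})) else
            if v ∈ D ∨ v ∈ S then some none else none) = some none} = (D : Set V) ∪ (S : Set V) := by
          ext v
          simp only [Set.mem_ofPred_eq, Set.mem_union, Finset.mem_coe]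
          constructor
          · intro h
            by_contra hcon
            by_cases hv : v ∈ R
            · simp [hv] at h
            · simp [hv, hcon] at h
          · intro h
            have hv : v ∉ R := by
              intro hv
              rw [Finset.mem_sdiff, Finset.mem_union] at hv
              rcases h with h | h
              · rcases hv.1 with h' | h'
                · exact Finset.disjoint_left.1 hUD h' h
                · exact Finset.disjoint_left.1 hTD h' h
              · exact hv.2 h
            simp [hv, h]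
        rw [hset]
        -- connectedness of D ∪ S
        have hne : (D : Set V).Nonempty := by
          obtain ⟨x⟩ := hD.nonempty
          exact ⟨x.1, x.2⟩
        obtain ⟨d0, hd0⟩ := hne
        have key : ∀ x ∈ (D : Set V) ∪ (S : Set V), ∃ (hx : x ∈ (D : Set V) ∪ (S : Set V)),
            (G.induce ((D : Set V) ∪ (S : Set V))).Reachable ⟨x, hx⟩ ⟨d0, Or.inl hd0⟩ := by
          intro x hx
          refine ⟨hx, ?_⟩
          have hDreach : ∀ y (hy : y ∈ (D : Set V)),
              (G.induce ((D : Set V) ∪ (S : Set V))).Reachable ⟨y, Or.inl hy⟩ ⟨d0, Or.inl hd0⟩ := by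
            intro y hy
            have h1 := hD.preconnected ⟨y, hy⟩ ⟨d0, hd0⟩
            exact h1.map (SimpleGraph.induceHomOfLE G (Set.subset_union_left)).toHom
          rcases hx with hx | hx
          · exact hDreach x hx
          · obtain ⟨d, hd, hadj⟩ := hatt x (hS hx)
            have h2 := hDreach d hd
            have h3 : (G.induce ((D : Set V) ∪ (S : Set V))).Adj ⟨x, Or.inr hx⟩ ⟨d, Or.inl hd⟩ := hadj
            exact h3.reachable.trans h2
        have : Nonempty ((D : Set V) ∪ (S : Set V) : Set V) := ⟨⟨d0, Or.inl hd0⟩⟩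
        refine SimpleGraph.Connected.mk ?_
        intro x y
        obtain ⟨_, hx⟩ := key x.1 x.2
        obtain ⟨_, hy⟩ := key y.1 y.2
        exact hx.trans hy.symm
      · have hset : {v | (if h : v ∈ R then some (some (⟨v, h⟩ : {v : V // v ∈ R})) else
            if v ∈ D ∨ v ∈ S then some none else none) = some (some w)} = {(w : V)} := by
          ext v
          simp only [Set.mem_ofPred_eq, Set.mem_singleton_iff]
          constructor
          · intro h
            by_cases hv : v ∈ R
            · simp only [hv, dite_true, Option.some.injEq] at h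
              rw [← h]
            · simp only [hv, dite_false] at h
              split_ifs at h
              exact absurd (Option.some.inj h) (by simp)
          · intro h
            subst h
            simp [w.2]
        rw [hset]
        have : Nonempty ({(w : V)} : Set V) := ⟨⟨w, rfl⟩⟩
        refine SimpleGraph.Connected.mk ?_
        intro x y
        have : x = y := Subtype.ext (x.2.trans y.2.symm)
        rw [this]
    · have hf : ∀ w : {v : V // v ∈ R}, (if h : (w : V) ∈ R then
          some (some (⟨w, h⟩ : {v : V // v ∈ R})) else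
            if (w : V) ∈ D ∨ (w : V) ∈ S then some none else none) = some (some w) := by
        intro w
        simp [w.2]
      have hg : ∀ v, v ∈ D ∨ v ∈ S → (if h : v ∈ R then
          some (some (⟨v, h⟩ : {v : V // v ∈ R})) else
            if v ∈ D ∨ v ∈ S then some none else none) = some none := by
        intro v h
        have hv : v ∉ R := by
          intro hv
          rw [Finset.mem_sdiff, Finset.mem_union] at hv
          rcases h with h | h
          · rcases hv.1 with h' | h'
            · exact Finset.disjoint_left.1 hUD h' h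
            · exact Finset.disjoint_left.1 hTD h' h
          · exact hv.2 h
        simp [hv, h]
      have hns : ∀ w : {v : V // v ∈ R}, ((w : V) ∈ T ∨ ∃ s ∈ S, G.Adj s w) →
          ∃ v, (v ∈ D ∨ v ∈ S) ∧ G.Adj v w := by
        rintro w (h | ⟨s, hs, h⟩)
        · obtain ⟨d, hd, hadj⟩ := hatt w h
          exact ⟨d, Or.inl hd, hadj.symm⟩
        · exact ⟨s, Or.inr hs, h⟩
      rintro (_ | w) (_ | w') hadj
      · exact absurd hadj (H.loopless.irrefl _)
      · simp only [H, SimpleGraph.fromRel_adj] at hadj
        obtain ⟨v, hv, hadj'⟩ := hns w' (by tauto)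
        exact ⟨v, w', hg v hv, hf w', hadj'⟩
      · simp only [H, SimpleGraph.fromRel_adj] at hadj
        obtain ⟨v, hv, hadj'⟩ := hns w (by tauto)
        exact ⟨w, v, hf w, hg v hv, hadj'.symm⟩
      · simp only [H, SimpleGraph.fromRel_adj] at hadj
        refine ⟨w, w', hf w, hf w', ?_⟩
        rcases hadj.2 with h | h
        · exact h
        · exact h.symm
  obtain ⟨κ⟩ := hC.colorable _ H (hC.minor V _ G H hG hmin)
  refine ⟨fun v => if h : v ∈ R then κ (some ⟨v, h⟩) else κ none, ?_, κ none, ?_, ?_⟩
  · intro x hx y hy hadj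
    have hxy : x ≠ y := hadj.ne
    by_cases hxR : x ∈ R <;> by_cases hyR : y ∈ R
    · simp only [hxR, hyR, dite_true]
      refine κ.valid ?_
      rw [SimpleGraph.fromRel_adj]
      refine ⟨?_, Or.inl hadj⟩
      intro h
      exact hxy (congrArg Subtype.val (Option.some.inj h))
    · have hyS : y ∈ S := by
        by_contra h
        exact hyR (Finset.mem_sdiff.2 ⟨hy, h⟩)
      simp only [hxR, hyR, dite_true, dite_false]
      refine κ.valid ?_
      rw [SimpleGraph.fromRel_adj]
      refine ⟨by simp, Or.inr (Or.inr ⟨y, hyS, hadj.symm⟩)⟩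
    · have hxS : x ∈ S := by
        by_contra h
        exact hxR (Finset.mem_sdiff.2 ⟨hx, h⟩)
      simp only [hxR, hyR, dite_true, dite_false]
      refine κ.valid ?_
      rw [SimpleGraph.fromRel_adj]
      refine ⟨by simp, Or.inl (Or.inr ⟨x, hxS, hadj⟩)⟩
    · have hxS : x ∈ S := by
        by_contra h
        exact hxR (Finset.mem_sdiff.2 ⟨hx, h⟩)
      have hyS : y ∈ S := by
        by_contra h
        exact hyR (Finset.mem_sdiff.2 ⟨hy, h⟩)
      exact absurd hadj (hi hxS hyS hxy)
  · intro s hs
    have : s ∉ R := fun h => (Finset.mem_sdiff.1 h).2 hs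
    simp [this]
  · intro t ht htS
    have htR : t ∈ R := Finset.mem_sdiff.2 ⟨Finset.mem_union_right _ ht, htS⟩
    simp only [htR, dite_true]
    refine κ.valid ?_
    rw [SimpleGraph.fromRel_adj]
    exact ⟨by simp, Or.inr (Or.inl ht)⟩

/-- Contract `D` to one vertex and exchange it for a triangle. -/
lemma star_coloring {C : ∀ V : Type, SimpleGraph V → Prop} (hC : FourColourClass C) [Finite V]
    {G : SimpleGraph V} (hG : C V G) {U T D : Finset V}
    (hUD : Disjoint U D) (hTD : Disjoint T D) (hT : T.card ≤ 3)
    (hD : (G.induce (D : Set V)).Connected)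
    (hatt : ∀ t ∈ T, ∃ d ∈ D, G.Adj t d) :
    ∃ φ : V → Fin 4, (∀ x ∈ U ∪ T, ∀ y ∈ U ∪ T, G.Adj x y → φ x ≠ φ y) ∧
      ∀ s ∈ T, ∀ t ∈ T, s ≠ t → φ s ≠ φ t := by
  let R : Finset V := U ∪ T
  let H : SimpleGraph (Option {v : V // v ∈ R}) := SimpleGraph.fromRel (fun p q =>
    match p, q with
    | some u, some v => G.Adj u v
    | none, some v => (v : V) ∈ T
    | _, none => False)
  have hRD : ∀ v, v ∈ D → v ∉ R := by
    intro v hv hR
    rcases Finset.mem_union.1 hR with h' | h'
    · exact Finset.disjoint_left.1 hUD h' hv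
    · exact Finset.disjoint_left.1 hTD h' hv
  have hmin : IsMinor H G := by
    refine ⟨fun v => if h : v ∈ R then some (some ⟨v, h⟩) else if v ∈ D then some none
      else none, ?_, ?_⟩
    · rintro (_ | w)
      · have hset : {v | (if h : v ∈ R then some (some (⟨v, h⟩ : {v : V // v ∈ R})) else
            if v ∈ D then some none else none) = some none} = (D : Set V) := by
          ext v
          simp only [Set.mem_ofPred_eq, Finset.mem_coe]
          constructor
          · intro h
            by_contra hcon
            by_cases hv : v ∈ R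
            · simp [hv] at h
            · simp [hv, hcon] at h
          · intro h
            simp [hRD v h, h]
        rw [hset]
        exact hD
      · have hset : {v | (if h : v ∈ R then some (some (⟨v, h⟩ : {v : V // v ∈ R})) else
            if v ∈ D then some none else none) = some (some w)} = {(w : V)} := by
          ext v
          simp only [Set.mem_ofPred_eq, Set.mem_singleton_iff]
          constructor
          · intro h
            by_cases hv : v ∈ R
            · simp only [hv, dite_true, Option.some.injEq] at h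
              rw [← h]
            · simp only [hv, dite_false] at h
              split_ifs at h
              exact absurd (Option.some.inj h) (by simp)
          · intro h
            subst h
            simp [w.2]
        rw [hset]
        have : Nonempty ({(w : V)} : Set V) := ⟨⟨w, rfl⟩⟩
        refine SimpleGraph.Connected.mk ?_
        intro x y
        have : x = y := Subtype.ext (x.2.trans y.2.symm)
        rw [this]
    · have hf : ∀ w : {v : V // v ∈ R}, (if h : (w : V) ∈ R then
          some (some (⟨w, h⟩ : {v : V // v ∈ R})) else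
            if (w : V) ∈ D then some none else none) = some (some w) := by
        intro w
        simp [w.2]
      have hg : ∀ v, v ∈ D → (if h : v ∈ R then
          some (some (⟨v, h⟩ : {v : V // v ∈ R})) else
            if v ∈ D then some none else none) = some none := by
        intro v h
        simp [hRD v h, h]
      rintro (_ | w) (_ | w') hadj
      · exact absurd hadj (H.loopless.irrefl _)
      · simp only [H, SimpleGraph.fromRel_adj] at hadj
        obtain ⟨v, hv, hadj'⟩ := hatt w' (by tauto)
        exact ⟨v, w', hg v hv, hf w', hadj'.symm⟩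
      · simp only [H, SimpleGraph.fromRel_adj] at hadj
        obtain ⟨v, hv, hadj'⟩ := hatt w (by tauto)
        exact ⟨w, v, hf w, hg v hv, hadj'⟩
      · simp only [H, SimpleGraph.fromRel_adj] at hadj
        refine ⟨w, w', hf w, hf w', ?_⟩
        rcases hadj.2 with h | h
        · exact h
        · exact h.symm
  have hHC := hC.minor V _ G H hG hmin
  have hnb : (H.neighborSet none).ncard ≤ 3 := by
    have hsub : H.neighborSet none ⊆ (fun v : V => if h : v ∈ R then some (⟨v, h⟩ : {v : V // v ∈ R}) else none) '' (T : Set V) := by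
      rintro (_ | w) hw
      · exact absurd hw (H.loopless.irrefl _)
      · have hw' : (w : V) ∈ T := by
          rw [SimpleGraph.mem_neighborSet] at hw
          simp only [H, SimpleGraph.fromRel_adj] at hw
          tauto
        exact ⟨w, hw', by simp [w.2]⟩
    refine le_trans (Set.ncard_le_ncard hsub ((Finset.finite_toSet T).image _)) ?_
    refine le_trans (Set.ncard_image_le (Finset.finite_toSet T)) ?_
    rw [Set.ncard_coe_finset]
    exact hT
  obtain ⟨κ⟩ := hC.colorable _ _ (hC.star _ H none hHC hnb)
  refine ⟨fun v => if h : v ∈ R then κ ⟨some ⟨v, h⟩, by simp⟩ else 0, ?_, ?_⟩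
  · intro x hx y hy hadj
    have hxR : x ∈ R := hx
    have hyR : y ∈ R := hy
    simp only [hxR, hyR, dite_true]
    refine κ.valid ?_
    rw [starTriangle, SimpleGraph.fromRel_adj]
    refine ⟨?_, Or.inl (Or.inl ?_)⟩
    · intro h
      have h1 := congrArg Subtype.val h
      exact hadj.ne (congrArg Subtype.val (Option.some.inj h1))
    · show H.Adj _ _
      rw [SimpleGraph.fromRel_adj]
      refine ⟨?_, Or.inl hadj⟩
      intro h
      exact hadj.ne (congrArg Subtype.val (Option.some.inj h))
  · intro s hs t ht hst
    have hsR : s ∈ R := Finset.mem_union_right _ hs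
    have htR : t ∈ R := Finset.mem_union_right _ ht
    simp only [hsR, htR, dite_true]
    refine κ.valid ?_
    rw [starTriangle, SimpleGraph.fromRel_adj]
    refine ⟨?_, Or.inl (Or.inr ⟨?_, ?_⟩)⟩
    · intro h
      have h1 := congrArg Subtype.val h
      exact hst (congrArg Subtype.val (Option.some.inj h1))
    · show H.Adj _ _
      rw [SimpleGraph.fromRel_adj]
      exact ⟨by simp, Or.inl hs⟩
    · show H.Adj _ _
      rw [SimpleGraph.fromRel_adj]
      exact ⟨by simp, Or.inl ht⟩

/-! ### The sum over the colours -/

/-- A colouring of `T` which is constant on `S` and injective on the rest. -/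
lemma sum_pattern {G : SimpleGraph V} {U T S : Finset V} {φ : V → Fin 4} {c0 : Fin 4}
    (hST : S ⊆ T) (hS : ∀ s ∈ S, φ s = c0) (hT : ∀ t ∈ T, t ∉ S → φ t ≠ c0)
    (hinj : ∀ s ∈ T \ S, ∀ t ∈ T \ S, s ≠ t → φ s ≠ φ t) :
    ∑ c : Fin 4, av G U (T.filter (fun t => φ t = c)) + (T \ S).card * av G U ∅ =
      av G U S + ∑ t ∈ T \ S, av G U {t} + 3 * av G U ∅ := by
  have h0 : T.filter (fun t => φ t = c0) = S := by
    ext t
    rw [Finset.mem_filter]
    constructor
    · rintro ⟨h1, h2⟩
      by_contra h
      exact hT t h1 h h2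
    · intro h
      exact ⟨hST h, hS t h⟩
  have himg : c0 ∉ (T \ S).image φ := by
    rw [Finset.mem_image]
    rintro ⟨t, ht, h⟩
    rw [Finset.mem_sdiff] at ht
    exact hT t ht.1 ht.2 h
  have hcard : ((T \ S).image φ).card = (T \ S).card := by
    refine Finset.card_image_of_injOn ?_
    intro x hx y hy hxy
    by_contra h
    exact hinj x hx y hy h hxy
  have hsplit : (Finset.univ : Finset (Fin 4)) = insert c0 ((T \ S).image φ ∪
      (Finset.univ \ insert c0 ((T \ S).image φ))) := by
    ext c
    simp only [Finset.mem_univ, Finset.mem_insert, Finset.mem_union, Finset.mem_sdiff, true_and,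
      true_iff]
    tauto
  have hd1 : c0 ∉ ((T \ S).image φ ∪ (Finset.univ \ insert c0 ((T \ S).image φ))) := by
    simp only [Finset.mem_union, Finset.mem_sdiff, Finset.mem_univ, Finset.mem_insert, true_and]
    rintro (h | h)
    · exact himg h
    · exact h (Or.inl trivial)
  have hd2 : Disjoint ((T \ S).image φ) (Finset.univ \ insert c0 ((T \ S).image φ)) := by
    rw [Finset.disjoint_left]
    intro c hc hc'
    rw [Finset.mem_sdiff, Finset.mem_insert] at hc'
    exact hc'.2 (Or.inr hc)
  have hsum1 : ∑ c ∈ (T \ S).image φ, av G U (T.filter (fun t => φ t = c)) =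
      ∑ t ∈ T \ S, av G U {t} := by
    rw [Finset.sum_image (by
      intro x hx y hy hxy
      by_contra h
      exact hinj x hx y hy h hxy)]
    refine Finset.sum_congr rfl (fun t ht => ?_)
    congr 1
    ext x
    rw [Finset.mem_filter, Finset.mem_singleton]
    constructor
    · rintro ⟨h1, h2⟩
      by_contra h
      by_cases hxS : x ∈ S
      · rw [Finset.mem_sdiff] at ht
        exact hT t ht.1 ht.2 (h2.symm.trans (hS x hxS))
      · exact hinj x (Finset.mem_sdiff.2 ⟨h1, hxS⟩) t ht h h2
    · rintro rfl
      exact ⟨(Finset.mem_sdiff.1 ht).1, rfl⟩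
  have hsum2 : ∑ c ∈ Finset.univ \ insert c0 ((T \ S).image φ),
      av G U (T.filter (fun t => φ t = c)) =
      (Finset.univ \ insert c0 ((T \ S).image φ)).card * av G U ∅ := by
    rw [Finset.sum_congr rfl (g := fun _ => av G U ∅), Finset.sum_const, smul_eq_mul]
    intro c hc
    congr 1
    rw [Finset.filter_eq_empty_iff]
    intro t ht he
    rw [Finset.mem_sdiff, Finset.mem_insert] at hc
    apply hc.2
    by_cases htS : t ∈ S
    · left
      rw [← he, hS t htS]
    · right
      rw [Finset.mem_image]
      exact ⟨t, Finset.mem_sdiff.2 ⟨ht, htS⟩, he⟩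
  have hcard2 : (Finset.univ \ insert c0 ((T \ S).image φ)).card + (T \ S).card = 3 := by
    have h1 : (Finset.univ \ insert c0 ((T \ S).image φ)).card +
        (insert c0 ((T \ S).image φ)).card = (Finset.univ : Finset (Fin 4)).card :=
      Finset.card_sdiff_add_card_eq_card (Finset.subset_univ _)
    rw [Finset.card_insert_of_notMem himg, hcard, Finset.card_univ, Fintype.card_fin] at h1
    omega
  rw [hsplit, Finset.sum_insert hd1, Finset.sum_union hd2, h0, hsum1, hsum2]
  have h3 : (Finset.univ \ insert c0 ((T \ S).image φ)).card * av G U ∅ +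
      (T \ S).card * av G U ∅ = 3 * av G U ∅ := by
    rw [← Nat.add_mul, hcard2]
  omega

end Pool.Agent.Lib.Helper31.P80
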