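import Pool.Agent.Lib.Helper31.P80.Core

/-!
# Independent sets of more than a quarter of the vertices: cuts of order at most three
-/

namespace Pool.Agent.Lib.Helper31.P80

open SimpleGraph Classical

variable {V : Type}

/-- The arithmetic of one side: the pattern inequality for the distinct pattern. -/
lemma distinct_le {C : ∀ V : Type, SimpleGraph V → Prop} (hC : FourColourClass C) [Finite V]
    {G : SimpleGraph V} (hG : C V G) {U T D : Finset V}
    (hUD : Disjoint U D) (hTD : Disjoint T D) (hT : T.card ≤ 3)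
    (hD : (G.induce (D : Set V)).Connected) (hatt : ∀ t ∈ T, ∃ d ∈ D, G.Adj t d) :
    U.card + T.card * av G U ∅ ≤ ∑ t ∈ T, av G U {t} + 4 * av G U ∅ := by
  obtain ⟨φ, h1, h2⟩ := star_coloring hC hG hUD hTD hT hD hatt
  have h3 := pattern_le h1
  rcases T.eq_empty_or_nonempty with rfl | ⟨t0, ht0⟩
  · simp only [Finset.filter_empty, Finset.sum_const, Finset.card_univ, Fintype.card_fin,
      smul_eq_mul] at h3
    simp
    exact h3
  · have hinj : ∀ s ∈ T \ {t0}, ∀ t ∈ T \ {t0}, s ≠ t → φ s ≠ φ t := by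
      intro s hs t ht hst
      exact h2 s (Finset.mem_sdiff.1 hs).1 t (Finset.mem_sdiff.1 ht).1 hst
    have h4 := sum_pattern (G := G) (U := U) (T := T) (S := {t0}) (φ := φ) (c0 := φ t0)
      (by simpa using ht0) (by simp)
      (fun t ht htS => h2 t ht t0 ht0 (by simpa using htS)) hinj
    have h5 : (T \ {t0}).card + 1 = T.card := by
      have := Finset.card_sdiff_add_card_eq_card (Finset.singleton_subset_iff.2 ht0)
      simpa using this
    have h6 : ∑ t ∈ T \ {t0}, av G U {t} + av G U {t0} = ∑ t ∈ T, av G U {t} := by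
      have := Finset.sum_sdiff (f := fun t => av G U {t}) (Finset.singleton_subset_iff.2 ht0)
      simpa using this
    have h7 : T.card * av G U ∅ = (T \ {t0}).card * av G U ∅ + av G U ∅ := by
      rw [← h5]; ring
    omega

lemma merge_le {C : ∀ V : Type, SimpleGraph V → Prop} (hC : FourColourClass C) [Finite V]
    {G : SimpleGraph V} (hG : C V G) {U T D S : Finset V}
    (hUD : Disjoint U D) (hTD : Disjoint T D) (hS : S ⊆ T) (hTS : (T \ S).card ≤ 1)
    (hi : G.IsIndepSet (S : Set V)) (hD : (G.induce (D : Set V)).Connected)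
    (hatt : ∀ t ∈ T, ∃ d ∈ D, G.Adj t d) :
    U.card + (T \ S).card * av G U ∅ ≤ av G U S + ∑ t ∈ T \ S, av G U {t} + 3 * av G U ∅ := by
  obtain ⟨φ, h1, c0, h2, h2'⟩ := merge_coloring hC hG hUD hTD hS hi hD hatt
  have h3 := pattern_le h1
  have h4 := sum_pattern (G := G) (U := U) (T := T) (S := S) (φ := φ) (c0 := c0) hS h2 h2' (by
    intro s hs t ht hst
    exact absurd (Finset.card_le_one.1 hTS s hs t ht) hst)
  omega

/-- The main lemma on cuts of order at most three. -/
lemma cut_three {C : ∀ V : Type, SimpleGraph V → Prop} (hC : FourColourClass C) [Finite V]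
    {G : SimpleGraph V} (hG : C V G) {U1 T U2 D1 D2 : Finset V}
    (h1T : Disjoint U1 T) (h2T : Disjoint U2 T) (h12 : Disjoint U1 U2)
    (hno : ∀ x ∈ U1, ∀ y ∈ U2, ¬ G.Adj x y) (hT : T.card ≤ 3)
    (hD1 : D1 ⊆ U1) (hD2 : D2 ⊆ U2)
    (hc1 : (G.induce (D1 : Set V)).Connected) (hc2 : (G.induce (D2 : Set V)).Connected)
    (ha1 : ∀ t ∈ T, ∃ d ∈ D1, G.Adj t d) (ha2 : ∀ t ∈ T, ∃ d ∈ D2, G.Adj t d)
    (hN : NoLarge G (U1 ∪ T ∪ U2)) :
    ∃ B ⊆ T, NoLarge G (U1 ∪ B) ∧ NoLarge G (U2 ∪ (T \ B)) := by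
  have hU1D2 : Disjoint U1 D2 := Finset.disjoint_of_subset_right hD2 h12
  have hU2D1 : Disjoint U2 D1 := (Finset.disjoint_of_subset_left hD1 h12).symm
  have hTD2 : Disjoint T D2 := (Finset.disjoint_of_subset_left hD2 h2T).symm
  have hTD1 : Disjoint T D1 := (Finset.disjoint_of_subset_left hD1 h1T).symm
  have d1 := distinct_le hC hG hU1D2 hTD2 hT hc2 ha2
  have d2 := distinct_le hC hG hU2D1 hTD1 hT hc1 ha1
  set A1 := av G U1 ∅ with hA1
  set A2 := av G U2 ∅ with hA2
  set t := T.card with ht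
  have e0 := tight_le hno h1T h2T h12 hN (Finset.empty_subset T) (by simp [SimpleGraph.IsIndepSet])
  have es : ∀ x ∈ T, 4 * (1 + av G U1 {x} + av G U2 {x}) ≤ U1.card + T.card + U2.card := by
    intro x hx
    have := tight_le (S := {x}) hno h1T h2T h12 hN (Finset.singleton_subset_iff.2 hx)
      (by simp [SimpleGraph.IsIndepSet])
    simpa using this
  rw [Finset.card_empty] at e0
  -- all equalities
  have hsum : ∑ x ∈ T, av G U1 {x} + ∑ x ∈ T, av G U2 {x} =
      ∑ x ∈ T, (av G U1 {x} + av G U2 {x}) := Finset.sum_add_distrib.symm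
  have hM : U1.card + T.card + U2.card = 4 * (A1 + A2) := by
    -- n = 4 M + r
    obtain ⟨r, hr⟩ := Nat.exists_eq_add_of_le (show 4 * (A1 + A2) ≤ U1.card + T.card + U2.card by
      omega)
    have h1 : ∑ x ∈ T, 4 * (1 + (av G U1 {x} + av G U2 {x})) ≤
        ∑ _x ∈ T, (U1.card + T.card + U2.card) :=
      Finset.sum_le_sum (fun x hx => by have := es x hx; omega)
    rw [← Finset.mul_sum, Finset.sum_add_distrib, ← hsum] at h1
    simp only [Finset.sum_const, smul_eq_mul, mul_one] at h1
    rw [← ht] at h1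
    rw [hr] at h1 ⊢
    have h2 : r = 0 := by
      have h3 : t = 0 ∨ t = 1 ∨ t = 2 ∨ t = 3 := by omega
      rcases h3 with h3 | h3 | h3 | h3 <;> rw [h3] at h1 d1 d2 <;> omega
    omega
  have hle : ∀ x ∈ T, av G U1 {x} + av G U2 {x} + 1 ≤ A1 + A2 := by
    intro x hx
    have := es x hx
    omega
  have hge : ∑ x ∈ T, (A1 + A2) ≤ ∑ x ∈ T, (av G U1 {x} + av G U2 {x} + 1) := by
    have h8 : ∑ x ∈ T, (av G U1 {x} + av G U2 {x} + 1) =
        ∑ x ∈ T, av G U1 {x} + ∑ x ∈ T, av G U2 {x} + t := by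
      rw [Finset.sum_add_distrib, ← hsum, Finset.sum_const, smul_eq_mul, mul_one]
    rw [h8, Finset.sum_const, smul_eq_mul, ← ht]
    have h3 : t = 0 ∨ t = 1 ∨ t = 2 ∨ t = 3 := by omega
    have hM' : U1.card + t + U2.card = 4 * (A1 + A2) := hM
    rcases h3 with h3 | h3 | h3 | h3 <;> rw [h3] at d1 d2 hM' ⊢ <;> omega
  have heq : ∀ x ∈ T, av G U1 {x} + av G U2 {x} + 1 = A1 + A2 :=
    (Finset.sum_eq_sum_iff_of_le hle).1 (le_antisymm (Finset.sum_le_sum hle) hge)
  have hsumeq : ∑ x ∈ T, av G U1 {x} + ∑ x ∈ T, av G U2 {x} + t = t * (A1 + A2) := by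
    have h4 := Finset.sum_congr rfl heq
    rw [Finset.sum_add_distrib, ← hsum] at h4
    simpa [← ht] using h4
  have hle1 : ∀ x, av G U1 {x} ≤ A1 := fun x => av_anti (Finset.empty_subset _)
  have hle2 : ∀ x, av G U2 {x} ≤ A2 := fun x => av_anti (Finset.empty_subset _)
  -- equality on both sides
  have E1 : U1.card + t * A1 = ∑ x ∈ T, av G U1 {x} + 4 * A1 := by
    have h5 : t * (A1 + A2) = t * A1 + t * A2 := by ring
    omega
  have E2 : U2.card + t * A2 = ∑ x ∈ T, av G U2 {x} + 4 * A2 := by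
    have h5 : t * (A1 + A2) = t * A1 + t * A2 := by ring
    omega
  -- the merged patterns
  have merged : ∀ S : Finset V, S ⊆ T → 2 ≤ S.card → G.IsIndepSet (S : Set V) →
      av G U1 S + (∑ x ∈ T, (A1 - av G U1 {x}) - ∑ x ∈ T \ S, (A1 - av G U1 {x})) = A1 ∧
      av G U2 S + (∑ x ∈ T, (A2 - av G U2 {x}) - ∑ x ∈ T \ S, (A2 - av G U2 {x})) = A2 := by
    intro S hS h2 hi
    have hc : (T \ S).card + S.card = T.card := Finset.card_sdiff_add_card_eq_card hS
    have m1 := merge_le hC hG hU1D2 hTD2 hS (by omega) hi hc2 ha2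
    have m2 := merge_le hC hG hU2D1 hTD1 hS (by omega) hi hc1 ha1
    have m3 := tight_le hno h1T h2T h12 hN hS hi
    rw [← hA1] at m1
    rw [← hA2] at m2
    have k1 : ∀ W : Finset V, ∑ x ∈ W, (A1 - av G U1 {x}) + ∑ x ∈ W, av G U1 {x} = W.card * A1 := by
      intro W
      rw [← Finset.sum_add_distrib, Finset.sum_congr rfl (g := fun _ => A1) (fun x _ => by
        have := hle1 x; omega), Finset.sum_const, smul_eq_mul]
    have k2 : ∀ W : Finset V, ∑ x ∈ W, (A2 - av G U2 {x}) + ∑ x ∈ W, av G U2 {x} = W.card * A2 := by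
      intro W
      rw [← Finset.sum_add_distrib, Finset.sum_congr rfl (g := fun _ => A2) (fun x _ => by
        have := hle2 x; omega), Finset.sum_const, smul_eq_mul]
    have k3 : ∑ x ∈ T \ S, av G U1 {x} + ∑ x ∈ T \ S, av G U2 {x} + (T \ S).card =
        (T \ S).card * (A1 + A2) := by
      have h4 : ∑ x ∈ T \ S, (av G U1 {x} + av G U2 {x} + 1) = ∑ x ∈ T \ S, (A1 + A2) :=
        Finset.sum_congr rfl (fun x hx => heq x (Finset.sdiff_subset hx))
      rw [Finset.sum_add_distrib, Finset.sum_add_distrib] at h4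
      simpa using h4
    have k1T := k1 T
    have k2T := k2 T
    have k1S := k1 (T \ S)
    have k2S := k2 (T \ S)
    rw [← ht] at k1T k2T
    have h5 : (T \ S).card * (A1 + A2) = (T \ S).card * A1 + (T \ S).card * A2 := by ring
    have h6 : t * (A1 + A2) = t * A1 + t * A2 := by ring
    have mono1 : ∑ x ∈ T \ S, (A1 - av G U1 {x}) ≤ ∑ x ∈ T, (A1 - av G U1 {x}) :=
      Finset.sum_le_sum_of_subset Finset.sdiff_subset
    have mono2 : ∑ x ∈ T \ S, (A2 - av G U2 {x}) ≤ ∑ x ∈ T, (A2 - av G U2 {x}) :=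
      Finset.sum_le_sum_of_subset Finset.sdiff_subset
    constructor <;> omega
  have hsdiff : ∀ (W : Finset V) (f : V → ℕ), W ⊆ T →
      ∑ x ∈ T, f x - ∑ x ∈ T \ W, f x = ∑ x ∈ W, f x := by
    intro W f hW
    have := Finset.sum_sdiff (f := f) hW
    omega
  refine ⟨T.filter (fun x => av G U1 {x} + 1 = A1), Finset.filter_subset _ _, ?_, ?_⟩
  · refine noLarge_of (Finset.disjoint_of_subset_right (Finset.filter_subset _ _) h1T) ?_
    intro S hS hi
    have hST : S ⊆ T := hS.trans (Finset.filter_subset _ _)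
    -- |B1| = 4 A1 - |U1|
    have hB : (T.filter (fun x => av G U1 {x} + 1 = A1)).card + ∑ x ∈ T, av G U1 {x} = t * A1 := by
      rw [Finset.card_filter, ← Finset.sum_add_distrib,
        Finset.sum_congr rfl (g := fun _ => A1), Finset.sum_const, smul_eq_mul]
      intro x hx
      have q1 := heq x hx
      have q2 := hle1 x
      have q3 := hle2 x
      split_ifs <;> omega
    have hS1 : ∀ x ∈ S, av G U1 {x} + 1 = A1 := fun x hx => (Finset.mem_filter.1 (hS hx)).2
    have hkey : S.card + av G U1 S ≤ A1 := by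
      rcases Nat.lt_or_ge S.card 2 with hlt | hge2
      · rcases Nat.lt_or_ge S.card 1 with h0 | h1
        · have : S = ∅ := Finset.card_eq_zero.1 (by omega)
          rw [this]; simp; exact le_of_eq hA1.symm
        · obtain ⟨x, hx⟩ := Finset.card_eq_one.1 (show S.card = 1 by omega)
          rw [hx, Finset.card_singleton]
          have := hS1 x (by rw [hx]; simp)
          omega
      · have h7 := (merged S hST hge2 hi).1
        rw [hsdiff S _ hST, Finset.sum_congr rfl (g := fun _ => 1) (fun x hx => by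
          have := hS1 x hx; omega), Finset.sum_const, smul_eq_mul, mul_one] at h7
        omega
    omega
  · have hcomp : T \ T.filter (fun x => av G U1 {x} + 1 = A1) =
        T.filter (fun x => av G U2 {x} + 1 = A2) := by
      ext x
      rw [Finset.mem_sdiff, Finset.mem_filter, Finset.mem_filter]
      constructor
      · rintro ⟨hx, h⟩
        have q1 := heq x hx
        have q2 := hle1 x
        have q3 := hle2 x
        refine ⟨hx, ?_⟩
        have : av G U1 {x} + 1 ≠ A1 := fun h' => h ⟨hx, h'⟩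
        omega
      · rintro ⟨hx, h⟩
        have q1 := heq x hx
        refine ⟨hx, fun h' => ?_⟩
        omega
    rw [hcomp]
    refine noLarge_of (Finset.disjoint_of_subset_right (Finset.filter_subset _ _) h2T) ?_
    intro S hS hi
    have hST : S ⊆ T := hS.trans (Finset.filter_subset _ _)
    have hB : (T.filter (fun x => av G U2 {x} + 1 = A2)).card + ∑ x ∈ T, av G U2 {x} = t * A2 := by
      rw [Finset.card_filter, ← Finset.sum_add_distrib,
        Finset.sum_congr rfl (g := fun _ => A2), Finset.sum_const, smul_eq_mul]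
      intro x hx
      have q1 := heq x hx
      have q2 := hle1 x
      have q3 := hle2 x
      split_ifs <;> omega
    have hS1 : ∀ x ∈ S, av G U2 {x} + 1 = A2 := fun x hx => (Finset.mem_filter.1 (hS hx)).2
    have hkey : S.card + av G U2 S ≤ A2 := by
      rcases Nat.lt_or_ge S.card 2 with hlt | hge2
      · rcases Nat.lt_or_ge S.card 1 with h0 | h1
        · have : S = ∅ := Finset.card_eq_zero.1 (by omega)
          rw [this]; simp; exact le_of_eq hA2.symm
        · obtain ⟨x, hx⟩ := Finset.card_eq_one.1 (show S.card = 1 by omega)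
          rw [hx, Finset.card_singleton]
          have := hS1 x (by rw [hx]; simp)
          omega
      · have h7 := (merged S hST hge2 hi).2
        rw [hsdiff S _ hST, Finset.sum_congr rfl (g := fun _ => 1) (fun x hx => by
          have := hS1 x hx; omega), Finset.sum_const, smul_eq_mul, mul_one] at h7
        omega
    omega

end Pool.Agent.Lib.Helper31.P80
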