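import Mathlib

/-!
# Independent sets of more than a quarter of the vertices: definitions
-/

namespace Pool.Agent.Lib.Helper31.P80

open SimpleGraph

/-- `H` is a minor of `G`: there are pairwise disjoint nonempty connected sets of vertices of `G`
(the fibres of `f` over `some w`), one for every vertex `w` of `H`, such that for every edge of `H`
the two sets of its ends are joined by an edge of `G`. -/
def IsMinor {V W : Type} (H : SimpleGraph W) (G : SimpleGraph V) : Prop :=
  ∃ f : V → Option W, (∀ w, (G.induce {v | f v = some w}).Connected) ∧
    ∀ w w', H.Adj w w' → ∃ v v', f v = some w ∧ f v' = some w' ∧ G.Adj v v'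

/-- The star-triangle exchange at `x`: delete the vertex `x` and join its neighbours pairwise. -/
def starTriangle {V : Type} (G : SimpleGraph V) (x : V) : SimpleGraph {v : V // v ≠ x} :=
  SimpleGraph.fromRel (fun u v => G.Adj u v ∨ (G.Adj x u ∧ G.Adj x v))

/-- A class of finite graphs closed under minors and under star-triangle exchanges at vertices of
degree at most three, all of whose members are 4-colourable. By the four colour theorem the finite
planar graphs form such a class. -/
structure FourColourClass (C : ∀ V : Type, SimpleGraph V → Prop) : Prop where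
  /-- the class is closed under minors -/
  minor : ∀ (V W : Type) [Finite V] (G : SimpleGraph V) (H : SimpleGraph W),
    C V G → IsMinor H G → C W H
  /-- the class is closed under star-triangle exchanges at vertices of degree at most three -/
  star : ∀ (V : Type) [Finite V] (G : SimpleGraph V) (x : V),
    C V G → (G.neighborSet x).ncard ≤ 3 → C {v : V // v ≠ x} (starTriangle G x)
  /-- all members are 4-colourable -/
  colorable : ∀ (V : Type) [Finite V] (G : SimpleGraph V), C V G → G.Colorable 4

/-- The induced subgraph on `A` is a No instance of the decision problem of the question: it has no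
independent set of size `⌊|A| / 4⌋ + 1`. -/
def No {V : Type} (G : SimpleGraph V) (A : Finset V) : Prop :=
  ¬ ∃ S : Finset V, S ⊆ A ∧ G.IsIndepSet (S : Set V) ∧ S.card = A.card / 4 + 1

/-- The induced subgraph on `A` is 4-connected: it has at least five vertices and stays connected
after the deletion of at most three of them. -/
def FourConnected {V : Type} (G : SimpleGraph V) (A : Finset V) : Prop :=
  5 ≤ A.card ∧ ∀ T : Finset V, T ⊆ A → T.card ≤ 3 →
    (G.induce ((A : Set V) \ (T : Set V))).Connected

/-- The induced subgraph on `A` is a `K₄`. -/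
def IsK4 {V : Type} (G : SimpleGraph V) (A : Finset V) : Prop :=
  A.card = 4 ∧ G.IsClique (A : Set V)

/-- The graph obtained from `G` by adding a clique of `k` new vertices `0, .., k - 1` and an edge
between the old vertex `v` and the new vertex `i` whenever `R v i`. -/
def addClique {V : Type} (G : SimpleGraph V) (k : ℕ) (R : V → Fin k → Prop) :
    SimpleGraph (V ⊕ Fin k) :=
  SimpleGraph.fromRel (fun x y => match x, y with
    | Sum.inl u, Sum.inl v => G.Adj u v
    | Sum.inr _, Sum.inr _ => True
    | Sum.inl u, Sum.inr i => R u i
    | Sum.inr _, Sum.inl _ => False)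

/-- One new vertex joined to `a`, `b`, `c`, `d`. -/
def hub {V : Type} (a b c d : V) : V → Fin 1 → Prop :=
  fun v _ => v = a ∨ v = b ∨ v = c ∨ v = d

/-- A new triangle `0 1 2`: `a` is joined to `0, 1`, `b` to `1`, `c` to `1, 2` and `d` to `2, 0`. -/
def triangle {V : Type} (a b c d : V) : V → Fin 3 → Prop :=
  fun v i => (v = a ∧ i ≠ 2) ∨ (v = b ∧ i = 1) ∨ (v = c ∧ i ≠ 0) ∨ (v = d ∧ i ≠ 1)

/-- A new edge `0 1`: `a` and `c` are joined to `0` and `1`, `b` to `0` and `d` to `1`. -/
def edge {V : Type} (a b c d : V) : V → Fin 2 → Prop :=
  fun v i => v = a ∨ v = c ∨ (v = b ∧ i = 0) ∨ (v = d ∧ i = 1)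

/-- The induced subgraph of `G` on `A` with the clique of `k` new vertices added is a No
instance. -/
def NoWith {V : Type} (G : SimpleGraph V) (A : Finset V) (k : ℕ) (R : V → Fin k → Prop) : Prop :=
  No (addClique G k R) (A.disjSum Finset.univ)

open Classical in
/-- The conditions on one side `U` of a separating 4-cycle `a b c d`. For `inl B`: `B` is a part of
the cycle and the subgraph induced on `U` and `B` is a No instance. For `inr i`: the subgraph
induced on `U` and the whole cycle with the `i`-th of four cliques added is a No instance. -/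
def Side {V : Type} (G : SimpleGraph V) (a b c d : V) (U : Finset V) : Finset V ⊕ Fin 4 → Prop
  | Sum.inl B => B ⊆ {a, b, c, d} ∧ No G (U ∪ B)
  | Sum.inr 0 => NoWith G (U ∪ {a, b, c, d}) 1 (hub a b c d)
  | Sum.inr 1 => NoWith G (U ∪ {a, b, c, d}) 3 (triangle a b c d)
  | Sum.inr 2 => NoWith G (U ∪ {a, b, c, d}) 2 (edge a b c d)
  | Sum.inr 3 => NoWith G (U ∪ {a, b, c, d}) 2 (edge b c d a)

open Classical in
/-- The condition on the other side of a separating 4-cycle with the set of vertices `T`: the
complementary part of the cycle, or the partner of the clique, which is the triangle for the hub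
and the other edge for an edge. -/
noncomputable def partner {V : Type} (T : Finset V) : Finset V ⊕ Fin 4 → Finset V ⊕ Fin 4
  | Sum.inl B => Sum.inl (T \ B)
  | Sum.inr 0 => Sum.inr 1
  | Sum.inr 1 => Sum.inr 0
  | Sum.inr 2 => Sum.inr 3
  | Sum.inr 3 => Sum.inr 2

/-- The complete graph on five vertices. -/
def K5 : SimpleGraph (Fin 5) := ⊤

/-- The complete bipartite graph with parts `0, 1, 2` and `3, 4, 5`. -/
def K33 : SimpleGraph (Fin 6) := SimpleGraph.fromRel (fun i j => i < 3 ∧ 3 ≤ j)

/-- The finite planar graphs, by the theorem of Kuratowski and Wagner: the finite graphs with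
neither `K₅` nor `K₃,₃` as a minor. -/
def Planar (V : Type) (G : SimpleGraph V) : Prop :=
  Finite V ∧ ¬ IsMinor K5 G ∧ ¬ IsMinor K33 G

end Pool.Agent.Lib.Helper31.P80
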