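import Pool.Agent.Lib.Helper31.P80.Struct

/-!
# Independent sets of more than a quarter of the vertices: separating 4-cycles
-/

namespace Pool.Agent.Lib.Helper31.P80

open SimpleGraph Classical

variable {V : Type}

/-- The version of `NoWith` for `NoLarge`. -/
def NoLargeWith (G : SimpleGraph V) (A : Finset V) (k : ℕ) (R : V → Fin k → Prop) : Prop :=
  NoLarge (addClique G k R) (A.disjSum Finset.univ)

lemma noWith_iff {G : SimpleGraph V} {A : Finset V} {k : ℕ} {R : V → Fin k → Prop} :
    NoWith G A k R ↔ NoLargeWith G A k R := no_iff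

lemma addClique_inl_inl {G : SimpleGraph V} {k : ℕ} {R : V → Fin k → Prop} {u v : V} :
    (addClique G k R).Adj (Sum.inl u) (Sum.inl v) ↔ G.Adj u v := by
  rw [addClique, SimpleGraph.fromRel_adj]
  constructor
  · rintro ⟨_, h | h⟩
    · exact h
    · exact h.symm
  · intro h
    exact ⟨fun he => h.ne (Sum.inl.inj he), Or.inl h⟩

lemma addClique_inl_inr {G : SimpleGraph V} {k : ℕ} {R : V → Fin k → Prop} {u : V} {i : Fin k} :
    (addClique G k R).Adj (Sum.inl u) (Sum.inr i) ↔ R u i := by
  rw [addClique, SimpleGraph.fromRel_adj]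
  constructor
  · rintro ⟨_, h | h⟩
    · exact h
    · exact h.elim
  · intro h
    exact ⟨by simp, Or.inl h⟩

lemma addClique_inr_inr {G : SimpleGraph V} {k : ℕ} {R : V → Fin k → Prop} {i j : Fin k} :
    (addClique G k R).Adj (Sum.inr i) (Sum.inr j) ↔ i ≠ j := by
  rw [addClique, SimpleGraph.fromRel_adj]
  constructor
  · rintro ⟨h, _⟩ he
    exact h (congrArg _ he)
  · intro h
    exact ⟨fun he => h (Sum.inr.inj he), Or.inl trivial⟩

/-- The contribution of the new clique. -/
noncomputable def wt {k : ℕ} (R : V → Fin k → Prop) (S : Finset V) : ℕ :=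
  if ∃ i, ∀ s ∈ S, ¬ R s i then 1 else 0

lemma noLargeWith_iff {G : SimpleGraph V} {U T : Finset V} {k : ℕ} {R : V → Fin k → Prop}
    (hUT : Disjoint U T) (hR : ∀ u ∈ U, ∀ i, ¬ R u i) :
    NoLargeWith G (U ∪ T) k R ↔ ∀ S : Finset V, S ⊆ T → G.IsIndepSet (S : Set V) →
      4 * (S.card + av G U S + wt R S) ≤ U.card + T.card + k := by
  constructor
  · intro h S hS hi
    obtain ⟨J, j1, j2, j3, j4⟩ := exists_av G U S
    have hJS : G.IsIndepSet ((J ∪ S : Finset V) : Set V) := indep_union j2 hi j3
    have hdJS : Disjoint J S :=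
      Finset.disjoint_of_subset_left j1 (Finset.disjoint_of_subset_right hS hUT)
    have key : ∀ W : Finset (Fin k), W.card ≤ 1 → (∀ i ∈ W, ∀ s ∈ S, ¬ R s i) →
        4 * (S.card + av G U S + W.card) ≤ U.card + T.card + k := by
      intro W hW hWS
      have h1 := h ((J ∪ S).disjSum W) (by
        exact Finset.disjSum_mono (Finset.union_subset_union j1 hS) (Finset.subset_univ _)) (by
        rintro (x | i) hx (y | j) hy hne
        · rw [Finset.mem_coe, Finset.inl_mem_disjSum] at hx hy
          rw [addClique_inl_inl]
          exact hJS hx hy (fun he => hne (congrArg _ he))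
        · rw [Finset.mem_coe, Finset.inl_mem_disjSum] at hx
          rw [Finset.mem_coe, Finset.inr_mem_disjSum] at hy
          rw [addClique_inl_inr]
          rw [Finset.mem_union] at hx
          rcases hx with hx | hx
          · exact hR x (j1 hx) j
          · exact hWS j hy x hx
        · rw [Finset.mem_coe, Finset.inr_mem_disjSum] at hx
          rw [Finset.mem_coe, Finset.inl_mem_disjSum] at hy
          intro hadj
          have hadj' := hadj.symm
          rw [addClique_inl_inr] at hadj'
          rw [Finset.mem_union] at hy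
          rcases hy with hy | hy
          · exact hR y (j1 hy) i hadj'
          · exact hWS i hx y hy hadj'
        · rw [Finset.mem_coe, Finset.inr_mem_disjSum] at hx hy
          exact absurd (Finset.card_le_one.1 hW i hx j hy) (fun he => hne (congrArg _ he)))
      rw [Finset.card_disjSum, Finset.card_disjSum, Finset.card_union_of_disjoint hdJS,
        Finset.card_union_of_disjoint hUT, Finset.card_univ, Fintype.card_fin, j4] at h1
      omega
    unfold wt
    split_ifs with hw
    · obtain ⟨i, hi'⟩ := hw
      have := key {i} (by simp) (by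
        intro j hj
        rw [Finset.mem_singleton] at hj
        rw [hj]
        exact hi')
      simpa using this
    · have := key ∅ (by simp) (by simp)
      simpa using this
  · intro h Z hZ hi
    let J : Finset V := U.filter (fun u => Sum.inl u ∈ Z)
    let S : Finset V := T.filter (fun u => Sum.inl u ∈ Z)
    let W : Finset (Fin k) := Finset.univ.filter (fun i => Sum.inr i ∈ Z)
    have hJi : G.IsIndepSet (J : Set V) := by
      intro x hx y hy hne hadj
      rw [Finset.mem_coe, Finset.mem_filter] at hx hy
      exact hi hx.2 hy.2 (fun he => hne (Sum.inl.inj he)) (addClique_inl_inl.2 hadj)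
    have hSi : G.IsIndepSet (S : Set V) := by
      intro x hx y hy hne hadj
      rw [Finset.mem_coe, Finset.mem_filter] at hx hy
      exact hi hx.2 hy.2 (fun he => hne (Sum.inl.inj he)) (addClique_inl_inl.2 hadj)
    have h1 := h S (Finset.filter_subset _ _) hSi
    have h2 : J.card ≤ av G U S := by
      refine le_av (Finset.filter_subset _ _) hJi ?_
      intro x hx y hy hadj
      rw [Finset.mem_filter] at hx hy
      refine hi hx.2 hy.2 (fun he => ?_) (addClique_inl_inl.2 hadj)
      exact Finset.disjoint_left.1 hUT hx.1 ((Sum.inl.inj he) ▸ hy.1)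
    have h3 : W.card ≤ wt R S := by
      have hW1 : W.card ≤ 1 := by
        rw [Finset.card_le_one]
        intro i hi' j hj
        rw [Finset.mem_filter] at hi' hj
        by_contra hne
        exact hi hi'.2 hj.2 (fun he => hne (Sum.inr.inj he)) (addClique_inr_inr.2 hne)
      unfold wt
      split_ifs with hw
      · exact hW1
      · rw [Nat.le_zero, Finset.card_eq_zero, Finset.eq_empty_iff_forall_notMem]
        intro i hi'
        rw [Finset.mem_filter] at hi'
        apply hw
        refine ⟨i, fun s hs hR' => ?_⟩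
        rw [Finset.mem_filter] at hs
        exact hi hs.2 hi'.2 (by simp) (addClique_inl_inr.2 hR')
    have h4 : Z.card ≤ J.card + S.card + W.card := by
      have hsub : Z ⊆ (J ∪ S).disjSum W := by
        rintro (x | i) hx
        · rw [Finset.inl_mem_disjSum, Finset.mem_union, Finset.mem_filter, Finset.mem_filter]
          have := hZ hx
          rw [Finset.inl_mem_disjSum, Finset.mem_union] at this
          tauto
        · rw [Finset.inr_mem_disjSum, Finset.mem_filter]
          exact ⟨Finset.mem_univ _, hx⟩
      have := Finset.card_le_card hsub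
      rw [Finset.card_disjSum] at this
      have h5 := Finset.card_union_le J S
      omega
    rw [Finset.card_disjSum, Finset.card_union_of_disjoint hUT, Finset.card_univ,
      Fintype.card_fin]
    omega

/-! ### Patterns on a 4-cycle -/

section Cycle

variable {G : SimpleGraph V} {a b c d : V}

/-- The independent subsets of an induced 4-cycle. -/
lemma indep_cases (hab : G.Adj a b) (hbc : G.Adj b c) (hcd : G.Adj c d) (hda : G.Adj d a)
    {S : Finset V} (hS : S ⊆ {a, b, c, d}) (hi : G.IsIndepSet (S : Set V)) :
    S = ∅ ∨ S = {a} ∨ S = {b} ∨ S = {c} ∨ S = {d} ∨ S = {a, c} ∨ S = {b, d} := by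
  have h1 : a ∈ S → b ∉ S := fun h h' => hi h h' hab.ne hab
  have h2 : b ∈ S → c ∉ S := fun h h' => hi h h' hbc.ne hbc
  have h3 : c ∈ S → d ∉ S := fun h h' => hi h h' hcd.ne hcd
  have h4 : d ∈ S → a ∉ S := fun h h' => hi h h' hda.ne hda
  have hm : ∀ x ∈ S, x = a ∨ x = b ∨ x = c ∨ x = d := by
    intro x hx
    simpa using hS hx
  have hext : ∀ W : Finset V, (∀ x, x ∈ W → x ∈ S) → (∀ x ∈ S, x ∈ W) → S = W :=
    fun W w1 w2 => Finset.Subset.antisymm w2 w1
  by_cases ha : a ∈ S <;> by_cases hb : b ∈ S <;> by_cases hc : c ∈ S <;> by_cases hd : d ∈ S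
  · exact absurd hb (h1 ha)
  · exact absurd hb (h1 ha)
  · exact absurd hb (h1 ha)
  · exact absurd hb (h1 ha)
  · exact absurd hd (h3 hc)
  · right; right; right; right; right; left
    refine hext _ ?_ ?_
    · intro x hx
      simp only [Finset.mem_insert, Finset.mem_singleton] at hx
      rcases hx with rfl | rfl <;> assumption
    · intro x hx
      simp only [Finset.mem_insert, Finset.mem_singleton]
      rcases hm x hx with rfl | rfl | rfl | rfl <;> tauto
  · exact absurd ha (h4 hd)
  · right; left
    refine hext _ ?_ ?_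
    · intro x hx
      simp only [Finset.mem_singleton] at hx
      rw [hx]; exact ha
    · intro x hx
      simp only [Finset.mem_singleton]
      rcases hm x hx with rfl | rfl | rfl | rfl <;> first | rfl | contradiction
  · exact absurd hc (h2 hb)
  · exact absurd hc (h2 hb)
  · right; right; right; right; right; right
    refine hext _ ?_ ?_
    · intro x hx
      simp only [Finset.mem_insert, Finset.mem_singleton] at hx
      rcases hx with rfl | rfl <;> assumption
    · intro x hx
      simp only [Finset.mem_insert, Finset.mem_singleton]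
      rcases hm x hx with rfl | rfl | rfl | rfl <;> tauto
  · right; right; left
    refine hext _ ?_ ?_
    · intro x hx
      simp only [Finset.mem_singleton] at hx
      rw [hx]; exact hb
    · intro x hx
      simp only [Finset.mem_singleton]
      rcases hm x hx with rfl | rfl | rfl | rfl <;> first | rfl | contradiction
  · exact absurd hd (h3 hc)
  · right; right; right; left
    refine hext _ ?_ ?_
    · intro x hx
      simp only [Finset.mem_singleton] at hx
      rw [hx]; exact hc
    · intro x hx
      simp only [Finset.mem_singleton]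
      rcases hm x hx with rfl | rfl | rfl | rfl <;> first | rfl | contradiction
  · right; right; right; right; left
    refine hext _ ?_ ?_
    · intro x hx
      simp only [Finset.mem_singleton] at hx
      rw [hx]; exact hd
    · intro x hx
      simp only [Finset.mem_singleton]
      rcases hm x hx with rfl | rfl | rfl | rfl <;> first | rfl | contradiction
  · left
    rw [Finset.eq_empty_iff_forall_notMem]
    intro x hx
    rcases hm x hx with rfl | rfl | rfl | rfl <;> contradiction

lemma pat_P {U : Finset V} {φ : V → Fin 4} (hab : a ≠ b) (hac : a ≠ c) (had : a ≠ d)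
    (hbc : b ≠ c) (hbd : b ≠ d) (hcd : c ≠ d)
    (h : ∀ x ∈ U ∪ {a, b, c, d}, ∀ y ∈ U ∪ {a, b, c, d}, G.Adj x y → φ x ≠ φ y)
    (k1 : φ b ≠ φ a) (k2 : φ c ≠ φ a) (k3 : φ d ≠ φ a) (k4 : φ b ≠ φ c) (k5 : φ b ≠ φ d)
    (k6 : φ c ≠ φ d) :
    U.card ≤ av G U {a} + av G U {b} + av G U {c} + av G U {d} := by
  have h3 := pattern_le h
  have hT : ({a, b, c, d} : Finset V) \ {a} = {b, c, d} := by
    ext x
    simp only [Finset.mem_sdiff, Finset.mem_insert, Finset.mem_singleton]
    constructor
    · tauto
    · rintro (rfl | rfl | rfl)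
      · exact ⟨by tauto, hab.symm⟩
      · exact ⟨by tauto, hac.symm⟩
      · exact ⟨by tauto, had.symm⟩
  have h4 := sum_pattern (G := G) (U := U) (T := {a, b, c, d}) (S := {a}) (φ := φ) (c0 := φ a)
    (by simp) (by simp) (by
      intro t ht htS
      simp only [Finset.mem_insert, Finset.mem_singleton] at ht htS
      rcases ht with rfl | rfl | rfl | rfl
      · exact absurd rfl htS
      · exact k1
      · exact k2
      · exact k3) (by
      rw [hT]
      intro s hs t ht hst
      simp only [Finset.mem_insert, Finset.mem_singleton] at hs ht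
      rcases hs with rfl | rfl | rfl <;> rcases ht with rfl | rfl | rfl
      · exact absurd rfl hst
      · exact k4
      · exact k5
      · exact k4.symm
      · exact absurd rfl hst
      · exact k6
      · exact k5.symm
      · exact k6.symm
      · exact absurd rfl hst)
  have hc : ({b, c, d} : Finset V).card = 3 := by
    rw [Finset.card_insert_of_notMem (by simp [hbc, hbd]), Finset.card_pair hcd]
  rw [hT, hc, Finset.sum_insert (by simp [hbc, hbd]), Finset.sum_pair hcd] at h4
  omega

lemma pat_Q {U : Finset V} {φ : V → Fin 4} (hab : a ≠ b) (had : a ≠ d)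
    (hbc : b ≠ c) (hbd : b ≠ d) (hcd : c ≠ d)
    (h : ∀ x ∈ U ∪ {a, b, c, d}, ∀ y ∈ U ∪ {a, b, c, d}, G.Adj x y → φ x ≠ φ y)
    (k0 : φ c = φ a) (k1 : φ b ≠ φ a) (k3 : φ d ≠ φ a) (k5 : φ b ≠ φ d) :
    U.card ≤ av G U {a, c} + av G U {b} + av G U {d} + av G U ∅ := by
  have h3 := pattern_le h
  have hT : ({a, b, c, d} : Finset V) \ {a, c} = {b, d} := by
    ext x
    simp only [Finset.mem_sdiff, Finset.mem_insert, Finset.mem_singleton]
    constructor
    · tauto
    · rintro (rfl | rfl)
      · exact ⟨by tauto, by rintro (h | h); exact hab h.symm; exact hbc h⟩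
      · exact ⟨by tauto, by rintro (h | h); exact had h.symm; exact hcd h.symm⟩
  have h4 := sum_pattern (G := G) (U := U) (T := {a, b, c, d}) (S := {a, c}) (φ := φ) (c0 := φ a)
    (by
      intro x hx
      simp only [Finset.mem_insert, Finset.mem_singleton] at hx ⊢
      tauto) (by
      intro x hx
      simp only [Finset.mem_insert, Finset.mem_singleton] at hx
      rcases hx with rfl | rfl
      · rfl
      · exact k0) (by
      intro t ht htS
      simp only [Finset.mem_insert, Finset.mem_singleton] at ht htS
      rcases ht with rfl | rfl | rfl | rfl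
      · exact absurd (Or.inl rfl) htS
      · exact k1
      · exact absurd (Or.inr rfl) htS
      · exact k3) (by
      rw [hT]
      intro s hs t ht hst
      simp only [Finset.mem_insert, Finset.mem_singleton] at hs ht
      rcases hs with rfl | rfl <;> rcases ht with rfl | rfl
      · exact absurd rfl hst
      · exact k5
      · exact k5.symm
      · exact absurd rfl hst)
  rw [hT, Finset.card_pair hbd, Finset.sum_pair hbd] at h4
  omega

lemma pat_S {U : Finset V} {φ : V → Fin 4}
    (h : ∀ x ∈ U ∪ {a, b, c, d}, ∀ y ∈ U ∪ {a, b, c, d}, G.Adj x y → φ x ≠ φ y)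
    (k0 : φ c = φ a) (k1 : φ d = φ b) (k2 : φ a ≠ φ b) :
    U.card ≤ av G U {a, c} + av G U {b, d} + 2 * av G U ∅ := by
  have h3 := pattern_le h
  have hsum : ∑ x : Fin 4, av G U (({a, b, c, d} : Finset V).filter (fun t => φ t = x)) ≤
      av G U {a, c} + av G U {b, d} + 2 * av G U ∅ := by
    have hb : ∀ x : Fin 4, av G U (({a, b, c, d} : Finset V).filter (fun t => φ t = x)) ≤
        (if x = φ a then av G U {a, c} else 0) + (if x = φ b then av G U {b, d} else 0) +
        (if x ≠ φ a ∧ x ≠ φ b then av G U ∅ else 0) := by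
      intro x
      by_cases hx : x = φ a
      · have hx' : x ≠ φ b := fun h' => k2 (hx.symm.trans h')
        rw [if_pos hx, if_neg hx', if_neg (fun h' => h'.1 hx)]
        refine le_trans (av_anti (S := {a, c}) ?_) (by omega)
        intro y hy
        simp only [Finset.mem_insert, Finset.mem_singleton] at hy
        rw [Finset.mem_filter]
        rcases hy with rfl | rfl
        · exact ⟨by simp, hx.symm⟩
        · exact ⟨by simp, k0.trans hx.symm⟩
      · by_cases hx' : x = φ b
        · rw [if_neg hx, if_pos hx', if_neg (fun h' => h'.2 hx')]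
          refine le_trans (av_anti (S := {b, d}) ?_) (by omega)
          intro y hy
          simp only [Finset.mem_insert, Finset.mem_singleton] at hy
          rw [Finset.mem_filter]
          rcases hy with rfl | rfl
          · exact ⟨by simp, hx'.symm⟩
          · exact ⟨by simp, k1.trans hx'.symm⟩
        · rw [if_neg hx, if_neg hx', if_pos ⟨hx, hx'⟩]
          refine le_trans (av_anti (Finset.empty_subset _)) (by omega)
    refine (Finset.sum_le_sum (fun x _ => hb x)).trans ?_
    rw [Finset.sum_add_distrib, Finset.sum_add_distrib, Finset.sum_ite_eq' Finset.univ (φ a),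
      Finset.sum_ite_eq' Finset.univ (φ b), if_pos (Finset.mem_univ _), if_pos (Finset.mem_univ _),
      ← Finset.sum_filter, Finset.sum_const, smul_eq_mul]
    have hcard : (Finset.univ.filter (fun x : Fin 4 => x ≠ φ a ∧ x ≠ φ b)).card ≤ 2 := by
      have : (Finset.univ.filter (fun x : Fin 4 => x ≠ φ a ∧ x ≠ φ b)) =
          Finset.univ \ {φ a, φ b} := by
        ext x
        simp
      rw [this]
      have h5 := Finset.card_sdiff_add_card_eq_card (Finset.subset_univ ({φ a, φ b} : Finset (Fin 4)))
      rw [Finset.card_pair k2, Finset.card_univ, Fintype.card_fin] at h5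
      omega
    have := Nat.mul_le_mul_right (av G U ∅) hcard
    omega
  omega

/-- The inequalities of one side of a separating 4-cycle. -/
lemma side_cases {C : ∀ V : Type, SimpleGraph V → Prop} (hC : FourColourClass C) [Finite V]
    (hG : C V G) {U D : Finset V}
    (hab : G.Adj a b) (hbc : G.Adj b c) (hcd : G.Adj c d) (hda : G.Adj d a)
    (hac : a ≠ c) (hbd : b ≠ d) (hnac : ¬ G.Adj a c) (hnbd : ¬ G.Adj b d)
    (hUD : Disjoint U D) (hTD : Disjoint ({a, b, c, d} : Finset V) D)
    (hD : (G.induce (D : Set V)).Connected)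
    (hatt : ∀ t ∈ ({a, b, c, d} : Finset V), ∃ e ∈ D, G.Adj t e) :
    (U.card ≤ av G U {a, c} + av G U {b} + av G U {d} + av G U ∅ ∧
      U.card ≤ av G U {b, d} + av G U {a} + av G U {c} + av G U ∅) ∨
    (U.card ≤ av G U {a} + av G U {b} + av G U {c} + av G U {d} ∧
      U.card ≤ av G U {a, c} + av G U {b, d} + 2 * av G U ∅) := by
  have memb : ∀ x : V, x = a ∨ x = b ∨ x = c ∨ x = d → x ∈ U ∪ {a, b, c, d} := by
    intro x hx
    rw [Finset.mem_union]
    right
    simpa using hx
  have rot : ({a, b, c, d} : Finset V) = {b, c, d, a} := by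
    ext x
    simp only [Finset.mem_insert, Finset.mem_singleton]
    tauto
  -- the pattern {b, d}, {a}, {c}
  have patR : ∀ φ : V → Fin 4,
      (∀ x ∈ U ∪ {a, b, c, d}, ∀ y ∈ U ∪ {a, b, c, d}, G.Adj x y → φ x ≠ φ y) →
      φ d = φ b → φ c ≠ φ b → φ a ≠ φ b → φ c ≠ φ a →
      U.card ≤ av G U {b, d} + av G U {a} + av G U {c} + av G U ∅ := by
    intro φ h k0 k1 k3 k5
    have := pat_Q (G := G) (a := b) (b := c) (c := d) (d := a) (U := U) (φ := φ) hbc.ne hab.ne.symm
      hcd.ne hac.symm hda.ne (by rw [← rot]; exact h) k0 k1 k3 k5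
    omega
  have s1 : (U.card ≤ av G U {a} + av G U {b} + av G U {c} + av G U {d}) ∨
      (U.card ≤ av G U {b, d} + av G U {a} + av G U {c} + av G U ∅) := by
    obtain ⟨φ, h1, c0, h2, h3⟩ := merge_coloring hC hG (S := {a}) hUD hTD (by simp)
      (by simp [SimpleGraph.IsIndepSet]) hD hatt
    have ha : φ a = c0 := h2 a (by simp)
    have hb : φ b ≠ c0 := h3 b (by simp) (by simpa using hab.ne.symm)
    have hc : φ c ≠ c0 := h3 c (by simp) (by simpa using hac.symm)
    have hd : φ d ≠ c0 := h3 d (by simp) (by simpa using hda.ne)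
    have hbc' : φ b ≠ φ c := h1 b (memb b (by tauto)) c (memb c (by tauto)) hbc
    have hcd' : φ c ≠ φ d := h1 c (memb c (by tauto)) d (memb d (by tauto)) hcd
    by_cases hbd' : φ b = φ d
    · right
      exact patR φ h1 hbd'.symm hbc'.symm (by rw [ha]; exact hb.symm) (by rw [ha]; exact hc)
    · left
      exact pat_P hab.ne hac hda.ne.symm hbc.ne hbd hcd.ne h1 (by rw [ha]; exact hb)
        (by rw [ha]; exact hc) (by rw [ha]; exact hd) hbc' hbd' hcd'
  have s2 : (U.card ≤ av G U {a} + av G U {b} + av G U {c} + av G U {d}) ∨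
      (U.card ≤ av G U {a, c} + av G U {b} + av G U {d} + av G U ∅) := by
    obtain ⟨φ, h1, c0, h2, h3⟩ := merge_coloring hC hG (S := {b}) hUD hTD (by simp)
      (by simp [SimpleGraph.IsIndepSet]) hD hatt
    have hb : φ b = c0 := h2 b (by simp)
    have ha : φ a ≠ c0 := h3 a (by simp) (by simpa using hab.ne)
    have hc : φ c ≠ c0 := h3 c (by simp) (by simpa using hbc.ne.symm)
    have hd : φ d ≠ c0 := h3 d (by simp) (by simpa using hbd.symm)
    have hcd' : φ c ≠ φ d := h1 c (memb c (by tauto)) d (memb d (by tauto)) hcd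
    have hda' : φ d ≠ φ a := h1 d (memb d (by tauto)) a (memb a (by tauto)) hda
    by_cases hac' : φ c = φ a
    · right
      exact pat_Q hab.ne hda.ne.symm hbc.ne hbd hcd.ne h1 hac' (by rw [hb]; exact ha.symm) hda'
        (by rw [hb]; exact hd.symm)
    · left
      exact pat_P hab.ne hac hda.ne.symm hbc.ne hbd hcd.ne h1 (by rw [hb]; exact ha.symm)
        hac' hda' (by rw [hb]; exact hc.symm) (by rw [hb]; exact hd.symm) hcd'
  have s3 : (U.card ≤ av G U {a, c} + av G U {b} + av G U {d} + av G U ∅) ∨
      (U.card ≤ av G U {a, c} + av G U {b, d} + 2 * av G U ∅) := by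
    obtain ⟨φ, h1, c0, h2, h3⟩ := merge_coloring hC hG (S := {a, c}) hUD hTD (by
      intro x hx
      simp only [Finset.mem_insert, Finset.mem_singleton] at hx ⊢
      tauto) (by
      intro x hx y hy hxy
      simp only [Finset.coe_insert, Finset.coe_singleton, Set.mem_insert_iff,
        Set.mem_singleton_iff] at hx hy
      rcases hx with rfl | rfl <;> rcases hy with rfl | rfl
      · exact absurd rfl hxy
      · exact hnac
      · exact fun h => hnac h.symm
      · exact absurd rfl hxy) hD hatt
    have ha : φ a = c0 := h2 a (by simp)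
    have hc : φ c = c0 := h2 c (by simp)
    have hb : φ b ≠ c0 := h3 b (by simp) (by simp [hab.ne.symm, hbc.ne])
    have hd : φ d ≠ c0 := h3 d (by simp) (by simp [hda.ne, hcd.ne.symm])
    by_cases hbd' : φ b = φ d
    · right
      exact pat_S h1 (hc.trans ha.symm) hbd'.symm (by rw [ha]; exact hb.symm)
    · left
      exact pat_Q hab.ne hda.ne.symm hbc.ne hbd hcd.ne h1 (hc.trans ha.symm)
        (by rw [ha]; exact hb) (by rw [ha]; exact hd) hbd'
  have s4 : (U.card ≤ av G U {b, d} + av G U {a} + av G U {c} + av G U ∅) ∨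
      (U.card ≤ av G U {a, c} + av G U {b, d} + 2 * av G U ∅) := by
    obtain ⟨φ, h1, c0, h2, h3⟩ := merge_coloring hC hG (S := {b, d}) hUD hTD (by
      intro x hx
      simp only [Finset.mem_insert, Finset.mem_singleton] at hx ⊢
      tauto) (by
      intro x hx y hy hxy
      simp only [Finset.coe_insert, Finset.coe_singleton, Set.mem_insert_iff,
        Set.mem_singleton_iff] at hx hy
      rcases hx with rfl | rfl <;> rcases hy with rfl | rfl
      · exact absurd rfl hxy
      · exact hnbd
      · exact fun h => hnbd h.symm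
      · exact absurd rfl hxy) hD hatt
    have hb : φ b = c0 := h2 b (by simp)
    have hd : φ d = c0 := h2 d (by simp)
    have ha : φ a ≠ c0 := h3 a (by simp) (by simp [hab.ne, hda.ne.symm])
    have hc : φ c ≠ c0 := h3 c (by simp) (by simp [hbc.ne.symm, hcd.ne])
    by_cases hac' : φ c = φ a
    · right
      exact pat_S h1 hac' (hd.trans hb.symm) (by rw [hb]; exact ha)
    · left
      exact patR φ h1 (hd.trans hb.symm) (by rw [hb]; exact hc) (by rw [hb]; exact ha) hac'
  rcases s1 with p | r
  · rcases s4 with r | s
    · rcases s3 with q | s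
      · exact Or.inl ⟨q, r⟩
      · exact Or.inr ⟨p, s⟩
    · exact Or.inr ⟨p, s⟩
  · rcases s2 with p | q
    · rcases s3 with q | s
      · exact Or.inl ⟨q, r⟩
      · exact Or.inr ⟨p, s⟩
    · exact Or.inl ⟨q, r⟩

end Cycle

end Pool.Agent.Lib.Helper31.P80
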