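import Pool.Agent.Lib.Helper31.P80.Four
import Pool.Agent.Lib.Helper31.P80.Arith

/-!
# Independent sets of more than a quarter of the vertices: the theorem on separating 4-cycles
-/

namespace Pool.Agent.Lib.Helper31.P80

open SimpleGraph Classical

variable {V : Type} {G : SimpleGraph V} {a b c d : V}

lemma forall_indep (hab : G.Adj a b) (hbc : G.Adj b c) (hcd : G.Adj c d) (hda : G.Adj d a)
    (hnac : ¬ G.Adj a c) (hnbd : ¬ G.Adj b d) (F : Finset V → Prop) :
    (∀ S : Finset V, S ⊆ {a, b, c, d} → G.IsIndepSet (S : Set V) → F S) ↔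
      F ∅ ∧ F {a} ∧ F {b} ∧ F {c} ∧ F {d} ∧ F {a, c} ∧ F {b, d} := by
  constructor
  · intro h
    refine ⟨h _ (by simp) (by simp [SimpleGraph.IsIndepSet]),
      h _ (by simp) (by simp [SimpleGraph.IsIndepSet]),
      h _ (by simp) (by simp [SimpleGraph.IsIndepSet]),
      h _ (by simp) (by simp [SimpleGraph.IsIndepSet]),
      h _ (by simp) (by simp [SimpleGraph.IsIndepSet]), h _ ?_ ?_, h _ ?_ ?_⟩
    · intro x hx
      simp only [Finset.mem_insert, Finset.mem_singleton] at hx ⊢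
      tauto
    · intro x hx y hy hxy
      simp only [Finset.coe_insert, Finset.coe_singleton, Set.mem_insert_iff,
        Set.mem_singleton_iff] at hx hy
      rcases hx with rfl | rfl <;> rcases hy with rfl | rfl
      · exact absurd rfl hxy
      · exact hnac
      · exact fun h => hnac h.symm
      · exact absurd rfl hxy
    · intro x hx
      simp only [Finset.mem_insert, Finset.mem_singleton] at hx ⊢
      tauto
    · intro x hx y hy hxy
      simp only [Finset.coe_insert, Finset.coe_singleton, Set.mem_insert_iff,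
        Set.mem_singleton_iff] at hx hy
      rcases hx with rfl | rfl <;> rcases hy with rfl | rfl
      · exact absurd rfl hxy
      · exact hnbd
      · exact fun h => hnbd h.symm
      · exact absurd rfl hxy
  · rintro ⟨h0, h1, h2, h3, h4, h5, h6⟩ S hS hi
    rcases indep_cases hab hbc hcd hda hS hi with rfl | rfl | rfl | rfl | rfl | rfl | rfl <;>
      assumption

lemma card_four (hab : a ≠ b) (hac : a ≠ c) (had : a ≠ d) (hbc : b ≠ c) (hbd : b ≠ d)
    (hcd : c ≠ d) : ({a, b, c, d} : Finset V).card = 4 := by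
  rw [Finset.card_insert_of_notMem (by simp [hab, hac, had]),
    Finset.card_insert_of_notMem (by simp [hbc, hbd]), Finset.card_pair hcd]

/-- The number of vertices of the 4-cycle with a property. -/
lemma card_filter_four (hab : a ≠ b) (hac : a ≠ c) (had : a ≠ d) (hbc : b ≠ c) (hbd : b ≠ d)
    (hcd : c ≠ d) (p : V → Prop) [DecidablePred p] :
    (({a, b, c, d} : Finset V).filter p).card =
      (if p a then 1 else 0) + (if p b then 1 else 0) + (if p c then 1 else 0) +
        (if p d then 1 else 0) := by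
  rw [Finset.card_filter, Finset.sum_insert (by simp [hab, hac, had]),
    Finset.sum_insert (by simp [hbc, hbd]), Finset.sum_pair hcd]
  omega

lemma wt_eq_one {k : ℕ} {R : V → Fin k → Prop} {S : Finset V} (i : Fin k)
    (h : ∀ s ∈ S, ¬ R s i) : wt R S = 1 := by
  unfold wt
  rw [if_pos ⟨i, h⟩]

lemma wt_eq_zero {k : ℕ} {R : V → Fin k → Prop} {S : Finset V}
    (h : ∀ i, ∃ s ∈ S, R s i) : wt R S = 0 := by
  unfold wt
  rw [if_neg]
  rintro ⟨i, hi⟩
  obtain ⟨s, hs, hR⟩ := h i
  exact hi s hs hR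

/-- The values of the gadgets. -/
lemma wt_hub : wt (hub a b c d) ∅ = 1 ∧ wt (hub a b c d) {a} = 0 ∧ wt (hub a b c d) {b} = 0 ∧
    wt (hub a b c d) {c} = 0 ∧ wt (hub a b c d) {d} = 0 ∧ wt (hub a b c d) {a, c} = 0 ∧
    wt (hub a b c d) {b, d} = 0 := by
  refine ⟨wt_eq_one 0 (by simp), wt_eq_zero ?_, wt_eq_zero ?_, wt_eq_zero ?_, wt_eq_zero ?_,
    wt_eq_zero ?_, wt_eq_zero ?_⟩
  · exact fun i => ⟨a, by simp, by simp [hub]⟩
  · exact fun i => ⟨b, by simp, by simp [hub]⟩
  · exact fun i => ⟨c, by simp, by simp [hub]⟩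
  · exact fun i => ⟨d, by simp, by simp [hub]⟩
  · exact fun i => ⟨a, by simp, by simp [hub]⟩
  · exact fun i => ⟨b, by simp, by simp [hub]⟩

lemma wt_triangle (hab : a ≠ b) (hac : a ≠ c) (had : a ≠ d) (hbc : b ≠ c) (hbd : b ≠ d)
    (hcd : c ≠ d) :
    wt (triangle a b c d) ∅ = 1 ∧ wt (triangle a b c d) {a} = 1 ∧
    wt (triangle a b c d) {b} = 1 ∧ wt (triangle a b c d) {c} = 1 ∧
    wt (triangle a b c d) {d} = 1 ∧ wt (triangle a b c d) {a, c} = 0 ∧
    wt (triangle a b c d) {b, d} = 0 := by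
  refine ⟨wt_eq_one 0 (by simp), wt_eq_one 2 ?_, wt_eq_one 0 ?_, wt_eq_one 0 ?_, wt_eq_one 1 ?_,
    wt_eq_zero ?_, wt_eq_zero ?_⟩
  · intro s hs
    rw [Finset.mem_singleton] at hs
    subst hs
    simp [triangle, hab, hac, had]
  · intro s hs
    rw [Finset.mem_singleton] at hs
    subst hs
    simp [triangle, hab.symm, hbc, hbd]
  · intro s hs
    rw [Finset.mem_singleton] at hs
    subst hs
    simp [triangle, hac.symm, hbc.symm, hcd]
  · intro s hs
    rw [Finset.mem_singleton] at hs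
    subst hs
    simp [triangle, had.symm, hbd.symm, hcd.symm]
  · intro i
    by_cases hi : i = 2
    · exact ⟨c, by simp, Or.inr (Or.inr (Or.inl ⟨rfl, by rw [hi]; decide⟩))⟩
    · exact ⟨a, by simp, Or.inl ⟨rfl, hi⟩⟩
  · intro i
    by_cases hi : i = 1
    · exact ⟨b, by simp, Or.inr (Or.inl ⟨rfl, hi⟩)⟩
    · exact ⟨d, by simp, Or.inr (Or.inr (Or.inr ⟨rfl, hi⟩))⟩

lemma wt_edge (hab : a ≠ b) (had : a ≠ d) (hbc : b ≠ c) (hbd : b ≠ d)
    (hcd : c ≠ d) :
    wt (edge a b c d) ∅ = 1 ∧ wt (edge a b c d) {a} = 0 ∧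
    wt (edge a b c d) {b} = 1 ∧ wt (edge a b c d) {c} = 0 ∧
    wt (edge a b c d) {d} = 1 ∧ wt (edge a b c d) {a, c} = 0 ∧
    wt (edge a b c d) {b, d} = 0 := by
  refine ⟨wt_eq_one 0 (by simp), wt_eq_zero ?_, wt_eq_one 1 ?_, wt_eq_zero ?_, wt_eq_one 0 ?_,
    wt_eq_zero ?_, wt_eq_zero ?_⟩
  · exact fun i => ⟨a, by simp, Or.inl rfl⟩
  · intro s hs
    rw [Finset.mem_singleton] at hs
    subst hs
    simp [edge, hab.symm, hbc, hbd]
  · exact fun i => ⟨c, by simp, Or.inr (Or.inl rfl)⟩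
  · intro s hs
    rw [Finset.mem_singleton] at hs
    subst hs
    simp [edge, had.symm, hbd.symm, hcd.symm]
  · exact fun i => ⟨a, by simp, Or.inl rfl⟩
  · intro i
    by_cases hi : i = 0
    · exact ⟨b, by simp, Or.inr (Or.inr (Or.inl ⟨rfl, hi⟩))⟩
    · exact ⟨d, by simp, Or.inr (Or.inr (Or.inr ⟨rfl, by omega⟩))⟩

lemma pair_comm' (x y : V) : ({x, y} : Finset V) = {y, x} := Finset.pair_comm x y

lemma noLarge_of3 {U1 T U2 : Finset V} (h1T : Disjoint U1 T) (h2T : Disjoint U2 T)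
    (h12 : Disjoint U1 U2)
    (h : ∀ S : Finset V, S ⊆ T → G.IsIndepSet (S : Set V) →
      4 * (S.card + av G U1 S + av G U2 S) ≤ U1.card + T.card + U2.card) :
    NoLarge G (U1 ∪ T ∪ U2) := by
  intro Z hZ hi
  have k1 := h (Z ∩ T) Finset.inter_subset_right (indep_subset hi Finset.inter_subset_left)
  have side : ∀ U : Finset V, Disjoint U T → (Z ∩ U).card ≤ av G U (Z ∩ T) := by
    intro U hU
    refine le_av Finset.inter_subset_right (indep_subset hi Finset.inter_subset_left) ?_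
    intro x hx y hy hadj
    rw [Finset.mem_inter] at hx hy
    exact hi hx.1 hy.1 (fun he => Finset.disjoint_left.1 hU hx.2 (he ▸ hy.2)) hadj
  have k2 := side U1 h1T
  have k3 := side U2 h2T
  have k4 : Z.card ≤ (Z ∩ U1).card + (Z ∩ T).card + (Z ∩ U2).card := by
    have hsub : Z ⊆ (Z ∩ U1) ∪ (Z ∩ T) ∪ (Z ∩ U2) := by
      intro x hx
      have := hZ hx
      rw [Finset.mem_union, Finset.mem_union] at this ⊢
      rw [Finset.mem_inter, Finset.mem_inter, Finset.mem_inter]
      tauto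
    refine (Finset.card_le_card hsub).trans ?_
    refine (Finset.card_union_le _ _).trans ?_
    have := Finset.card_union_le (Z ∩ U1) (Z ∩ T)
    omega
  have d3 : Disjoint (U1 ∪ T) U2 := by
    rw [Finset.disjoint_union_left]
    exact ⟨h12, h2T.symm⟩
  rw [Finset.card_union_of_disjoint d3, Finset.card_union_of_disjoint h1T]
  omega

/-- The conditions of one side with a gadget. -/
lemma noLargeWith_iff_opt (hab : G.Adj a b) (hbc : G.Adj b c) (hcd : G.Adj c d)
    (hda : G.Adj d a) (hac : a ≠ c) (hbd : b ≠ d) (hnac : ¬ G.Adj a c) (hnbd : ¬ G.Adj b d)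
    {U : Finset V} (hU : Disjoint U {a, b, c, d}) {k : ℕ} {R : V → Fin k → Prop}
    (hR : ∀ u i, R u i → u = a ∨ u = b ∨ u = c ∨ u = d) :
    NoLargeWith G (U ∪ {a, b, c, d}) k R ↔
      Opt (U.card : ℤ) (av G U ∅ : ℤ) (av G U {a} : ℤ) (av G U {b} : ℤ) (av G U {c} : ℤ)
        (av G U {d} : ℤ) (av G U {a, c} : ℤ) (av G U {b, d} : ℤ) (k : ℤ) (wt R ∅ : ℤ)
        (wt R {a} : ℤ) (wt R {b} : ℤ) (wt R {c} : ℤ) (wt R {d} : ℤ) (wt R {a, c} : ℤ)
        (wt R {b, d} : ℤ) := by
  have hT4 : ({a, b, c, d} : Finset V).card = 4 :=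
    card_four hab.ne hac hda.ne.symm hbc.ne hbd hcd.ne
  have hR' : ∀ u ∈ U, ∀ i, ¬ R u i := by
    intro u hu i h
    have := hR u i h
    exact Finset.disjoint_left.1 hU hu (by simpa using this)
  rw [noLargeWith_iff hU hR', forall_indep hab hbc hcd hda hnac hnbd]
  simp only [Finset.card_empty, Finset.card_singleton, Finset.card_pair hac,
    Finset.card_pair hbd, hT4, Nat.zero_add]
  unfold Opt
  constructor
  · rintro ⟨h0, h1, h2, h3, h4, h5, h6⟩
    refine ⟨?_, ?_, ?_, ?_, ?_, ?_, ?_⟩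
    · exact_mod_cast h0
    · exact_mod_cast h1
    · exact_mod_cast h2
    · exact_mod_cast h3
    · exact_mod_cast h4
    · exact_mod_cast h5
    · exact_mod_cast h6
  · rintro ⟨h0, h1, h2, h3, h4, h5, h6⟩
    refine ⟨?_, ?_, ?_, ?_, ?_, ?_, ?_⟩
    · exact_mod_cast h0
    · exact_mod_cast h1
    · exact_mod_cast h2
    · exact_mod_cast h3
    · exact_mod_cast h4
    · exact_mod_cast h5
    · exact_mod_cast h6

/-- One side of the partition. -/
lemma side_partition (hab : G.Adj a b) (hbc : G.Adj b c) (hcd : G.Adj c d)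
    (hda : G.Adj d a) (hac : a ≠ c) (hbd : b ≠ d)
    {U : Finset V} (hU : Disjoint U {a, b, c, d})
    (N : U.card = av G U {a} + av G U {b} + av G U {c} + av G U {d})
    (Ma : av G U ∅ ≤ av G U {a} + 1) (Mb : av G U ∅ ≤ av G U {b} + 1)
    (Mc : av G U ∅ ≤ av G U {c} + 1) (Md : av G U ∅ ≤ av G U {d} + 1)
    (A : av G U {a} < av G U ∅ → av G U {c} < av G U ∅ → av G U {a, c} + 2 ≤ av G U ∅)
    (B : av G U {b} < av G U ∅ → av G U {d} < av G U ∅ → av G U {b, d} + 2 ≤ av G U ∅) :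
    NoLarge G (U ∪ ({a, b, c, d} : Finset V).filter (fun v => av G U {v} < av G U ∅)) := by
  have hcard := card_filter_four hab.ne hac hda.ne.symm hbc.ne hbd hcd.ne
    (fun v => av G U {v} < av G U ∅)
  refine noLarge_of (Finset.disjoint_of_subset_right (Finset.filter_subset _ _) hU) ?_
  intro S hS hi
  have hS' : S ⊆ {a, b, c, d} := hS.trans (Finset.filter_subset _ _)
  have hmem : ∀ v ∈ S, av G U {v} < av G U ∅ := fun v hv => (Finset.mem_filter.1 (hS hv)).2
  have m : ∀ (S : Finset V), av G U S ≤ av G U ∅ := fun S => av_anti (Finset.empty_subset _)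
  have ma := m {a}
  have mb := m {b}
  have mc := m {c}
  have md := m {d}
  have hn : U.card + ((if av G U {a} < av G U ∅ then 1 else 0) +
      (if av G U {b} < av G U ∅ then 1 else 0) +
      (if av G U {c} < av G U ∅ then 1 else 0) +
      (if av G U {d} < av G U ∅ then 1 else 0)) = 4 * av G U ∅ := by
    clear A B hmem hcard
    split_ifs <;> omega
  rw [hcard, hn]
  rcases indep_cases hab hbc hcd hda hS' hi with rfl | rfl | rfl | rfl | rfl | rfl | rfl
  · simp
  · have := hmem a (by simp)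
    rw [Finset.card_singleton]
    omega
  · have := hmem b (by simp)
    rw [Finset.card_singleton]
    omega
  · have := hmem c (by simp)
    rw [Finset.card_singleton]
    omega
  · have := hmem d (by simp)
    rw [Finset.card_singleton]
    omega
  · have := A (hmem a (by simp)) (hmem c (by simp))
    rw [Finset.card_pair hac]
    omega
  · have := B (hmem b (by simp)) (hmem d (by simp))
    rw [Finset.card_pair hbd]
    omega

/-- The theorem on separating 4-cycles. -/
theorem four_iff {C : ∀ V : Type, SimpleGraph V → Prop} (hC : FourColourClass C) [Finite V]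
    (hG : C V G) {U1 U2 : Finset V}
    (hab : G.Adj a b) (hbc : G.Adj b c) (hcd : G.Adj c d) (hda : G.Adj d a)
    (hac : a ≠ c) (hbd : b ≠ d) (hnac : ¬ G.Adj a c) (hnbd : ¬ G.Adj b d)
    (h1T : Disjoint U1 {a, b, c, d}) (h2T : Disjoint U2 {a, b, c, d}) (h12 : Disjoint U1 U2)
    (hno : ∀ x ∈ U1, ∀ y ∈ U2, ¬ G.Adj x y)
    (hc1 : (G.induce (U1 : Set V)).Connected) (hc2 : (G.induce (U2 : Set V)).Connected)
    (ha1 : ∀ t ∈ ({a, b, c, d} : Finset V), ∃ e ∈ U1, G.Adj t e)
    (ha2 : ∀ t ∈ ({a, b, c, d} : Finset V), ∃ e ∈ U2, G.Adj t e) :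
    NoLarge G (U1 ∪ {a, b, c, d} ∪ U2) ↔
      (∃ B ⊆ ({a, b, c, d} : Finset V),
        NoLarge G (U1 ∪ B) ∧ NoLarge G (U2 ∪ ({a, b, c, d} \ B))) ∨
      (NoLargeWith G (U1 ∪ {a, b, c, d}) 1 (hub a b c d) ∧
        NoLargeWith G (U2 ∪ {a, b, c, d}) 3 (triangle a b c d)) ∨
      (NoLargeWith G (U1 ∪ {a, b, c, d}) 3 (triangle a b c d) ∧
        NoLargeWith G (U2 ∪ {a, b, c, d}) 1 (hub a b c d)) ∨
      (NoLargeWith G (U1 ∪ {a, b, c, d}) 2 (edge a b c d) ∧
        NoLargeWith G (U2 ∪ {a, b, c, d}) 2 (edge b c d a)) ∨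
      (NoLargeWith G (U1 ∪ {a, b, c, d}) 2 (edge b c d a) ∧
        NoLargeWith G (U2 ∪ {a, b, c, d}) 2 (edge a b c d)) := by
  have hT4 : ({a, b, c, d} : Finset V).card = 4 :=
    card_four hab.ne hac hda.ne.symm hbc.ne hbd hcd.ne
  have r1 : ∀ u i, hub a b c d u i → u = a ∨ u = b ∨ u = c ∨ u = d := fun u i h => h
  have r2 : ∀ u i, triangle a b c d u i → u = a ∨ u = b ∨ u = c ∨ u = d := by
    intro u i h
    unfold triangle at h
    tauto
  have r3 : ∀ u i, edge a b c d u i → u = a ∨ u = b ∨ u = c ∨ u = d := by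
    intro u i h
    unfold edge at h
    tauto
  have r4 : ∀ u i, edge b c d a u i → u = a ∨ u = b ∨ u = c ∨ u = d := by
    intro u i h
    unfold edge at h
    tauto
  obtain ⟨x0, x1, x2, x3, x4, x5, x6⟩ := wt_hub (a := a) (b := b) (c := c) (d := d)
  obtain ⟨y0, y1, y2, y3, y4, y5, y6⟩ := wt_triangle hab.ne hac hda.ne.symm hbc.ne hbd hcd.ne
  obtain ⟨z0, z1, z2, z3, z4, z5, z6⟩ := wt_edge hab.ne hda.ne.symm hbc.ne hbd hcd.ne
  obtain ⟨u0, u1, u2, u3, u4, u5, u6⟩ := wt_edge hbc.ne hab.ne.symm hcd.ne hac.symm hda.ne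
  rw [pair_comm' c a] at u6
  have L1 := @noLargeWith_iff_opt V G a b c d hab hbc hcd hda hac hbd hnac hnbd U1 h1T
  have L2 := @noLargeWith_iff_opt V G a b c d hab hbc hcd hda hac hbd hnac hnbd U2 h2T
  rw [L1 r1, L2 r2, L1 r2, L2 r1, L1 r3, L2 r4, L1 r4, L2 r3, x0, x1, x2, x3, x4, x5, x6, y0, y1,
    y2, y3, y4, y5, y6, z0, z1, z2, z3, z4, z5, z6, u0, u1, u2, u3, u4, u5, u6]
  simp only [Nat.cast_one, Nat.cast_zero, Nat.cast_ofNat]
  clear L1 L2 x0 x1 x2 x3 x4 x5 x6 y0 y1 y2 y3 y4 y5 y6 z0 z1 z2 z3 z4 z5 z6 u0 u1 u2 u3 u4 u5 u6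
  clear r1 r2 r3 r4
  constructor
  · intro hN
    have t := fun S hS hi => tight_le (S := S) hno h1T h2T h12 hN hS hi
    rw [forall_indep hab hbc hcd hda hnac hnbd] at t
    simp only [Finset.card_empty, Finset.card_singleton, Finset.card_pair hac,
      Finset.card_pair hbd, hT4, Nat.zero_add] at t
    obtain ⟨t0, ta, tb, tc, td, tac, tbd⟩ := t
    have s1 := side_cases hC hG hab hbc hcd hda hac hbd hnac hnbd h12 h2T.symm hc2 ha2
    have s2 := side_cases hC hG hab hbc hcd hda hac hbd hnac hnbd h12.symm h1T.symm hc1 ha1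
    have m : ∀ (U S : Finset V), av G U S ≤ av G U ∅ := fun U S => av_anti (Finset.empty_subset _)
    have m1 : ∀ (U : Finset V), av G U {a, c} ≤ av G U {a} ∧ av G U {a, c} ≤ av G U {c} ∧
        av G U {b, d} ≤ av G U {b} ∧ av G U {b, d} ≤ av G U {d} := fun U =>
      ⟨av_anti (by simp), av_anti (by simp), av_anti (by simp), av_anti (by simp)⟩
    have key := arith_final (n1 := (U1.card : ℤ)) (n2 := (U2.card : ℤ))
      (A1 := (av G U1 ∅ : ℤ)) (A2 := (av G U2 ∅ : ℤ))
      (a1 := (av G U1 {a} : ℤ)) (a2 := (av G U2 {a} : ℤ))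
      (b1 := (av G U1 {b} : ℤ)) (b2 := (av G U2 {b} : ℤ))
      (c1 := (av G U1 {c} : ℤ)) (c2 := (av G U2 {c} : ℤ))
      (d1 := (av G U1 {d} : ℤ)) (d2 := (av G U2 {d} : ℤ))
      (ac1 := (av G U1 {a, c} : ℤ)) (ac2 := (av G U2 {a, c} : ℤ))
      (bd1 := (av G U1 {b, d} : ℤ)) (bd2 := (av G U2 {b, d} : ℤ))
      (by exact_mod_cast t0) (by exact_mod_cast ta) (by exact_mod_cast tb)
      (by exact_mod_cast tc) (by exact_mod_cast td) (by exact_mod_cast tac)
      (by exact_mod_cast tbd)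
      (by exact_mod_cast m U1 {a}) (by exact_mod_cast m U1 {b}) (by exact_mod_cast m U1 {c})
      (by exact_mod_cast m U1 {d}) (by exact_mod_cast m U2 {a}) (by exact_mod_cast m U2 {b})
      (by exact_mod_cast m U2 {c}) (by exact_mod_cast m U2 {d})
      (by exact_mod_cast (m1 U1).1) (by exact_mod_cast (m1 U1).2.1)
      (by exact_mod_cast (m1 U1).2.2.1) (by exact_mod_cast (m1 U1).2.2.2)
      (by exact_mod_cast (m1 U2).1) (by exact_mod_cast (m1 U2).2.1)
      (by exact_mod_cast (m1 U2).2.2.1) (by exact_mod_cast (m1 U2).2.2.2)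
      (by exact_mod_cast s1) (by exact_mod_cast s2)
    clear t0 ta tb tc td tac tbd s1 s2
    rcases key with ⟨⟨E1, Ea, Eb, Ec, Ed⟩, ⟨N1, N2⟩, A1, B1, A2, B2⟩ | h | h | h | h
    · left
      have e1 : U1.card + 4 + U2.card = 4 * (av G U1 ∅ + av G U2 ∅) := by exact_mod_cast E1
      have ea : av G U1 {a} + av G U2 {a} + 1 = av G U1 ∅ + av G U2 ∅ := by exact_mod_cast Ea
      have eb : av G U1 {b} + av G U2 {b} + 1 = av G U1 ∅ + av G U2 ∅ := by exact_mod_cast Eb
      have ec : av G U1 {c} + av G U2 {c} + 1 = av G U1 ∅ + av G U2 ∅ := by exact_mod_cast Ec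
      have ed : av G U1 {d} + av G U2 {d} + 1 = av G U1 ∅ + av G U2 ∅ := by exact_mod_cast Ed
      have n1 : U1.card = av G U1 {a} + av G U1 {b} + av G U1 {c} + av G U1 {d} := by
        exact_mod_cast N1
      have n2 : U2.card = av G U2 {a} + av G U2 {b} + av G U2 {c} + av G U2 {d} := by
        exact_mod_cast N2
      have ma1 := m U1 {a}
      have mb1 := m U1 {b}
      have mc1 := m U1 {c}
      have md1 := m U1 {d}
      have ma2 := m U2 {a}
      have mb2 := m U2 {b}
      have mc2 := m U2 {c}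
      have md2 := m U2 {d}
      have A1' : av G U1 {a} < av G U1 ∅ → av G U1 {c} < av G U1 ∅ →
          av G U1 {a, c} + 2 ≤ av G U1 ∅ := fun h h' => by
        exact_mod_cast A1 (by exact_mod_cast h) (by exact_mod_cast h')
      have B1' : av G U1 {b} < av G U1 ∅ → av G U1 {d} < av G U1 ∅ →
          av G U1 {b, d} + 2 ≤ av G U1 ∅ := fun h h' => by
        exact_mod_cast B1 (by exact_mod_cast h) (by exact_mod_cast h')
      have A2' : av G U2 {a} < av G U2 ∅ → av G U2 {c} < av G U2 ∅ →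
          av G U2 {a, c} + 2 ≤ av G U2 ∅ := fun h h' => by
        exact_mod_cast A2 (by exact_mod_cast h) (by exact_mod_cast h')
      have B2' : av G U2 {b} < av G U2 ∅ → av G U2 {d} < av G U2 ∅ →
          av G U2 {b, d} + 2 ≤ av G U2 ∅ := fun h h' => by
        exact_mod_cast B2 (by exact_mod_cast h) (by exact_mod_cast h')
      clear A1 B1 A2 B2 E1 Ea Eb Ec Ed N1 N2 m m1
      have hcomp : ({a, b, c, d} : Finset V) \
          ({a, b, c, d} : Finset V).filter (fun v => av G U1 {v} < av G U1 ∅) =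
          ({a, b, c, d} : Finset V).filter (fun v => av G U2 {v} < av G U2 ∅) := by
        clear A1' B1' A2' B2' e1 n1 n2
        ext v
        rw [Finset.mem_sdiff, Finset.mem_filter, Finset.mem_filter]
        constructor
        · rintro ⟨hv, hv'⟩
          have hv'' : ¬ av G U1 {v} < av G U1 ∅ := fun h => hv' ⟨hv, h⟩
          refine ⟨hv, ?_⟩
          simp only [Finset.mem_insert, Finset.mem_singleton] at hv
          rcases hv with rfl | rfl | rfl | rfl <;> omega
        · rintro ⟨hv, hv'⟩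
          refine ⟨hv, fun h => ?_⟩
          have h2 := h.2
          simp only [Finset.mem_insert, Finset.mem_singleton] at hv
          rcases hv with rfl | rfl | rfl | rfl <;> omega
      refine ⟨({a, b, c, d} : Finset V).filter (fun v => av G U1 {v} < av G U1 ∅),
        Finset.filter_subset _ _, ?_, ?_⟩
      · exact side_partition hab hbc hcd hda hac hbd h1T n1 (by omega) (by omega) (by omega)
          (by omega) A1' B1'
      · rw [hcomp]
        exact side_partition hab hbc hcd hda hac hbd h2T n2 (by omega) (by omega) (by omega)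
          (by omega) A2' B2'
    · exact Or.inr (Or.inl h)
    · exact Or.inr (Or.inr (Or.inl h))
    · exact Or.inr (Or.inr (Or.inr (Or.inl h)))
    · exact Or.inr (Or.inr (Or.inr (Or.inr h)))
  · rintro (⟨B, hB, hN1, hN2⟩ | h | h | h | h)
    · have hdisj : Disjoint (U1 ∪ B) (U2 ∪ (({a, b, c, d} : Finset V) \ B)) := by
        rw [Finset.disjoint_left]
        intro z hz hz'
        rw [Finset.mem_union] at hz hz'
        rw [Finset.mem_sdiff] at hz'
        rcases hz with hz | hz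
        · rcases hz' with h | h
          · exact Finset.disjoint_left.1 h12 hz h
          · exact Finset.disjoint_left.1 h1T hz h.1
        · rcases hz' with h | h
          · exact Finset.disjoint_left.1 h2T h (hB hz)
          · exact h.2 hz
      have hun : (U1 ∪ B) ∪ (U2 ∪ (({a, b, c, d} : Finset V) \ B)) = U1 ∪ {a, b, c, d} ∪ U2 := by
        ext z
        rw [Finset.mem_union, Finset.mem_union, Finset.mem_union, Finset.mem_union,
          Finset.mem_union, Finset.mem_sdiff]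
        constructor
        · rintro ((h | h) | (h | h))
          · tauto
          · exact Or.inl (Or.inr (hB h))
          · tauto
          · tauto
        · tauto
      rw [← hun]
      exact noLarge_union hdisj hN1 hN2
    all_goals
      unfold Opt at h
      obtain ⟨⟨h0, h1, h2, h3, h4, h5, h6⟩, ⟨k0, k1, k2, k3, k4, k5, k6⟩⟩ := h
      refine noLarge_of3 h1T h2T h12 ?_
      rw [forall_indep hab hbc hcd hda hnac hnbd]
      simp only [Finset.card_empty, Finset.card_singleton, Finset.card_pair hac,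
        Finset.card_pair hbd, hT4, Nat.zero_add]
      refine ⟨?_, ?_, ?_, ?_, ?_, ?_, ?_⟩
      · clear h1 h2 h3 h4 h5 h6 k1 k2 k3 k4 k5 k6; omega
      · clear h0 h2 h3 h4 h5 h6 k0 k2 k3 k4 k5 k6; omega
      · clear h0 h1 h3 h4 h5 h6 k0 k1 k3 k4 k5 k6; omega
      · clear h0 h1 h2 h4 h5 h6 k0 k1 k2 k4 k5 k6; omega
      · clear h0 h1 h2 h3 h5 h6 k0 k1 k2 k3 k5 k6; omega
      · clear h0 h1 h2 h3 h4 h6 k0 k1 k2 k3 k4 k6; omega
      · clear h0 h1 h2 h3 h4 h5 k0 k1 k2 k3 k4 k5; omega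

end Pool.Agent.Lib.Helper31.P80
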