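import Pool.Agent.Lib.Helper31.P80.Struct

/-!
# Independent sets of more than a quarter of the vertices: vertices of degree at most three
-/

namespace Pool.Agent.Lib.Helper31.P80

open SimpleGraph Classical

variable {V : Type}

/-- A vertex of a 4-connected set has at least four neighbours in it. -/
lemma FourConnected.degree {G : SimpleGraph V} {X : Finset V} (h : FourConnected G X) {v : V}
    (hv : v ∈ X) : 4 ≤ (X.filter (fun u => G.Adj v u)).card := by
  by_contra hcon
  push Not at hcon
  have hconn := h.2 (X.filter (fun u => G.Adj v u)) (Finset.filter_subset _ _) (by omega)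
  have hvN : v ∉ X.filter (fun u => G.Adj v u) := fun h => (Finset.mem_filter.1 h).2.ne rfl
  have hcard := Finset.card_sdiff_add_card_eq_card
    (Finset.filter_subset (fun u => G.Adj v u) X)
  have h5 := h.1
  have h2 : 1 < (X \ X.filter (fun u => G.Adj v u)).card := by omega
  obtain ⟨w, hw, hwv⟩ := Finset.exists_mem_ne h2 v
  rw [Finset.mem_sdiff] at hw
  have hv' : v ∈ (X : Set V) \ ((X.filter (fun u => G.Adj v u) : Finset V) : Set V) := ⟨hv, hvN⟩
  have hw' : w ∈ (X : Set V) \ ((X.filter (fun u => G.Adj v u) : Finset V) : Set V) := hw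
  have hr := hconn.preconnected ⟨v, hv'⟩ ⟨w, hw'⟩
  rw [SimpleGraph.reachable_iff_reflTransGen] at hr
  rcases Relation.ReflTransGen.cases_head hr with he | ⟨c, hc, _⟩
  · exact hwv (congrArg Subtype.val he).symm
  · have hadj : G.Adj v c.1 := hc
    exact c.2.2 (Finset.mem_coe.2 (Finset.mem_filter.2 ⟨c.2.1, hadj⟩))

/-- The rule for vertices of degree at most three. -/
theorem low_degree_iff {C : ∀ V : Type, SimpleGraph V → Prop} (hC : FourColourClass C) [Finite V]
    {G : SimpleGraph V} (hG : C V G) {A : Finset V} {v : V} (hv : v ∈ A)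
    (hdeg : (A.filter (fun u => G.Adj v u)).card ≤ 3) :
    NoLarge G A ↔ IsK4 G (insert v (A.filter (fun u => G.Adj v u))) ∧
      NoLarge G (A \ insert v (A.filter (fun u => G.Adj v u))) := by
  have hsubA : insert v (A.filter (fun u => G.Adj v u)) ⊆ A := by
    intro x hx
    rw [Finset.mem_insert, Finset.mem_filter] at hx
    rcases hx with rfl | hx
    · exact hv
    · exact hx.1
  constructor
  · intro h
    obtain ⟨P, h1, h2, h3⟩ := exists_parts hC hG _ _ rfl h
    have hvP : v ∈ P.biUnion id := by
      rw [h2]
      exact hv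
    rw [Finset.mem_biUnion] at hvP
    obtain ⟨X, hX, hvX⟩ := hvP
    have hXA : X ⊆ A := by
      rw [← h2]
      exact Finset.subset_biUnion_of_mem id hX
    have hvX' : v ∈ X := hvX
    have hK : IsK4 G X := by
      rcases h3 X hX with h | h
      · exact h
      · exfalso
        have h4 := FourConnected.degree h.1 hvX'
        have h5 : (X.filter (fun u => G.Adj v u)).card ≤ (A.filter (fun u => G.Adj v u)).card :=
          Finset.card_le_card (Finset.filter_subset_filter _ hXA)
        omega
    have hXsub : X ⊆ insert v (A.filter (fun u => G.Adj v u)) := by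
      intro x hx
      rw [Finset.mem_insert, Finset.mem_filter]
      by_cases hxv : x = v
      · exact Or.inl hxv
      · exact Or.inr ⟨hXA hx, hK.2 hvX' hx (fun he => hxv he.symm)⟩
    have hXeq : X = insert v (A.filter (fun u => G.Adj v u)) := by
      refine Finset.eq_of_subset_of_card_le hXsub ?_
      have := Finset.card_insert_le v (A.filter (fun u => G.Adj v u))
      rw [hK.1]
      omega
    rw [← hXeq]
    refine ⟨hK, ?_⟩
    have hrest : A \ X = (P.erase X).biUnion id := by
      ext x
      rw [Finset.mem_sdiff, Finset.mem_biUnion]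
      constructor
      · rintro ⟨hx, hxX⟩
        rw [← h2, Finset.mem_biUnion] at hx
        obtain ⟨Y, hY, hxY⟩ := hx
        refine ⟨Y, Finset.mem_erase.2 ⟨?_, hY⟩, hxY⟩
        rintro rfl
        exact hxX hxY
      · rintro ⟨Y, hY, hxY⟩
        rw [Finset.mem_erase] at hY
        refine ⟨?_, fun hxX => ?_⟩
        · rw [← h2, Finset.mem_biUnion]
          exact ⟨Y, hY.2, hxY⟩
        · exact Finset.disjoint_left.1 (h1 hY.2 hX hY.1) hxY hxX
    rw [hrest]
    exact noLarge_biUnion (h1.subset (by
      intro Y hY
      exact Finset.mem_of_mem_erase hY)) (fun Y hY => (h3 Y (Finset.mem_of_mem_erase hY)).noLarge)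
  · rintro ⟨hK, hN⟩
    have hu : insert v (A.filter (fun u => G.Adj v u)) ∪
        (A \ insert v (A.filter (fun u => G.Adj v u))) = A := Finset.union_sdiff_of_subset hsubA
    rw [← hu]
    exact noLarge_union Finset.disjoint_sdiff (noLarge_K4 hK) hN

end Pool.Agent.Lib.Helper31.P80
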