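import Pool.Agent.Lib.Helper31.P80.Defs

/-!
# Independent sets of more than a quarter of the vertices: the class of planar graphs
-/

namespace Pool.Agent.Lib.Helper31.P80

open SimpleGraph Classical

/-- If `D` is connected in `H` and `H` is a minor of `G` by `f`, the union of the fibres over `D`
is connected in `G`. -/
lemma connected_union {V W : Type} {H : SimpleGraph W} {G : SimpleGraph V} {f : V → Option W}
    (hf : ∀ w, (G.induce {v | f v = some w}).Connected)
    (ha : ∀ w w', H.Adj w w' → ∃ v v', f v = some w ∧ f v' = some w' ∧ G.Adj v v')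
    {D : Set W} (hD : (H.induce D).Connected) :
    (G.induce {v | ∃ w ∈ D, f v = some w}).Connected := by
  have hsub : ∀ w ∈ D, {v | f v = some w} ⊆ {v | ∃ w ∈ D, f v = some w} :=
    fun w hw v hv => ⟨w, hw, hv⟩
  -- inside one fibre
  have h1 : ∀ w (hw : w ∈ D) (x y : V) (hx : f x = some w) (hy : f y = some w),
      (G.induce {v | ∃ w ∈ D, f v = some w}).Reachable ⟨x, w, hw, hx⟩ ⟨y, w, hw, hy⟩ := by
    intro w hw x y hx hy
    have := (hf w).preconnected ⟨x, hx⟩ ⟨y, hy⟩
    exact this.map (SimpleGraph.induceHomOfLE G (hsub w hw)).toHom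
  have h2 : ∀ (w0 w : D), (H.induce D).Reachable w0 w → ∀ (x y : V) (hx : f x = some w0.1)
      (hy : f y = some w.1),
      (G.induce {v | ∃ w ∈ D, f v = some w}).Reachable ⟨x, w0.1, w0.2, hx⟩ ⟨y, w.1, w.2, hy⟩ := by
    intro w0 w hr
    rw [SimpleGraph.reachable_iff_reflTransGen] at hr
    induction hr with
    | refl => exact fun x y hx hy => h1 w0.1 w0.2 x y hx hy
    | @tail b c _ hbc ih =>
      intro x y hx hy
      have hadj : H.Adj b.1 c.1 := hbc
      obtain ⟨v, v', hv, hv', hvv⟩ := ha _ _ hadj
      have e1 := ih x v hx hv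
      have e2 := h1 c.1 c.2 v' y hv' hy
      have e3 : (G.induce {v | ∃ w ∈ D, f v = some w}).Adj ⟨v, b.1, b.2, hv⟩
          ⟨v', c.1, c.2, hv'⟩ := hvv
      exact e1.trans (e3.reachable.trans e2)
  obtain ⟨w0⟩ := hD.nonempty
  obtain ⟨⟨x0, hx0⟩⟩ := (hf w0.1).nonempty
  have : Nonempty {v | ∃ w ∈ D, f v = some w} := ⟨⟨x0, w0.1, w0.2, hx0⟩⟩
  refine SimpleGraph.Connected.mk ?_
  rintro ⟨x, w, hw, hx⟩ ⟨y, w', hw', hy⟩
  exact h2 ⟨w, hw⟩ ⟨w', hw'⟩ (hD.preconnected _ _) x y hx hy

/-- Minors of minors are minors. -/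
lemma IsMinor.trans {V W X : Type} {K : SimpleGraph X} {H : SimpleGraph W} {G : SimpleGraph V}
    (h1 : IsMinor K H) (h2 : IsMinor H G) : IsMinor K G := by
  obtain ⟨g, hg, hga⟩ := h1
  obtain ⟨f, hf, hfa⟩ := h2
  refine ⟨fun v => (f v).bind g, ?_, ?_⟩
  · intro x
    have hset : {v | (f v).bind g = some x} = {v | ∃ w ∈ {w | g w = some x}, f v = some w} := by
      ext v
      simp only [Set.mem_ofPred_eq, Option.bind_eq_some_iff]
      constructor
      · rintro ⟨w, h, h'⟩
        exact ⟨w, h', h⟩
      · rintro ⟨w, h, h'⟩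
        exact ⟨w, h', h⟩
    rw [hset]
    exact connected_union hf hfa (hg x)
  · intro x x' hadj
    obtain ⟨w, w', hw, hw', hww⟩ := hga x x' hadj
    obtain ⟨v, v', hv, hv', hvv⟩ := hfa w w' hww
    refine ⟨v, v', ?_, ?_, hvv⟩
    · simp [hv, hw]
    · simp [hv', hw']

lemma planar_minor {V W : Type} {G : SimpleGraph V} {H : SimpleGraph W} (hG : Planar V G)
    (h : IsMinor H G) : Planar W H := by
  have := hG.1
  refine ⟨?_, fun h' => hG.2.1 (h'.trans h), fun h' => hG.2.2 (h'.trans h)⟩
  obtain ⟨f, hf, -⟩ := h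
  have hne : ∀ w : W, ∃ v, f v = some w := by
    intro w
    obtain ⟨⟨v, hv⟩⟩ := (hf w).nonempty
    exact ⟨v, hv⟩
  choose g hg using hne
  have hinj : Function.Injective g := by
    intro w w' he
    have := hg w
    rw [he, hg w'] at this
    exact (Option.some.inj this).symm
  exact Finite.of_injective g hinj

section Star

variable {V W : Type} {G : SimpleGraph V} {x : V} {H : SimpleGraph W}
  {f : {v : V // v ≠ x} → Option W}

/-- A fibre with at most one neighbour of `x` is connected in `G`. -/
lemma fibre_connected {w : W}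
    (hf : ((starTriangle G x).induce {v | f v = some w}).Connected)
    (hN : ∀ u u' : {v : V // v ≠ x}, G.Adj x u → G.Adj x u' → f u = some w → f u' = some w →
      u = u') :
    (G.induce {v | ∃ h : v ≠ x, f ⟨v, h⟩ = some w}).Connected := by
  let φ : (starTriangle G x).induce {v | f v = some w} →g
      G.induce {v | ∃ h : v ≠ x, f ⟨v, h⟩ = some w} :=
    { toFun := fun u => ⟨u.1.1, u.1.2, u.2⟩
      map_rel' := by
        rintro ⟨u, hu⟩ ⟨u', hu'⟩ hadj
        have hadj' : (starTriangle G x).Adj u u' := hadj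
        rw [starTriangle, SimpleGraph.fromRel_adj] at hadj'
        obtain ⟨hne, h | h⟩ := hadj'
        · rcases h with h | ⟨h, h'⟩
          · exact h
          · exact absurd (hN u u' h h' hu hu') hne
        · rcases h with h | ⟨h, h'⟩
          · exact h.symm
          · exact absurd (hN u u' h' h hu hu') hne }
  refine hf.map φ ?_
  rintro ⟨v, h, hv⟩
  exact ⟨⟨⟨v, h⟩, hv⟩, rfl⟩

/-- A fibre together with `x` is connected in `G`. -/
lemma fibre_connected' {w : W} {n : {v : V // v ≠ x}}
    (hf : ((starTriangle G x).induce {v | f v = some w}).Connected)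
    (hn : G.Adj x n) (hnw : f n = some w) :
    (G.induce {v | v = x ∨ ∃ h : v ≠ x, f ⟨v, h⟩ = some w}).Connected := by
  have hxS : x ∈ {v | v = x ∨ ∃ h : v ≠ x, f ⟨v, h⟩ = some w} := Or.inl rfl
  have key : ∀ u : {v | f v = some w}, ((starTriangle G x).induce {v | f v = some w}).Reachable
      ⟨n, hnw⟩ u → (G.induce {v | v = x ∨ ∃ h : v ≠ x, f ⟨v, h⟩ = some w}).Reachable
        ⟨x, hxS⟩ ⟨u.1.1, Or.inr ⟨u.1.2, u.2⟩⟩ := by
    intro u hu
    rw [SimpleGraph.reachable_iff_reflTransGen] at hu
    induction hu with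
    | refl =>
      have hadj : (G.induce {v | v = x ∨ ∃ h : v ≠ x, f ⟨v, h⟩ = some w}).Adj
          ⟨x, hxS⟩ ⟨n.1, Or.inr ⟨n.2, hnw⟩⟩ := hn
      exact hadj.reachable
    | @tail b c _ hbc ih =>
      have hbc' : (starTriangle G x).Adj b.1 c.1 := hbc
      rw [starTriangle, SimpleGraph.fromRel_adj] at hbc'
      have hcase : G.Adj b.1.1 c.1.1 ∨ G.Adj x c.1.1 := by
        obtain ⟨_, (h | ⟨_, h'⟩) | (h | ⟨h, _⟩)⟩ := hbc'
        · exact Or.inl h
        · exact Or.inr h'
        · exact Or.inl h.symm
        · exact Or.inr h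
      rcases hcase with h | h
      · have hadj : (G.induce {v | v = x ∨ ∃ h : v ≠ x, f ⟨v, h⟩ = some w}).Adj
            ⟨b.1.1, Or.inr ⟨b.1.2, b.2⟩⟩ ⟨c.1.1, Or.inr ⟨c.1.2, c.2⟩⟩ := h
        exact ih.trans hadj.reachable
      · have hadj : (G.induce {v | v = x ∨ ∃ h : v ≠ x, f ⟨v, h⟩ = some w}).Adj
            ⟨x, hxS⟩ ⟨c.1.1, Or.inr ⟨c.1.2, c.2⟩⟩ := h
        exact hadj.reachable
  have : Nonempty {v | v = x ∨ ∃ h : v ≠ x, f ⟨v, h⟩ = some w} := ⟨⟨x, hxS⟩⟩
  have key2 : ∀ y : {v | v = x ∨ ∃ h : v ≠ x, f ⟨v, h⟩ = some w},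
      (G.induce {v | v = x ∨ ∃ h : v ≠ x, f ⟨v, h⟩ = some w}).Reachable ⟨x, hxS⟩ y := by
    rintro ⟨y, hy⟩
    rcases hy with hy | ⟨h, hy⟩
    · subst hy
      exact SimpleGraph.Reachable.refl _
    · exact key ⟨⟨y, h⟩, hy⟩ (hf.preconnected _ _)
  refine SimpleGraph.Connected.mk ?_
  intro y z
  exact (key2 y).symm.trans (key2 z)

/-- Lifting a minor of the star-triangle exchange, the centre being unused. -/
lemma lift_none (hf : ∀ w, ((starTriangle G x).induce {v | f v = some w}).Connected)
    (ha : ∀ w w', H.Adj w w' → ∃ v v', f v = some w ∧ f v' = some w' ∧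
      (starTriangle G x).Adj v v')
    (hN : ∀ u u' : {v : V // v ≠ x}, ∀ w w', G.Adj x u → G.Adj x u' → u ≠ u' → f u = some w →
      f u' = some w' → w ≠ w' ∧ ¬ H.Adj w w') : IsMinor H G := by
  refine ⟨fun v => if h : v ≠ x then f ⟨v, h⟩ else none, ?_, ?_⟩
  · intro w
    have hset : {v | (if h : v ≠ x then f ⟨v, h⟩ else none) = some w} =
        {v | ∃ h : v ≠ x, f ⟨v, h⟩ = some w} := by
      ext v
      simp only [Set.mem_ofPred_eq]
      by_cases hv : v = x
      · simp [hv]
      · simp [hv]
    rw [hset]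
    refine fibre_connected (hf w) ?_
    intro u u' h h' hu hu'
    by_contra hne
    exact (hN u u' w w h h' hne hu hu').1 rfl
  · intro w w' hadj
    obtain ⟨v, v', hv, hv', hvv⟩ := ha w w' hadj
    refine ⟨v.1, v'.1, ?_, ?_, ?_⟩
    · simp [v.2, hv]
    · simp [v'.2, hv']
    · rw [starTriangle, SimpleGraph.fromRel_adj] at hvv
      obtain ⟨hne, (h | ⟨h, h'⟩) | (h | ⟨h, h'⟩)⟩ := hvv
      · exact h
      · exact absurd hadj (hN v v' w w' h h' hne hv hv').2
      · exact h.symm
      · exact absurd hadj (hN v v' w w' h' h hne hv hv').2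

/-- Lifting a minor of the star-triangle exchange, the centre being put into the fibre of `l`. -/
lemma lift_some (hf : ∀ w, ((starTriangle G x).induce {v | f v = some w}).Connected)
    (ha : ∀ w w', H.Adj w w' → ∃ v v', f v = some w ∧ f v' = some w' ∧
      (starTriangle G x).Adj v v') {l : W} {n : {v : V // v ≠ x}} (hn : G.Adj x n)
    (hnl : f n = some l)
    (hN : ∀ u u' : {v : V // v ≠ x}, ∀ w w', G.Adj x u → G.Adj x u' → u ≠ u' → f u = some w →
      f u' = some w' → w ≠ l → w' ≠ l → w ≠ w' ∧ ¬ H.Adj w w') : IsMinor H G := by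
  refine ⟨fun v => if h : v ≠ x then f ⟨v, h⟩ else some l, ?_, ?_⟩
  · intro w
    by_cases hwl : w = l
    · subst hwl
      have hset : {v | (if h : v ≠ x then f ⟨v, h⟩ else some w) = some w} =
          {v | v = x ∨ ∃ h : v ≠ x, f ⟨v, h⟩ = some w} := by
        ext v
        simp only [Set.mem_ofPred_eq]
        by_cases hv : v = x
        · simp [hv]
        · simp [hv]
      rw [hset]
      exact fibre_connected' (hf w) hn hnl
    · have hset : {v | (if h : v ≠ x then f ⟨v, h⟩ else some l) = some w} =
          {v | ∃ h : v ≠ x, f ⟨v, h⟩ = some w} := by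
        ext v
        simp only [Set.mem_ofPred_eq]
        by_cases hv : v = x
        · simp only [hv, ne_eq, not_true_eq_false, dite_false, Option.some.injEq, IsEmpty.exists_iff,
            iff_false]
          exact fun h => hwl h.symm
        · simp [hv]
      rw [hset]
      refine fibre_connected (hf w) ?_
      intro u u' h h' hu hu'
      by_contra hne
      exact (hN u u' w w h h' hne hu hu' hwl hwl).1 rfl
  · intro w w' hadj
    obtain ⟨v, v', hv, hv', hvv⟩ := ha w w' hadj
    have e : ∀ u : {v : V // v ≠ x}, (if h : u.1 ≠ x then f ⟨u.1, h⟩ else some l) = f u := by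
      intro u
      simp [u.2]
    have ex : (if h : x ≠ x then f ⟨x, h⟩ else some l) = some l := by simp
    rw [starTriangle, SimpleGraph.fromRel_adj] at hvv
    have hcase : G.Adj v.1 v'.1 ∨ (G.Adj x v ∧ G.Adj x v') := by
      obtain ⟨_, (h | h) | (h | h)⟩ := hvv
      · exact Or.inl h
      · exact Or.inr h
      · exact Or.inl h.symm
      · exact Or.inr ⟨h.2, h.1⟩
    rcases hcase with h | ⟨h, h'⟩
    · exact ⟨v.1, v'.1, (e v).trans hv, (e v').trans hv', h⟩
    · by_cases hwl : w = l
      · subst hwl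
        exact ⟨x, v'.1, ex, (e v').trans hv', h'⟩
      · by_cases hwl' : w' = l
        · subst hwl'
          exact ⟨v.1, x, (e v).trans hv, ex, h.symm⟩
        · exact absurd hadj (hN v v' w w' h h' hvv.1 hv hv' hwl hwl').2

end Star

lemma K5_adj {i j : Fin 5} (h : i ≠ j) : K5.Adj i j := h

lemma exists_rest : ∀ a b c : Fin 5, a ≠ b → a ≠ c → b ≠ c → ∃ d e : Fin 5,
    d ≠ a ∧ d ≠ b ∧ d ≠ c ∧ e ≠ a ∧ e ≠ b ∧ e ≠ c ∧ d ≠ e := by
  decide

/-- The case of three different branch sets for `K₅`. -/
lemma lift_K33 {V : Type} {G : SimpleGraph V} {x : V} {f : {v : V // v ≠ x} → Option (Fin 5)}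
    (hf : ∀ w, ((starTriangle G x).induce {v | f v = some w}).Connected)
    (ha : ∀ w w', K5.Adj w w' → ∃ v v', f v = some w ∧ f v' = some w' ∧
      (starTriangle G x).Adj v v')
    {a b c : {v : V // v ≠ x}} (hN : ∀ u : {v : V // v ≠ x}, G.Adj x u → u = a ∨ u = b ∨ u = c)
    (hxa : G.Adj x a) (hxb : G.Adj x b) (hxc : G.Adj x c) {p q r : Fin 5}
    (hp : f a = some p) (hq : f b = some q) (hr : f c = some r) (hpq : p ≠ q) (hpr : p ≠ r)
    (hqr : q ≠ r) : IsMinor K33 G := by
  obtain ⟨s, t, h1, h2, h3, h4, h5, h6, h7⟩ := exists_rest p q r hpq hpr hqr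
  let τ : Fin 5 → Fin 6 := fun w => if w = p then 0 else if w = q then 1 else if w = r then 2
    else if w = s then 4 else 5
  let σ : Fin 6 → Fin 5 := fun i => if i = 0 then p else if i = 1 then q else if i = 2 then r
    else if i = 4 then s else t
  have hcover : ∀ w, w = p ∨ w = q ∨ w = r ∨ w = s ∨ w = t := by
    intro w
    by_contra hcon
    push Not at hcon
    obtain ⟨w1, w2, w3, w4, w5⟩ := hcon
    have hc : ({p, q, r, s, t, w} : Finset (Fin 5)).card = 6 := by
      rw [Finset.card_insert_of_notMem, Finset.card_insert_of_notMem,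
        Finset.card_insert_of_notMem, Finset.card_insert_of_notMem, Finset.card_pair]
      · exact w5.symm
      · simp only [Finset.mem_insert, Finset.mem_singleton, not_or]
        exact ⟨h7, w4.symm⟩
      · simp only [Finset.mem_insert, Finset.mem_singleton, not_or]
        exact ⟨h3.symm, h6.symm, w3.symm⟩
      · simp only [Finset.mem_insert, Finset.mem_singleton, not_or]
        exact ⟨hqr, h2.symm, h5.symm, w2.symm⟩
      · simp only [Finset.mem_insert, Finset.mem_singleton, not_or]
        exact ⟨hpq, hpr, h1.symm, h4.symm, w1.symm⟩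
    have := Finset.card_le_univ ({p, q, r, s, t, w} : Finset (Fin 5))
    rw [hc, Fintype.card_fin] at this
    omega
  have hτ3 : ∀ w, τ w ≠ 3 := by
    intro w
    simp only [τ]
    split_ifs <;> decide
  have hστ : ∀ i : Fin 6, i ≠ 3 → ∀ w, τ w = i ↔ w = σ i := by
    have e0 : τ p = 0 := by simp [τ]
    have e1 : τ q = 1 := by simp [τ, hpq.symm]
    have e2 : τ r = 2 := by simp [τ, hpr.symm, hqr.symm]
    have e4 : τ s = 4 := by simp [τ, h1, h2, h3]
    have e5 : τ t = 5 := by simp [τ, h4, h5, h6, h7.symm]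
    intro i hi w
    have hi' : i = 0 ∨ i = 1 ∨ i = 2 ∨ i = 4 ∨ i = 5 := by
      revert hi
      revert i
      decide
    have f0 : σ 0 = p := by simp [σ]
    have f1 : σ 1 = q := by simp [σ]
    have f2 : σ 2 = r := by simp [σ]
    have f4 : σ 4 = s := by simp [σ]
    have f5 : σ 5 = t := by simp [σ]
    constructor
    · intro hw
      rcases hcover w with rfl | rfl | rfl | rfl | rfl
      · rw [e0] at hw; rw [← hw, f0]
      · rw [e1] at hw; rw [← hw, f1]
      · rw [e2] at hw; rw [← hw, f2]
      · rw [e4] at hw; rw [← hw, f4]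
      · rw [e5] at hw; rw [← hw, f5]
    · rintro rfl
      rcases hi' with rfl | rfl | rfl | rfl | rfl
      · rw [f0, e0]
      · rw [f1, e1]
      · rw [f2, e2]
      · rw [f4, e4]
      · rw [f5, e5]
  refine ⟨fun v => if h : v ≠ x then (f ⟨v, h⟩).map τ else some 3, ?_, ?_⟩
  · intro i
    by_cases hi : i = 3
    · subst hi
      have hset : {v | (if h : v ≠ x then (f ⟨v, h⟩).map τ else some 3) = some 3} = {x} := by
        ext v
        simp only [Set.mem_ofPred_eq, Set.mem_singleton_iff]
        by_cases hv : v = x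
        · simp [hv]
        · simp only [ne_eq, hv, not_false_eq_true, dite_true, iff_false]
          intro h
          rw [Option.map_eq_some_iff] at h
          obtain ⟨w, _, hw⟩ := h
          exact hτ3 w hw
      rw [hset]
      have : Nonempty ({x} : Set V) := ⟨⟨x, rfl⟩⟩
      refine SimpleGraph.Connected.mk ?_
      intro y z
      have : y = z := Subtype.ext (y.2.trans z.2.symm)
      rw [this]
    · have hset : {v | (if h : v ≠ x then (f ⟨v, h⟩).map τ else some 3) = some i} =
          {v | ∃ h : v ≠ x, f ⟨v, h⟩ = some (σ i)} := by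
        ext v
        simp only [Set.mem_ofPred_eq]
        by_cases hv : v = x
        · simp only [hv, ne_eq, not_true_eq_false, dite_false, Option.some.injEq, IsEmpty.exists_iff,
            iff_false]
          exact fun h => hi h.symm
        · simp only [ne_eq, hv, not_false_eq_true, dite_true, exists_true_left]
          rw [Option.map_eq_some_iff]
          constructor
          · rintro ⟨w, hw, hw'⟩
            rw [hw, (hστ i hi w).1 hw']
          · intro h
            exact ⟨σ i, h, (hστ i hi (σ i)).2 rfl⟩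
      rw [hset]
      refine fibre_connected (hf _) ?_
      intro u u' h h' hu hu'
      by_contra hne
      rcases hN u h with rfl | rfl | rfl <;> rcases hN u' h' with rfl | rfl | rfl
      · exact hne rfl
      · rw [hp] at hu; rw [hq] at hu'
        exact hpq (Option.some.inj (hu.trans hu'.symm))
      · rw [hp] at hu; rw [hr] at hu'
        exact hpr (Option.some.inj (hu.trans hu'.symm))
      · rw [hq] at hu; rw [hp] at hu'
        exact hpq (Option.some.inj (hu'.trans hu.symm))
      · exact hne rfl
      · rw [hq] at hu; rw [hr] at hu'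
        exact hqr (Option.some.inj (hu.trans hu'.symm))
      · rw [hr] at hu; rw [hp] at hu'
        exact hpr (Option.some.inj (hu'.trans hu.symm))
      · rw [hr] at hu; rw [hq] at hu'
        exact hqr (Option.some.inj (hu'.trans hu.symm))
      · exact hne rfl
  · -- adjacency
    have ex : (if h : x ≠ x then (f ⟨x, h⟩).map τ else some 3) = some 3 := by simp
    have e : ∀ (u : {v : V // v ≠ x}) (i : Fin 6), i ≠ 3 → f u = some (σ i) →
        (if h : u.1 ≠ x then (f ⟨u.1, h⟩).map τ else some 3) = some i := by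
      intro u i hi hu
      have hu2 := u.2
      simp only [ne_eq, hu2, not_false_eq_true, dite_true]
      rw [show (⟨u.1, hu2⟩ : {v : V // v ≠ x}) = u from rfl, hu, Option.map_some,
        (hστ i hi (σ i)).2 rfl]
    have side : ∀ i j : Fin 6, i < 3 → 3 ≤ j →
        ∃ v v', (if h : v ≠ x then (f ⟨v, h⟩).map τ else some 3) = some i ∧
          (if h : v' ≠ x then (f ⟨v', h⟩).map τ else some 3) = some j ∧ G.Adj v v' := by
      intro i j hi hj
      have hi3 : i ≠ 3 := by
        intro h
        rw [h] at hi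
        exact absurd hi (by decide)
      have hi' : i = 0 ∨ i = 1 ∨ i = 2 := by
        revert hi
        revert i
        decide
      by_cases hj3 : j = 3
      · subst hj3
        rcases hi' with rfl | rfl | rfl
        · exact ⟨a.1, x, e a 0 hi3 (by simpa [σ] using hp), ex, hxa.symm⟩
        · exact ⟨b.1, x, e b 1 hi3 (by simpa [σ] using hq), ex, hxb.symm⟩
        · exact ⟨c.1, x, e c 2 hi3 (by simpa [σ] using hr), ex, hxc.symm⟩
      · have hj' : j = 4 ∨ j = 5 := by
          revert hj3
          revert hj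
          revert j
          decide
        have hσj : σ j = s ∨ σ j = t := by
          rcases hj' with rfl | rfl
          · left; simp [σ]
          · right; simp [σ]
        have hσi : σ i = p ∨ σ i = q ∨ σ i = r := by
          rcases hi' with rfl | rfl | rfl
          · left; simp [σ]
          · right; left; simp [σ]
          · right; right; simp [σ]
        have hne : σ i ≠ σ j := by
          rcases hσi with h | h | h <;> rcases hσj with h' | h' <;> rw [h, h']
          · exact h1.symm
          · exact h4.symm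
          · exact h2.symm
          · exact h5.symm
          · exact h3.symm
          · exact h6.symm
        obtain ⟨v, v', hv, hv', hvv⟩ := ha _ _ (K5_adj hne)
        refine ⟨v.1, v'.1, e v i hi3 hv, e v' j hj3 hv', ?_⟩
        have hnx : ¬ G.Adj x v' := by
          intro h
          rcases hN v' h with rfl | rfl | rfl
          · rw [hp] at hv'
            have := Option.some.inj hv'
            rcases hσj with h' | h' <;> rw [h'] at this
            · exact h1 this.symm
            · exact h4 this.symm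
          · rw [hq] at hv'
            have := Option.some.inj hv'
            rcases hσj with h' | h' <;> rw [h'] at this
            · exact h2 this.symm
            · exact h5 this.symm
          · rw [hr] at hv'
            have := Option.some.inj hv'
            rcases hσj with h' | h' <;> rw [h'] at this
            · exact h3 this.symm
            · exact h6 this.symm
        rw [starTriangle, SimpleGraph.fromRel_adj] at hvv
        obtain ⟨_, (h | ⟨_, h⟩) | (h | ⟨h, _⟩)⟩ := hvv
        · exact h
        · exact absurd h hnx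
        · exact h.symm
        · exact absurd h hnx
    intro i j hij
    rw [K33, SimpleGraph.fromRel_adj] at hij
    obtain ⟨_, ⟨h, h'⟩ | ⟨h, h'⟩⟩ := hij
    · exact side i j h h'
    · obtain ⟨v, v', hv, hv', hvv⟩ := side j i h h'
      exact ⟨v', v, hv', hv, hvv.symm⟩

/-- There are no four different neighbours. -/
lemma no_four {V : Type} [Finite V] {G : SimpleGraph V} {x : V}
    (h3 : (G.neighborSet x).ncard ≤ 3) {a b c d : V} (ha : G.Adj x a) (hb : G.Adj x b)
    (hc : G.Adj x c) (hd : G.Adj x d) (hab : a ≠ b) (hac : a ≠ c) (had : a ≠ d) (hbc : b ≠ c)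
    (hbd : b ≠ d) (hcd : c ≠ d) : False := by
  have hsub : (({a, b, c, d} : Finset V) : Set V) ⊆ G.neighborSet x := by
    intro y hy
    rw [Finset.mem_coe] at hy
    simp only [Finset.mem_insert, Finset.mem_singleton] at hy
    rcases hy with rfl | rfl | rfl | rfl
    · exact ha
    · exact hb
    · exact hc
    · exact hd
  have h1 := Set.ncard_le_ncard hsub (Set.toFinite _)
  rw [Set.ncard_coe_finset] at h1
  have h2 : ({a, b, c, d} : Finset V).card = 4 := by
    rw [Finset.card_insert_of_notMem (by simp [hab, hac, had]),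
      Finset.card_insert_of_notMem (by simp [hbc, hbd]), Finset.card_pair hcd]
  omega

/-- A minor of the star-triangle exchange lifts to `G`, or the neighbours of the centre lie in
three different branch sets. -/
lemma lift_cases {V W : Type} [Finite V] {G : SimpleGraph V} {x : V}
    (h3 : (G.neighborSet x).ncard ≤ 3) {H : SimpleGraph W} {f : {v : V // v ≠ x} → Option W}
    (hf : ∀ w, ((starTriangle G x).induce {v | f v = some w}).Connected)
    (ha : ∀ w w', H.Adj w w' → ∃ v v', f v = some w ∧ f v' = some w' ∧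
      (starTriangle G x).Adj v v') :
    IsMinor H G ∨ ∃ (a b c : {v : V // v ≠ x}) (p q r : W), G.Adj x a ∧ G.Adj x b ∧ G.Adj x c ∧
      f a = some p ∧ f b = some q ∧ f c = some r ∧ p ≠ q ∧ p ≠ r ∧ q ≠ r := by
  by_cases hA : ∃ (a b c : {v : V // v ≠ x}) (p q r : W), G.Adj x a ∧ G.Adj x b ∧ G.Adj x c ∧
      f a = some p ∧ f b = some q ∧ f c = some r ∧ p ≠ q ∧ p ≠ r ∧ q ≠ r
  · exact Or.inr hA
  left
  by_cases hS : ∃ (u u' : {v : V // v ≠ x}) (l : W), G.Adj x u ∧ G.Adj x u' ∧ u ≠ u' ∧
      f u = some l ∧ f u' = some l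
  · obtain ⟨n, n', l, hn, hn', hne, hnl, hnl'⟩ := hS
    refine lift_some hf ha hn hnl ?_
    intro u u' w w' hu hu' huu hw hw' hwl hwl'
    exfalso
    have e : ∀ y z : {v : V // v ≠ x}, ∀ p q : W, f y = some p → f z = some q → p ≠ q →
        y.1 ≠ z.1 := by
      intro y z p q hy hz hpq h
      have : y = z := Subtype.ext h
      rw [this, hz] at hy
      exact hpq (Option.some.inj hy).symm
    exact no_four h3 hn hn' hu hu' (fun h => hne (Subtype.ext h)) (e _ _ _ _ hnl hw hwl.symm)
      (e _ _ _ _ hnl hw' hwl'.symm) (e _ _ _ _ hnl' hw hwl.symm) (e _ _ _ _ hnl' hw' hwl'.symm)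
      (fun h => huu (Subtype.ext h))
  · by_cases hL : ∃ (n : {v : V // v ≠ x}) (l : W), G.Adj x n ∧ f n = some l
    · obtain ⟨n, l, hn, hnl⟩ := hL
      refine lift_some hf ha hn hnl ?_
      intro u u' w w' hu hu' huu hw hw' hwl hwl'
      exfalso
      by_cases hww : w = w'
      · exact hS ⟨u, u', w, hu, hu', huu, hw, by rw [hww]; exact hw'⟩
      · exact hA ⟨n, u, u', l, w, w', hn, hu, hu', hnl, hw, hw', hwl.symm, hwl'.symm, hww⟩
    · refine lift_none hf ha ?_
      intro u u' w w' hu _ _ hw _
      exact absurd ⟨u, w, hu, hw⟩ hL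

/-- The class of planar graphs is closed under star-triangle exchanges. -/
lemma planar_star {V : Type} [Finite V] {G : SimpleGraph V} {x : V} (hG : Planar V G)
    (h3 : (G.neighborSet x).ncard ≤ 3) : Planar {v : V // v ≠ x} (starTriangle G x) := by
  have cover : ∀ a b c : {v : V // v ≠ x}, G.Adj x a → G.Adj x b → G.Adj x c → a ≠ b → a ≠ c →
      b ≠ c → ∀ u : {v : V // v ≠ x}, G.Adj x u → u = a ∨ u = b ∨ u = c := by
    intro a b c ha hb hc hab hac hbc u hu
    by_contra hcon
    push Not at hcon
    exact no_four h3 ha hb hc hu (fun h => hab (Subtype.ext h)) (fun h => hac (Subtype.ext h))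
      (fun h => hcon.1 (Subtype.ext h).symm) (fun h => hbc (Subtype.ext h))
      (fun h => hcon.2.1 (Subtype.ext h).symm) (fun h => hcon.2.2 (Subtype.ext h).symm)
  have ne_of : ∀ {W : Type} {f : {v : V // v ≠ x} → Option W} {a b : {v : V // v ≠ x}} {p q : W},
      f a = some p → f b = some q → p ≠ q → a ≠ b := by
    intro W f a b p q ha hb hpq h
    rw [h, hb] at ha
    exact hpq (Option.some.inj ha).symm
  refine ⟨inferInstance, ?_, ?_⟩
  · rintro ⟨f, hf, hfa⟩
    rcases lift_cases h3 hf hfa with h | ⟨a, b, c, p, q, r, ha, hb, hc, hp, hq, hr, hpq, hpr, hqr⟩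
    · exact hG.2.1 h
    · exact hG.2.2 (lift_K33 hf hfa (cover a b c ha hb hc (ne_of hp hq hpq) (ne_of hp hr hpr)
        (ne_of hq hr hqr)) ha hb hc hp hq hr hpq hpr hqr)
  · rintro ⟨f, hf, hfa⟩
    rcases lift_cases h3 hf hfa with h | ⟨a, b, c, p, q, r, ha, hb, hc, hp, hq, hr, hpq, hpr, hqr⟩
    · exact hG.2.2 h
    · -- some two of the three labels are not adjacent
      have tri : ∀ p q r : Fin 6, ¬ (K33.Adj p q ∧ K33.Adj p r ∧ K33.Adj q r) := by
        intro p q r
        simp only [K33, SimpleGraph.fromRel_adj]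
        rintro ⟨⟨_, h1⟩, ⟨_, h2⟩, ⟨_, h3⟩⟩
        have k : (3 : Fin 6) = ⟨3, by omega⟩ := rfl
        simp only [k, Fin.lt_def, Fin.le_def] at h1 h2 h3
        omega
      have key : ∀ (a b c : {v : V // v ≠ x}) (p q r : Fin 6), G.Adj x a → G.Adj x b →
          G.Adj x c → f a = some p → f b = some q → f c = some r → p ≠ q → p ≠ r → q ≠ r →
          ¬ K33.Adj q r → IsMinor K33 G := by
        intro a b c p q r ha hb hc hp hq hr hpq hpr hqr hadj
        refine lift_some hf hfa ha hp ?_
        intro u u' w w' hu hu' huu hw hw' hwl hwl'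
        have cov := cover a b c ha hb hc (ne_of hp hq hpq) (ne_of hp hr hpr) (ne_of hq hr hqr)
        rcases cov u hu with rfl | rfl | rfl <;> rcases cov u' hu' with rfl | rfl | rfl
        · exact absurd rfl huu
        · rw [hp] at hw; exact absurd (Option.some.inj hw).symm hwl
        · rw [hp] at hw; exact absurd (Option.some.inj hw).symm hwl
        · rw [hp] at hw'; exact absurd (Option.some.inj hw').symm hwl'
        · exact absurd rfl huu
        · rw [hq] at hw; rw [hr] at hw'
          rw [← Option.some.inj hw, ← Option.some.inj hw']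
          exact ⟨hqr, hadj⟩
        · rw [hp] at hw'; exact absurd (Option.some.inj hw').symm hwl'
        · rw [hr] at hw; rw [hq] at hw'
          rw [← Option.some.inj hw, ← Option.some.inj hw']
          exact ⟨hqr.symm, fun h => hadj h.symm⟩
        · exact absurd rfl huu
      by_cases h1 : K33.Adj q r
      · by_cases h2 : K33.Adj p r
        · by_cases h3 : K33.Adj p q
          · exact tri p q r ⟨h3, h2, h1⟩
          · exact hG.2.2 (key c a b r p q hc ha hb hr hp hq hpr.symm hqr.symm hpq h3)
        · exact hG.2.2 (key b a c q p r hb ha hc hq hp hr hpq.symm hqr hpr h2)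
      · exact hG.2.2 (key a b c p q r ha hb hc hp hq hr hpq hpr hqr h1)

/-- If every planar graph is 4-colourable (the four colour theorem), the planar graphs form a class
as in `FourColourClass`. -/
theorem planar_class (h : ∀ (V : Type) (G : SimpleGraph V), Planar V G → G.Colorable 4) :
    FourColourClass Planar where
  minor := fun _ _ _ _ _ hG hH => planar_minor hG hH
  star := fun _ _ _ _ hG h3 => planar_star hG h3
  colorable := fun V _ G hG => h V G hG

end Pool.Agent.Lib.Helper31.P80
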