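import Pool.Agent.Lib.Helper31.P80.Cut

/-!
# Independent sets of more than a quarter of the vertices: the structure theorem
-/

namespace Pool.Agent.Lib.Helper31.P80

open SimpleGraph Classical

variable {V : Type}

/-- The set of vertices reachable from `x` inside `X` is connected. -/
lemma connected_reach {G : SimpleGraph V} {X : Set V} {x : V} (hx : x ∈ X) :
    (G.induce {v | ∃ h : v ∈ X, (G.induce X).Reachable ⟨x, hx⟩ ⟨v, h⟩}).Connected := by
  have hxD : x ∈ {v | ∃ h : v ∈ X, (G.induce X).Reachable ⟨x, hx⟩ ⟨v, h⟩} :=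
    ⟨hx, SimpleGraph.Reachable.refl _⟩
  have key : ∀ w : X, (G.induce X).Reachable ⟨x, hx⟩ w →
      ∃ hw : w.1 ∈ {v | ∃ h : v ∈ X, (G.induce X).Reachable ⟨x, hx⟩ ⟨v, h⟩},
        (G.induce {v | ∃ h : v ∈ X, (G.induce X).Reachable ⟨x, hx⟩ ⟨v, h⟩}).Reachable
          ⟨x, hxD⟩ ⟨w.1, hw⟩ := by
    intro w hw
    rw [SimpleGraph.reachable_iff_reflTransGen] at hw
    induction hw with
    | refl => exact ⟨hxD, SimpleGraph.Reachable.refl _⟩
    | @tail b c hab hbc ih =>
      obtain ⟨hb, hr⟩ := ih
      have hcr : (G.induce X).Reachable ⟨x, hx⟩ c := by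
        rw [SimpleGraph.reachable_iff_reflTransGen]
        exact hab.tail hbc
      have hcD : c.1 ∈ {v | ∃ h : v ∈ X, (G.induce X).Reachable ⟨x, hx⟩ ⟨v, h⟩} := ⟨c.2, hcr⟩
      refine ⟨hcD, hr.trans ?_⟩
      have hadj : (G.induce {v | ∃ h : v ∈ X, (G.induce X).Reachable ⟨x, hx⟩ ⟨v, h⟩}).Adj
          ⟨b.1, hb⟩ ⟨c.1, hcD⟩ := hbc
      exact hadj.reachable
  have : Nonempty {v | ∃ h : v ∈ X, (G.induce X).Reachable ⟨x, hx⟩ ⟨v, h⟩} := ⟨⟨x, hxD⟩⟩
  refine SimpleGraph.Connected.mk ?_
  rintro ⟨u, hu, hur⟩ ⟨v, hv, hvr⟩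
  obtain ⟨_, h1⟩ := key ⟨u, hu⟩ hur
  obtain ⟨_, h2⟩ := key ⟨v, hv⟩ hvr
  exact h1.symm.trans h2

/-- Attachment of the component of `x` to a vertex `t` of a minimal cut. -/
lemma attached {G : SimpleGraph V} {A T : Finset V} {t x y : V}
    (hconn : (G.induce ((A : Set V) \ ((T.erase t : Finset V) : Set V))).Connected)
    (hx : x ∈ (A : Set V) \ (T : Set V)) (hy : y ∈ (A : Set V) \ (T : Set V))
    (hxy : ¬ (G.induce ((A : Set V) \ (T : Set V))).Reachable ⟨x, hx⟩ ⟨y, hy⟩) :
    ∃ d, (∃ h : d ∈ (A : Set V) \ (T : Set V),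
      (G.induce ((A : Set V) \ (T : Set V))).Reachable ⟨x, hx⟩ ⟨d, h⟩) ∧ G.Adj t d := by
  by_contra hcon
  push Not at hcon
  have hsub : (A : Set V) \ (T : Set V) ⊆ (A : Set V) \ ((T.erase t : Finset V) : Set V) := by
    intro v hv
    refine ⟨hv.1, fun h => hv.2 ?_⟩
    rw [Finset.mem_coe] at h ⊢
    exact Finset.mem_of_mem_erase h
  have hr := hconn.preconnected ⟨x, hsub hx⟩ ⟨y, hsub hy⟩
  rw [SimpleGraph.reachable_iff_reflTransGen] at hr
  have key : ∀ w : ((A : Set V) \ ((T.erase t : Finset V) : Set V) : Set V),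
      Relation.ReflTransGen (G.induce ((A : Set V) \ ((T.erase t : Finset V) : Set V))).Adj
        ⟨x, hsub hx⟩ w → ∃ h : w.1 ∈ (A : Set V) \ (T : Set V),
      (G.induce ((A : Set V) \ (T : Set V))).Reachable ⟨x, hx⟩ ⟨w.1, h⟩ := by
    intro w hw
    induction hw with
    | refl => exact ⟨hx, SimpleGraph.Reachable.refl _⟩
    | @tail b c hab hbc ih =>
      obtain ⟨hb, hr⟩ := ih
      have hadj : G.Adj b.1 c.1 := hbc
      have hct : c.1 ≠ t := by
        intro h
        have aux : ∀ b' c' : V, G.Adj b' c' → c' = t → G.Adj t b' := by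
          intro b' c' k1 k2
          rw [k2] at k1
          exact k1.symm
        exact hcon b.1 ⟨hb, hr⟩ (aux _ _ hadj h)
      have hc : c.1 ∈ (A : Set V) \ (T : Set V) := by
        refine ⟨c.2.1, fun h => c.2.2 ?_⟩
        rw [Finset.mem_coe] at h ⊢
        exact Finset.mem_erase.2 ⟨hct, h⟩
      have hadj' : (G.induce ((A : Set V) \ (T : Set V))).Adj ⟨b.1, hb⟩ ⟨c.1, hc⟩ := hadj
      exact ⟨hc, hr.trans hadj'.reachable⟩
  obtain ⟨_, h⟩ := key _ hr
  exact hxy h

/-- A set which is not 4-connected has a cut of order at most three which is minimal. -/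
lemma exists_cut {G : SimpleGraph V} {A : Finset V} (h5 : 5 ≤ A.card)
    (hn : ¬ FourConnected G A) :
    ∃ U1 T U2 D1 D2 : Finset V, A = U1 ∪ T ∪ U2 ∧ Disjoint U1 T ∧ Disjoint U2 T ∧
      Disjoint U1 U2 ∧ T.card ≤ 3 ∧ (∀ x ∈ U1, ∀ y ∈ U2, ¬ G.Adj x y) ∧ D1 ⊆ U1 ∧ D2 ⊆ U2 ∧
      (G.induce (D1 : Set V)).Connected ∧ (G.induce (D2 : Set V)).Connected ∧
      (∀ t ∈ T, ∃ d ∈ D1, G.Adj t d) ∧ (∀ t ∈ T, ∃ d ∈ D2, G.Adj t d) := by
  have hex : (A.powerset.filter (fun T : Finset V => T.card ≤ 3 ∧
      ¬ (G.induce ((A : Set V) \ (T : Set V))).Connected)).Nonempty := by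
    unfold FourConnected at hn
    push Not at hn
    obtain ⟨T, h1, h2, h3⟩ := hn h5
    exact ⟨T, Finset.mem_filter.2 ⟨Finset.mem_powerset.2 h1, h2, h3⟩⟩
  obtain ⟨T, hT, hmin⟩ := Finset.exists_min_image _ Finset.card hex
  rw [Finset.mem_filter, Finset.mem_powerset] at hT
  obtain ⟨hTA, hT3, hTn⟩ := hT
  have hconn : ∀ t ∈ T, (G.induce ((A : Set V) \ ((T.erase t : Finset V) : Set V))).Connected := by
    intro t ht
    by_contra hcon
    have h1 := hmin (T.erase t) (Finset.mem_filter.2 ⟨Finset.mem_powerset.2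
      ((Finset.erase_subset _ _).trans hTA), by
        rw [Finset.card_erase_of_mem ht]; omega, hcon⟩)
    rw [Finset.card_erase_of_mem ht] at h1
    have := Finset.card_pos.2 ⟨t, ht⟩
    omega
  have hne : Nonempty ((A : Set V) \ (T : Set V) : Set V) := by
    have : (A \ T).Nonempty := by
      rw [← Finset.card_pos]
      have := Finset.card_sdiff_add_card_eq_card hTA
      omega
    obtain ⟨v, hv⟩ := this
    rw [Finset.mem_sdiff] at hv
    exact ⟨⟨v, hv.1, hv.2⟩⟩
  have hnp : ¬ (G.induce ((A : Set V) \ (T : Set V))).Preconnected := by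
    intro h
    exact hTn (SimpleGraph.Connected.mk h)
  unfold SimpleGraph.Preconnected at hnp
  push Not at hnp
  obtain ⟨⟨x, hx⟩, ⟨y, hy⟩, hxy⟩ := hnp
  have hyx : ¬ (G.induce ((A : Set V) \ (T : Set V))).Reachable ⟨y, hy⟩ ⟨x, hx⟩ :=
    fun h => hxy h.symm
  let D1 : Finset V := A.filter (fun v => ∃ h : v ∈ (A : Set V) \ (T : Set V),
    (G.induce ((A : Set V) \ (T : Set V))).Reachable ⟨x, hx⟩ ⟨v, h⟩)
  let D2 : Finset V := A.filter (fun v => ∃ h : v ∈ (A : Set V) \ (T : Set V),
    (G.induce ((A : Set V) \ (T : Set V))).Reachable ⟨y, hy⟩ ⟨v, h⟩)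
  have hD1 : (D1 : Set V) = {v | ∃ h : v ∈ (A : Set V) \ (T : Set V),
      (G.induce ((A : Set V) \ (T : Set V))).Reachable ⟨x, hx⟩ ⟨v, h⟩} := by
    ext v
    simp only [D1, Finset.coe_filter, Set.mem_ofPred_eq]
    constructor
    · exact fun h => h.2
    · rintro ⟨h, h'⟩
      exact ⟨h.1, h, h'⟩
  have hD2 : (D2 : Set V) = {v | ∃ h : v ∈ (A : Set V) \ (T : Set V),
      (G.induce ((A : Set V) \ (T : Set V))).Reachable ⟨y, hy⟩ ⟨v, h⟩} := by
    ext v
    simp only [D2, Finset.coe_filter, Set.mem_ofPred_eq]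
    constructor
    · exact fun h => h.2
    · rintro ⟨h, h'⟩
      exact ⟨h.1, h, h'⟩
  have m1 : ∀ v, v ∈ D1 ↔ ∃ h : v ∈ (A : Set V) \ (T : Set V),
      (G.induce ((A : Set V) \ (T : Set V))).Reachable ⟨x, hx⟩ ⟨v, h⟩ := by
    intro v
    rw [← Finset.mem_coe, hD1]
    rfl
  have m2 : ∀ v, v ∈ D2 ↔ ∃ h : v ∈ (A : Set V) \ (T : Set V),
      (G.induce ((A : Set V) \ (T : Set V))).Reachable ⟨y, hy⟩ ⟨v, h⟩ := by
    intro v
    rw [← Finset.mem_coe, hD2]
    rfl
  refine ⟨D1, T, (A \ T) \ D1, D1, D2, ?_, ?_, ?_, ?_, hT3, ?_, le_rfl, ?_, ?_, ?_, ?_, ?_⟩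
  · ext v
    simp only [Finset.mem_union, Finset.mem_sdiff]
    constructor
    · intro h
      tauto
    · rintro ((h | h) | h)
      · exact ((m1 v).1 h).1.1
      · exact hTA h
      · exact h.1.1
  · rw [Finset.disjoint_left]
    intro v hv hvT
    exact ((m1 v).1 hv).1.2 hvT
  · rw [Finset.disjoint_left]
    intro v hv hvT
    rw [Finset.mem_sdiff, Finset.mem_sdiff] at hv
    exact hv.1.2 hvT
  · exact Finset.disjoint_sdiff
  · intro u hu w hw hadj
    rw [Finset.mem_sdiff, Finset.mem_sdiff] at hw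
    apply hw.2
    obtain ⟨hu1, hu2⟩ := (m1 u).1 hu
    have hw1 : w ∈ (A : Set V) \ (T : Set V) := hw.1
    rw [m1]
    refine ⟨hw1, hu2.trans ?_⟩
    have hadj' : (G.induce ((A : Set V) \ (T : Set V))).Adj ⟨u, hu1⟩ ⟨w, hw1⟩ := hadj
    exact hadj'.reachable
  · intro v hv
    obtain ⟨h1, h2⟩ := (m2 v).1 hv
    rw [Finset.mem_sdiff, Finset.mem_sdiff]
    refine ⟨⟨h1.1, h1.2⟩, fun h => ?_⟩
    obtain ⟨_, h3⟩ := (m1 v).1 h
    exact hxy (h3.trans h2.symm)
  · rw [hD1]
    exact connected_reach hx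
  · rw [hD2]
    exact connected_reach hy
  · intro t ht
    obtain ⟨d, hd, hadj⟩ := attached (hconn t ht) hx hy hxy
    exact ⟨d, (m1 d).2 hd, hadj⟩
  · intro t ht
    obtain ⟨d, hd, hadj⟩ := attached (hconn t ht) hy hx hyx
    exact ⟨d, (m2 d).2 hd, hadj⟩

/-- Good parts. -/
def Good (G : SimpleGraph V) (X : Finset V) : Prop :=
  IsK4 G X ∨ (FourConnected G X ∧ NoLarge G X)

lemma noLarge_K4 {G : SimpleGraph V} {X : Finset V} (h : IsK4 G X) : NoLarge G X := by
  intro S hS hi
  have h1 : S.card ≤ 1 := by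
    rw [Finset.card_le_one]
    intro a ha b hb
    by_contra hne
    exact hi ha hb hne (h.2 (hS ha) (hS hb) hne)
  rw [h.1]
  omega

lemma Good.noLarge {G : SimpleGraph V} {X : Finset V} (h : Good G X) : NoLarge G X :=
  h.elim noLarge_K4 (fun h => h.2)

lemma Good.card {G : SimpleGraph V} {X : Finset V} (h : Good G X) : 4 ≤ X.card := by
  rcases h with h | h
  · exact le_of_eq h.1.symm
  · have := h.1.1
    omega

lemma noLarge_biUnion {G : SimpleGraph V} {P : Finset (Finset V)}
    (hd : (P : Set (Finset V)).PairwiseDisjoint id) (h : ∀ X ∈ P, NoLarge G X) :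
    NoLarge G (P.biUnion id) := by
  intro S hS hi
  rw [Finset.card_biUnion (by
    intro X hX Y hY hne
    exact hd hX hY hne)]
  have h1 : S.card ≤ ∑ X ∈ P, (S ∩ X).card := by
    have : S ⊆ P.biUnion (fun X => S ∩ X) := by
      intro v hv
      have := hS hv
      rw [Finset.mem_biUnion] at this ⊢
      obtain ⟨X, hX, hvX⟩ := this
      exact ⟨X, hX, Finset.mem_inter.2 ⟨hv, hvX⟩⟩
    exact (Finset.card_le_card this).trans Finset.card_biUnion_le
  calc 4 * S.card ≤ 4 * ∑ X ∈ P, (S ∩ X).card := Nat.mul_le_mul_left _ h1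
    _ = ∑ X ∈ P, 4 * (S ∩ X).card := Finset.mul_sum _ _ _
    _ ≤ ∑ X ∈ P, (id X).card := Finset.sum_le_sum (fun X hX =>
        h X hX (S ∩ X) Finset.inter_subset_right (indep_subset hi Finset.inter_subset_left))

/-- The structure theorem, existence of the partition. -/
theorem exists_parts {C : ∀ V : Type, SimpleGraph V → Prop} (hC : FourColourClass C) [Finite V]
    {G : SimpleGraph V} (hG : C V G) : ∀ n : ℕ, ∀ A : Finset V, A.card = n → NoLarge G A →
    ∃ P : Finset (Finset V), (P : Set (Finset V)).PairwiseDisjoint id ∧ P.biUnion id = A ∧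
      ∀ X ∈ P, Good G X := by
  intro n
  induction n using Nat.strong_induction_on with
  | _ n ih =>
    intro A hA hN
    rcases A.eq_empty_or_nonempty with rfl | ⟨v, hv⟩
    · exact ⟨∅, by simp, by simp, by simp⟩
    have hsingle : ∀ P : Finset (Finset V), P = {A} →
        (P : Set (Finset V)).PairwiseDisjoint id ∧ P.biUnion id = A := by
      rintro P rfl
      constructor
      · simp
      · simp
    have h4 : 4 ≤ A.card := by
      have := hN {v} (Finset.singleton_subset_iff.2 hv) (by simp [SimpleGraph.IsIndepSet])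
      simpa using this
    rcases Nat.lt_or_ge A.card 5 with hlt | h5
    · refine ⟨{A}, (hsingle _ rfl).1, (hsingle _ rfl).2, ?_⟩
      intro X hX
      rw [Finset.mem_singleton] at hX
      subst hX
      left
      refine ⟨by omega, ?_⟩
      intro a ha b hb hne
      by_contra hadj
      have := hN {a, b} (by
        intro z hz
        rw [Finset.mem_insert, Finset.mem_singleton] at hz
        rcases hz with rfl | rfl
        · exact ha
        · exact hb) (by
        intro p hp q hq hpq
        simp only [Finset.coe_insert, Finset.coe_singleton, Set.mem_insert_iff,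
          Set.mem_singleton_iff] at hp hq
        rcases hp with rfl | rfl <;> rcases hq with rfl | rfl
        · exact absurd rfl hpq
        · exact hadj
        · exact fun h => hadj h.symm
        · exact absurd rfl hpq)
      rw [Finset.card_pair hne] at this
      omega
    · by_cases hF : FourConnected G A
      · refine ⟨{A}, (hsingle _ rfl).1, (hsingle _ rfl).2, ?_⟩
        intro X hX
        rw [Finset.mem_singleton] at hX
        subst hX
        exact Or.inr ⟨hF, hN⟩
      · obtain ⟨U1, T, U2, D1, D2, hAeq, h1T, h2T, h12, hT3, hno, hD1, hD2, hc1, hc2, ha1, ha2⟩ :=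
          exists_cut h5 hF
        rw [hAeq] at hN
        obtain ⟨B, hB, hN1, hN2⟩ := cut_three hC hG h1T h2T h12 hno hT3 hD1 hD2 hc1 hc2 ha1 ha2 hN
        obtain ⟨d1⟩ := hc1.nonempty
        obtain ⟨d2⟩ := hc2.nonempty
        have hd1 : d1.1 ∈ U1 := hD1 d1.2
        have hd2 : d2.1 ∈ U2 := hD2 d2.2
        have hdisj : Disjoint (U1 ∪ B) (U2 ∪ (T \ B)) := by
          rw [Finset.disjoint_left]
          intro z hz hz'
          rw [Finset.mem_union] at hz hz'
          rw [Finset.mem_sdiff] at hz'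
          rcases hz with hz | hz
          · rcases hz' with h | h
            · exact Finset.disjoint_left.1 h12 hz h
            · exact Finset.disjoint_left.1 h1T hz h.1
          · rcases hz' with h | h
            · exact Finset.disjoint_left.1 h2T h (hB hz)
            · exact h.2 hz
        have hun : (U1 ∪ B) ∪ (U2 ∪ (T \ B)) = A := by
          rw [hAeq]
          ext z
          simp only [Finset.mem_union, Finset.mem_sdiff]
          constructor
          · rintro ((h | h) | (h | h))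
            · tauto
            · exact Or.inl (Or.inr (hB h))
            · tauto
            · tauto
          · tauto
        have hcard : (U1 ∪ B).card + (U2 ∪ (T \ B)).card = A.card := by
          rw [← Finset.card_union_of_disjoint hdisj, hun]
        have hp1 : 0 < (U1 ∪ B).card := Finset.card_pos.2 ⟨d1.1, Finset.mem_union_left _ hd1⟩
        have hp2 : 0 < (U2 ∪ (T \ B)).card := Finset.card_pos.2 ⟨d2.1, Finset.mem_union_left _ hd2⟩
        obtain ⟨P1, a1, a2, a3⟩ := ih _ (by omega) (U1 ∪ B) rfl hN1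
        obtain ⟨P2, b1, b2, b3⟩ := ih _ (by omega) (U2 ∪ (T \ B)) rfl hN2
        refine ⟨P1 ∪ P2, ?_, ?_, ?_⟩
        · intro X hX Y hY hne
          rw [Finset.mem_coe, Finset.mem_union] at hX hY
          have sub1 : ∀ Z ∈ P1, Z ⊆ U1 ∪ B := by
            intro Z hZ
            rw [← a2]
            exact Finset.subset_biUnion_of_mem id hZ
          have sub2 : ∀ Z ∈ P2, Z ⊆ U2 ∪ (T \ B) := by
            intro Z hZ
            rw [← b2]
            exact Finset.subset_biUnion_of_mem id hZ
          rcases hX with hX | hX <;> rcases hY with hY | hY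
          · exact a1 hX hY hne
          · exact Finset.disjoint_of_subset_left (sub1 X hX)
              (Finset.disjoint_of_subset_right (sub2 Y hY) hdisj)
          · exact (Finset.disjoint_of_subset_left (sub1 Y hY)
              (Finset.disjoint_of_subset_right (sub2 X hX) hdisj)).symm
          · exact b1 hX hY hne
        · rw [Finset.union_biUnion, a2, b2, hun]
        · intro X hX
          rw [Finset.mem_union] at hX
          exact hX.elim (a3 X) (b3 X)

/-- The structure theorem for one set. -/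
theorem noLarge_iff {C : ∀ V : Type, SimpleGraph V → Prop} (hC : FourColourClass C) [Finite V]
    {G : SimpleGraph V} (hG : C V G) (A : Finset V) :
    NoLarge G A ↔ ∃ P : Finpartition A, ∀ X ∈ P.parts,
      IsK4 G X ∨ (FourConnected G X ∧ NoLarge G X) := by
  constructor
  · intro h
    obtain ⟨P, h1, h2, h3⟩ := exists_parts hC hG _ A rfl h
    refine ⟨⟨P, ?_, ?_, ?_⟩, h3⟩
    · rw [Finset.supIndep_iff_pairwiseDisjoint]
      exact h1
    · rw [Finset.sup_eq_biUnion, h2]
    · intro hbot
      have := (h3 _ hbot : Good G _).card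
      simp at this
  · rintro ⟨P, hP⟩
    have h1 : P.parts.biUnion id = A := P.biUnion_parts
    rw [← h1]
    exact noLarge_biUnion P.disjoint (fun X hX => Good.noLarge (G := G) (hP X hX))

/-- A good part does not meet both sides of a separation of order at most three. -/
lemma Good.one_side {G : SimpleGraph V} {X U1 T U2 : Finset V} (h : Good G X)
    (hX : X ⊆ U1 ∪ T ∪ U2) (h1T : Disjoint U1 T) (h2T : Disjoint U2 T) (h12 : Disjoint U1 U2)
    (hno : ∀ x ∈ U1, ∀ y ∈ U2, ¬ G.Adj x y) (hT : T.card ≤ 3) {x y : V} (hx : x ∈ X)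
    (hx1 : x ∈ U1) (hy : y ∈ X) (hy2 : y ∈ U2) : False := by
  rcases h with h | h
  · exact hno x hx1 y hy2 (h.2 hx hy (fun he => Finset.disjoint_left.1 h12 hx1 (he ▸ hy2)))
  · have hconn := h.1.2 (X ∩ T) Finset.inter_subset_left
      ((Finset.card_le_card Finset.inter_subset_right).trans hT)
    have hx' : x ∈ (X : Set V) \ ((X ∩ T : Finset V) : Set V) :=
      ⟨hx, fun h' => Finset.disjoint_left.1 h1T hx1 (Finset.mem_inter.1 h').2⟩
    have hy' : y ∈ (X : Set V) \ ((X ∩ T : Finset V) : Set V) :=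
      ⟨hy, fun h' => Finset.disjoint_left.1 h2T hy2 (Finset.mem_inter.1 h').2⟩
    have hr := hconn.preconnected ⟨x, hx'⟩ ⟨y, hy'⟩
    rw [SimpleGraph.reachable_iff_reflTransGen] at hr
    have key : ∀ w : ((X : Set V) \ ((X ∩ T : Finset V) : Set V) : Set V),
        Relation.ReflTransGen (G.induce ((X : Set V) \ ((X ∩ T : Finset V) : Set V))).Adj
          ⟨x, hx'⟩ w → w.1 ∈ U1 := by
      intro w hw
      induction hw with
      | refl => exact hx1
      | @tail b c hab hbc ih =>
        have hadj : G.Adj b.1 c.1 := hbc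
        have hc := hX c.2.1
        have hcT : c.1 ∉ T := fun h' => c.2.2 (by
          rw [Finset.mem_coe, Finset.mem_inter]
          exact ⟨c.2.1, h'⟩)
        rw [Finset.mem_union, Finset.mem_union] at hc
        rcases hc with (hc | hc) | hc
        · exact hc
        · exact absurd hc hcT
        · exact absurd hadj (hno b.1 ih c.1 hc)
    exact Finset.disjoint_left.1 h12 (key _ hr) hy2

/-- The separation theorem. -/
theorem separation_iff {C : ∀ V : Type, SimpleGraph V → Prop} (hC : FourColourClass C) [Finite V]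
    {G : SimpleGraph V} (hG : C V G) {U1 T U2 : Finset V} (h1T : Disjoint U1 T)
    (h2T : Disjoint U2 T) (h12 : Disjoint U1 U2)
    (hno : ∀ x ∈ U1, ∀ y ∈ U2, ¬ G.Adj x y) (hT : T.card ≤ 3) :
    NoLarge G (U1 ∪ T ∪ U2) ↔ ∃ B ⊆ T, NoLarge G (U1 ∪ B) ∧ NoLarge G (U2 ∪ (T \ B)) := by
  constructor
  · intro h
    obtain ⟨P, h1, h2, h3⟩ := exists_parts hC hG _ _ rfl h
    have hsub : ∀ X ∈ P, X ⊆ U1 ∪ T ∪ U2 := by
      intro X hX
      rw [← h2]
      exact Finset.subset_biUnion_of_mem id hX
    let P1 := P.filter (fun X => (X ∩ U1).Nonempty)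
    let P2 := P.filter (fun X => ¬ (X ∩ U1).Nonempty)
    have hmem : ∀ v ∈ U1 ∪ T ∪ U2, ∃ X ∈ P, v ∈ X := by
      intro v hv
      rw [← h2, Finset.mem_biUnion] at hv
      exact hv
    have hN1 : NoLarge G (P1.biUnion id) :=
      noLarge_biUnion (h1.subset (by
        intro X hX
        exact (Finset.mem_filter.1 hX).1)) (fun X hX => (h3 X (Finset.mem_filter.1 hX).1).noLarge)
    have hN2 : NoLarge G (P2.biUnion id) :=
      noLarge_biUnion (h1.subset (by
        intro X hX
        exact (Finset.mem_filter.1 hX).1)) (fun X hX => (h3 X (Finset.mem_filter.1 hX).1).noLarge)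
    refine ⟨T ∩ P1.biUnion id, Finset.inter_subset_left, ?_, ?_⟩
    · have heq : U1 ∪ T ∩ P1.biUnion id = P1.biUnion id := by
        ext v
        rw [Finset.mem_union, Finset.mem_inter]
        constructor
        · rintro (hv | hv)
          · obtain ⟨X, hX, hvX⟩ := hmem v (by simp [hv])
            rw [Finset.mem_biUnion]
            exact ⟨X, Finset.mem_filter.2 ⟨hX, ⟨v, Finset.mem_inter.2 ⟨hvX, hv⟩⟩⟩, hvX⟩
          · exact hv.2
        · intro hv
          have hv' := hv
          rw [Finset.mem_biUnion] at hv'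
          obtain ⟨X, hX, hvX⟩ := hv'
          rw [Finset.mem_filter] at hX
          obtain ⟨hXP, ⟨u, hu⟩⟩ := hX
          rw [Finset.mem_inter] at hu
          have hvA := hsub X hXP hvX
          rw [Finset.mem_union, Finset.mem_union] at hvA
          rcases hvA with (hvA | hvA) | hvA
          · exact Or.inl hvA
          · exact Or.inr ⟨hvA, hv⟩
          · exact ((h3 X hXP).one_side (hsub X hXP) h1T h2T h12 hno hT hu.1 hu.2 hvX hvA).elim
      rw [heq]
      exact hN1
    · have heq : U2 ∪ (T \ (T ∩ P1.biUnion id)) = P2.biUnion id := by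
        ext v
        rw [Finset.mem_union, Finset.mem_sdiff, Finset.mem_inter]
        constructor
        · rintro (hv | hv)
          · obtain ⟨X, hX, hvX⟩ := hmem v (by simp [hv])
            rw [Finset.mem_biUnion]
            refine ⟨X, Finset.mem_filter.2 ⟨hX, ?_⟩, hvX⟩
            rintro ⟨u, hu⟩
            rw [Finset.mem_inter] at hu
            exact (h3 X hX).one_side (hsub X hX) h1T h2T h12 hno hT hu.1 hu.2 hvX hv
          · obtain ⟨X, hX, hvX⟩ := hmem v (by simp [hv.1])
            rw [Finset.mem_biUnion]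
            refine ⟨X, Finset.mem_filter.2 ⟨hX, ?_⟩, hvX⟩
            intro hne
            apply hv.2
            refine ⟨hv.1, ?_⟩
            rw [Finset.mem_biUnion]
            exact ⟨X, Finset.mem_filter.2 ⟨hX, hne⟩, hvX⟩
        · intro hv
          rw [Finset.mem_biUnion] at hv
          obtain ⟨X, hX, hvX⟩ := hv
          rw [Finset.mem_filter] at hX
          obtain ⟨hXP, hXn⟩ := hX
          have hvA := hsub X hXP hvX
          rw [Finset.mem_union, Finset.mem_union] at hvA
          rcases hvA with (hvA | hvA) | hvA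
          · exact absurd ⟨v, Finset.mem_inter.2 ⟨hvX, hvA⟩⟩ hXn
          · refine Or.inr ⟨hvA, ?_⟩
            rintro ⟨_, hv1⟩
            rw [Finset.mem_biUnion] at hv1
            obtain ⟨Y, hY, hvY⟩ := hv1
            rw [Finset.mem_filter] at hY
            have hXY : X = Y := by
              by_contra hne
              exact Finset.disjoint_left.1 (h1 hXP hY.1 hne) hvX hvY
            exact hXn (hXY ▸ hY.2)
          · exact Or.inl hvA
      rw [heq]
      exact hN2
  · rintro ⟨B, hB, hN1, hN2⟩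
    have hdisj : Disjoint (U1 ∪ B) (U2 ∪ (T \ B)) := by
      rw [Finset.disjoint_left]
      intro z hz hz'
      rw [Finset.mem_union] at hz hz'
      rw [Finset.mem_sdiff] at hz'
      rcases hz with hz | hz
      · rcases hz' with h | h
        · exact Finset.disjoint_left.1 h12 hz h
        · exact Finset.disjoint_left.1 h1T hz h.1
      · rcases hz' with h | h
        · exact Finset.disjoint_left.1 h2T h (hB hz)
        · exact h.2 hz
    have hun : (U1 ∪ B) ∪ (U2 ∪ (T \ B)) = U1 ∪ T ∪ U2 := by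
      ext z
      simp only [Finset.mem_union, Finset.mem_sdiff]
      constructor
      · rintro ((h | h) | (h | h))
        · tauto
        · exact Or.inl (Or.inr (hB h))
        · tauto
        · tauto
      · tauto
    rw [← hun]
    exact noLarge_union hdisj hN1 hN2

end Pool.Agent.Lib.Helper31.P80
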