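import Pool.Agent.Lib.Helper31.P80.FourIff

/-!
# Independent sets of more than a quarter of the vertices: uniqueness
-/

namespace Pool.Agent.Lib.Helper31.P80

open SimpleGraph Classical

variable {V : Type}

/-- In a No instance every colour class is a quarter of the vertices. -/
lemma noLarge_classes {G : SimpleGraph V} {A : Finset V} {φ : V → Fin 4}
    (hφ : ∀ x ∈ A, ∀ y ∈ A, G.Adj x y → φ x ≠ φ y) (hN : NoLarge G A) (c : Fin 4) :
    4 * (A.filter (fun v => φ v = c)).card = A.card := by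
  have h1 : A.card = ∑ c : Fin 4, (A.filter (fun u => φ u = c)).card :=
    Finset.card_eq_sum_card_fiberwise (fun _ _ => Finset.mem_coe.2 (Finset.mem_univ _))
  have h2 : ∀ c : Fin 4, 4 * (A.filter (fun u => φ u = c)).card ≤ A.card := by
    intro c
    refine hN _ (Finset.filter_subset _ _) ?_
    intro x hx y hy _ hadj
    rw [Finset.mem_coe, Finset.mem_filter] at hx hy
    exact hφ x hx.1 y hy.1 hadj (hx.2.trans hy.2.symm)
  have h3 : ∑ c : Fin 4, 4 * (A.filter (fun u => φ u = c)).card = ∑ _c : Fin 4, A.card := by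
    rw [← Finset.mul_sum, ← h1]
    simp
  exact (Finset.sum_eq_sum_iff_of_le (fun c _ => h2 c)).1 h3 c (Finset.mem_univ _)

/-- At a cut of order at most three with a connected set attached to it on the other side, at most
one part of the cut completes the side to a No instance. -/
theorem cut_unique {C : ∀ V : Type, SimpleGraph V → Prop} (hC : FourColourClass C) [Finite V]
    {G : SimpleGraph V} (hG : C V G) {U T D B B' : Finset V} (hUT : Disjoint U T)
    (hUD : Disjoint U D) (hTD : Disjoint T D) (hT : T.card ≤ 3)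
    (hD : (G.induce (D : Set V)).Connected) (hatt : ∀ t ∈ T, ∃ d ∈ D, G.Adj t d)
    (hB : B ⊆ T) (hB' : B' ⊆ T) (h : NoLarge G (U ∪ B)) (h' : NoLarge G (U ∪ B')) : B = B' := by
  obtain ⟨φ, p1, p2⟩ := star_coloring hC hG hUD hTD hT hD hatt
  have key : ∀ B : Finset V, B ⊆ T → NoLarge G (U ∪ B) → ∀ c : Fin 4,
      4 * ((U.filter (fun v => φ v = c)).card + (B.filter (fun v => φ v = c)).card) =
        U.card + B.card := by
    intro B hB h c
    have h1 := noLarge_classes (φ := φ) (by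
      intro x hx y hy
      exact p1 x (Finset.union_subset_union_right hB hx) y (Finset.union_subset_union_right hB hy))
      h c
    have hd : Disjoint U B := Finset.disjoint_of_subset_right hB hUT
    rw [Finset.card_union_of_disjoint hd, Finset.filter_union,
      Finset.card_union_of_disjoint (Finset.disjoint_filter_filter hd)] at h1
    exact h1
  have k1 := key B hB h
  have k2 := key B' hB' h'
  have c1 := (Finset.card_le_card hB).trans hT
  have c2 := (Finset.card_le_card hB').trans hT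
  have heq : ∀ c : Fin 4, (B.filter (fun v => φ v = c)).card =
      (B'.filter (fun v => φ v = c)).card := by
    intro c
    have := k1 c
    have := k2 c
    omega
  have sub : ∀ B B' : Finset V, B ⊆ T → B' ⊆ T → (∀ c : Fin 4,
      (B.filter (fun v => φ v = c)).card = (B'.filter (fun v => φ v = c)).card) → B ⊆ B' := by
    intro B B' hB hB' heq t ht
    have h1 : 0 < (B.filter (fun v => φ v = φ t)).card :=
      Finset.card_pos.2 ⟨t, Finset.mem_filter.2 ⟨ht, rfl⟩⟩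
    rw [heq] at h1
    obtain ⟨s, hs⟩ := Finset.card_pos.1 h1
    rw [Finset.mem_filter] at hs
    by_contra hcon
    exact p2 s (hB' hs.1) t (hB ht) (fun he => hcon (he ▸ hs.1)) hs.2
  exact Finset.Subset.antisymm (sub B B' hB hB' heq) (sub B' B hB' hB (fun c => (heq c).symm))

section Arith

variable {n A a b c d ac bd : ℤ}

/-- The values of one side that satisfies the condition for the part of the cycle with the
indicators `ka`, `kb`, `kc`, `kd`. -/
lemma arith_part (ma : a ≤ A) (mb : b ≤ A) (mc : c ≤ A) (md : d ≤ A)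
    (p1 : ac ≤ a) (p2 : ac ≤ c) (p3 : bd ≤ b) (p4 : bd ≤ d)
    (s : (n ≤ ac + b + d + A ∧ n ≤ bd + a + c + A) ∨
      (n ≤ a + b + c + d ∧ n ≤ ac + bd + 2 * A))
    {ka kb kc kd : ℤ} (ka' : ka = 0 ∨ ka = 1) (kb' : kb = 0 ∨ kb = 1) (kc' : kc = 0 ∨ kc = 1)
    (kd' : kd = 0 ∨ kd = 1) (h0 : 4 * A ≤ n + (ka + kb + kc + kd))
    (ha : ka = 1 → 4 * (1 + a) ≤ n + (ka + kb + kc + kd))
    (hb : kb = 1 → 4 * (1 + b) ≤ n + (ka + kb + kc + kd))
    (hc : kc = 1 → 4 * (1 + c) ≤ n + (ka + kb + kc + kd))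
    (hd : kd = 1 → 4 * (1 + d) ≤ n + (ka + kb + kc + kd))
    (hac : ka = 1 → kc = 1 → 4 * (2 + ac) ≤ n + (ka + kb + kc + kd))
    (hbd : kb = 1 → kd = 1 → 4 * (2 + bd) ≤ n + (ka + kb + kc + kd)) :
    A - a = ka ∧ A - b = kb ∧ A - c = kc ∧ A - d = kd ∧ A - ac = ka + kc ∧ A - bd = kb + kd := by
  rcases ka' with rfl | rfl <;> rcases kb' with rfl | rfl <;> rcases kc' with rfl | rfl <;>
    rcases kd' with rfl | rfl <;> norm_num at ha hb hc hd hac hbd ⊢ <;> omega

lemma arith_hub (ma : a ≤ A) (mb : b ≤ A) (mc : c ≤ A) (md : d ≤ A)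
    (p1 : ac ≤ a) (_p2 : ac ≤ c) (p3 : bd ≤ b) (p4 : bd ≤ d)
    (s : (n ≤ ac + b + d + A ∧ n ≤ bd + a + c + A) ∨
      (n ≤ a + b + c + d ∧ n ≤ ac + bd + 2 * A))
    (h : Opt n A a b c d ac bd 1 1 0 0 0 0 0 0) :
    A - a = 0 ∧ A - b = 0 ∧ A - c = 0 ∧ A - d = 0 ∧ A - ac = 1 ∧ A - bd = 1 := by
  unfold Opt at h
  omega

lemma arith_triangle (ma : a ≤ A) (mb : b ≤ A) (mc : c ≤ A) (md : d ≤ A)
    (p1 : ac ≤ a) (_p2 : ac ≤ c) (p3 : bd ≤ b) (p4 : bd ≤ d)
    (s : (n ≤ ac + b + d + A ∧ n ≤ bd + a + c + A) ∨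
      (n ≤ a + b + c + d ∧ n ≤ ac + bd + 2 * A))
    (h : Opt n A a b c d ac bd 3 1 1 1 1 1 0 0) :
    A - a = 1 ∧ A - b = 1 ∧ A - c = 1 ∧ A - d = 1 ∧ A - ac = 1 ∧ A - bd = 1 := by
  unfold Opt at h
  omega

lemma arith_edge (ma : a ≤ A) (mb : b ≤ A) (mc : c ≤ A) (md : d ≤ A)
    (p1 : ac ≤ a) (p2 : ac ≤ c) (p3 : bd ≤ b) (p4 : bd ≤ d)
    (s : (n ≤ ac + b + d + A ∧ n ≤ bd + a + c + A) ∨
      (n ≤ a + b + c + d ∧ n ≤ ac + bd + 2 * A))
    (h : Opt n A a b c d ac bd 2 1 0 1 0 1 0 0) :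
    A - a = 0 ∧ A - b = 1 ∧ A - c = 0 ∧ A - d = 1 ∧ A - ac = 1 ∧ A - bd = 1 := by
  unfold Opt at h
  omega

lemma arith_edge' (ma : a ≤ A) (mb : b ≤ A) (mc : c ≤ A) (md : d ≤ A)
    (p1 : ac ≤ a) (p2 : ac ≤ c) (p3 : bd ≤ b) (p4 : bd ≤ d)
    (s : (n ≤ ac + b + d + A ∧ n ≤ bd + a + c + A) ∨
      (n ≤ a + b + c + d ∧ n ≤ ac + bd + 2 * A))
    (h : Opt n A a b c d ac bd 2 1 1 0 1 0 0 0) :
    A - a = 1 ∧ A - b = 0 ∧ A - c = 1 ∧ A - d = 0 ∧ A - ac = 1 ∧ A - bd = 1 := by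
  unfold Opt at h
  omega

end Arith

section Cycle

variable {G : SimpleGraph V} {a b c d : V}

/-- The values of one side that satisfies a condition. -/
def Pat (a b c d : V) (o : Finset V ⊕ Fin 4) (ea eb ec ed eac ebd : ℤ) : Prop :=
  match o with
  | Sum.inl B => B ⊆ {a, b, c, d} ∧ ea = (if a ∈ B then 1 else 0) ∧
      eb = (if b ∈ B then 1 else 0) ∧ ec = (if c ∈ B then 1 else 0) ∧
      ed = (if d ∈ B then 1 else 0) ∧ eac = ea + ec ∧ ebd = eb + ed
  | Sum.inr i => eac = 1 ∧ ebd = 1 ∧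
      ((i = 0 ∧ ea = 0 ∧ eb = 0 ∧ ec = 0 ∧ ed = 0) ∨ (i = 1 ∧ ea = 1 ∧ eb = 1 ∧ ec = 1 ∧ ed = 1) ∨
      (i = 2 ∧ ea = 0 ∧ eb = 1 ∧ ec = 0 ∧ ed = 1) ∨ (i = 3 ∧ ea = 1 ∧ eb = 0 ∧ ec = 1 ∧ ed = 0))

lemma pat_unique {o o' : Finset V ⊕ Fin 4} {ea eb ec ed eac ebd : ℤ}
    (h : Pat a b c d o ea eb ec ed eac ebd) (h' : Pat a b c d o' ea eb ec ed eac ebd) :
    o = o' := by
  have iteq : ∀ (p q : Prop) [Decidable p] [Decidable q],
      (if p then (1 : ℤ) else 0) = (if q then 1 else 0) → (p ↔ q) := by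
    intro p q _ _ h
    split_ifs at h <;> simp_all
  rcases o with B | i <;> rcases o' with B' | j
  · obtain ⟨h0, h1, h2, h3, h4, -, -⟩ := h
    obtain ⟨k0, k1, k2, k3, k4, -, -⟩ := h'
    have ia := iteq _ _ (h1.symm.trans k1)
    have ib := iteq _ _ (h2.symm.trans k2)
    have ic := iteq _ _ (h3.symm.trans k3)
    have id' := iteq _ _ (h4.symm.trans k4)
    have sub : ∀ B B' : Finset V, B ⊆ {a, b, c, d} → (a ∈ B → a ∈ B') → (b ∈ B → b ∈ B') →
        (c ∈ B → c ∈ B') → (d ∈ B → d ∈ B') → B ⊆ B' := by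
      intro B B' hB ha hb hc hd x hx
      have := hB hx
      simp only [Finset.mem_insert, Finset.mem_singleton] at this
      rcases this with rfl | rfl | rfl | rfl
      · exact ha hx
      · exact hb hx
      · exact hc hx
      · exact hd hx
    rw [Finset.Subset.antisymm (sub B B' h0 ia.1 ib.1 ic.1 id'.1)
      (sub B' B k0 ia.2 ib.2 ic.2 id'.2)]
  · obtain ⟨-, -, -, -, -, h5, h6⟩ := h
    obtain ⟨k1, k2, k⟩ := h'
    exfalso
    omega
  · obtain ⟨-, -, -, -, -, h5, h6⟩ := h'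
    obtain ⟨k1, k2, k⟩ := h
    exfalso
    omega
  · obtain ⟨-, -, h⟩ := h
    obtain ⟨-, -, k⟩ := h'
    rcases h with ⟨rfl, h⟩ | ⟨rfl, h⟩ | ⟨rfl, h⟩ | ⟨rfl, h⟩ <;>
      rcases k with ⟨rfl, k⟩ | ⟨rfl, k⟩ | ⟨rfl, k⟩ | ⟨rfl, k⟩ <;>
      first
      | rfl
      | (exfalso; omega)

lemma side_pat {C : ∀ V : Type, SimpleGraph V → Prop} (hC : FourColourClass C) [Finite V]
    (hG : C V G) {U D : Finset V}
    (hab : G.Adj a b) (hbc : G.Adj b c) (hcd : G.Adj c d) (hda : G.Adj d a)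
    (hac : a ≠ c) (hbd : b ≠ d) (hnac : ¬ G.Adj a c) (hnbd : ¬ G.Adj b d)
    (hUT : Disjoint U {a, b, c, d}) (hUD : Disjoint U D)
    (hTD : Disjoint ({a, b, c, d} : Finset V) D) (hD : (G.induce (D : Set V)).Connected)
    (hatt : ∀ t ∈ ({a, b, c, d} : Finset V), ∃ e ∈ D, G.Adj t e)
    {o : Finset V ⊕ Fin 4} (h : Side G a b c d U o) :
    Pat a b c d o ((av G U ∅ : ℤ) - av G U {a}) ((av G U ∅ : ℤ) - av G U {b})
      ((av G U ∅ : ℤ) - av G U {c}) ((av G U ∅ : ℤ) - av G U {d})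
      ((av G U ∅ : ℤ) - av G U {a, c}) ((av G U ∅ : ℤ) - av G U {b, d}) := by
  have s := side_cases hC hG hab hbc hcd hda hac hbd hnac hnbd hUD hTD hD hatt
  have m : ∀ (S : Finset V), av G U S ≤ av G U ∅ := fun S => av_anti (Finset.empty_subset _)
  have ma : (av G U {a} : ℤ) ≤ av G U ∅ := by exact_mod_cast m {a}
  have mb : (av G U {b} : ℤ) ≤ av G U ∅ := by exact_mod_cast m {b}
  have mc : (av G U {c} : ℤ) ≤ av G U ∅ := by exact_mod_cast m {c}
  have md : (av G U {d} : ℤ) ≤ av G U ∅ := by exact_mod_cast m {d}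
  have p1 : (av G U {a, c} : ℤ) ≤ av G U {a} := by exact_mod_cast av_anti (by simp)
  have p2 : (av G U {a, c} : ℤ) ≤ av G U {c} := by exact_mod_cast av_anti (by simp)
  have p3 : (av G U {b, d} : ℤ) ≤ av G U {b} := by exact_mod_cast av_anti (by simp)
  have p4 : (av G U {b, d} : ℤ) ≤ av G U {d} := by exact_mod_cast av_anti (by simp)
  have s' : ((U.card : ℤ) ≤ av G U {a, c} + av G U {b} + av G U {d} + av G U ∅ ∧
      (U.card : ℤ) ≤ av G U {b, d} + av G U {a} + av G U {c} + av G U ∅) ∨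
    ((U.card : ℤ) ≤ av G U {a} + av G U {b} + av G U {c} + av G U {d} ∧
      (U.card : ℤ) ≤ av G U {a, c} + av G U {b, d} + 2 * av G U ∅) := by exact_mod_cast s
  have r1 : ∀ u i, hub a b c d u i → u = a ∨ u = b ∨ u = c ∨ u = d := fun u i h => h
  have r2 : ∀ u i, triangle a b c d u i → u = a ∨ u = b ∨ u = c ∨ u = d := by
    intro u i h
    unfold triangle at h
    tauto
  have r3 : ∀ u i, edge a b c d u i → u = a ∨ u = b ∨ u = c ∨ u = d := by
    intro u i h
    unfold edge at h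
    tauto
  have r4 : ∀ u i, edge b c d a u i → u = a ∨ u = b ∨ u = c ∨ u = d := by
    intro u i h
    unfold edge at h
    tauto
  have L := @noLargeWith_iff_opt V G a b c d hab hbc hcd hda hac hbd hnac hnbd U hUT
  rcases o with B | i
  · obtain ⟨hB, hN⟩ := h
    rw [no_iff] at hN
    have hUB : Disjoint U B := Finset.disjoint_of_subset_right hB hUT
    have t : ∀ S : Finset V, S ⊆ B → G.IsIndepSet (S : Set V) →
        (4 * (S.card + av G U S) : ℤ) ≤ U.card + B.card := by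
      intro S hS hi
      have := tight_le (G := G) (U1 := U) (T := B) (U2 := ∅) (S := S) (by simp) hUB
        (Finset.disjoint_empty_left _) (Finset.disjoint_empty_right _)
        (by rw [Finset.union_empty]; exact hN) hS hi
      rw [Finset.card_empty] at this
      have h2 : 4 * (S.card + av G U S) ≤ U.card + B.card := by omega
      exact_mod_cast h2
    have hcard : (B.card : ℤ) = (if a ∈ B then 1 else 0) + (if b ∈ B then 1 else 0) +
        (if c ∈ B then 1 else 0) + (if d ∈ B then 1 else 0) := by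
      have h1 := card_filter_four hab.ne hac hda.ne.symm hbc.ne hbd hcd.ne (fun v => v ∈ B)
      have h2 : ({a, b, c, d} : Finset V).filter (fun v => v ∈ B) = B := by
        ext x
        rw [Finset.mem_filter]
        exact ⟨fun h => h.2, fun h => ⟨hB h, h⟩⟩
      rw [h2] at h1
      rw [h1]
      push_cast
      rfl
    have k : ∀ (p : Prop) [Decidable p], (if p then (1 : ℤ) else 0) = 0 ∨
        (if p then (1 : ℤ) else 0) = 1 := by
      intro p _
      split_ifs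
      · right; rfl
      · left; rfl
    have k' : ∀ (p : Prop) [Decidable p], (if p then (1 : ℤ) else 0) = 1 → p := by
      intro p _ h
      by_contra hcon
      rw [if_neg hcon] at h
      exact absurd h (by norm_num)
    have single : ∀ x : V, (if x ∈ B then (1 : ℤ) else 0) = 1 →
        4 * (1 + (av G U {x} : ℤ)) ≤ U.card + B.card := by
      intro x hx
      have := t {x} (Finset.singleton_subset_iff.2 (k' _ hx)) (by simp [SimpleGraph.IsIndepSet])
      rw [Finset.card_singleton] at this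
      exact_mod_cast this
    have pair : ∀ x y : V, x ≠ y → ¬ G.Adj x y → (if x ∈ B then (1 : ℤ) else 0) = 1 →
        (if y ∈ B then (1 : ℤ) else 0) = 1 →
        4 * (2 + (av G U {x, y} : ℤ)) ≤ U.card + B.card := by
      intro x y hxy hn hx hy
      have := t {x, y} (by
        intro z hz
        rw [Finset.mem_insert, Finset.mem_singleton] at hz
        rcases hz with rfl | rfl
        · exact k' _ hx
        · exact k' _ hy) (by
        intro z hz w hw hzw
        simp only [Finset.coe_insert, Finset.coe_singleton, Set.mem_insert_iff,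
          Set.mem_singleton_iff] at hz hw
        rcases hz with rfl | rfl <;> rcases hw with rfl | rfl
        · exact absurd rfl hzw
        · exact hn
        · exact fun h => hn h.symm
        · exact absurd rfl hzw)
      rw [Finset.card_pair hxy] at this
      exact_mod_cast this
    have h0 := t ∅ (Finset.empty_subset _) (by simp [SimpleGraph.IsIndepSet])
    rw [Finset.card_empty] at h0
    have h0' : 4 * (av G U ∅ : ℤ) ≤ U.card + B.card := by
      have : (4 * (((0 : ℕ) : ℤ) + av G U ∅)) = 4 * (av G U ∅ : ℤ) := by push_cast; ring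
      rw [← this]
      exact h0
    have res := arith_part ma mb mc md p1 p2 p3 p4 s' (k (a ∈ B)) (k (b ∈ B)) (k (c ∈ B))
      (k (d ∈ B)) (by rw [← hcard]; exact h0') (by rw [← hcard]; exact single a)
      (by rw [← hcard]; exact single b) (by rw [← hcard]; exact single c)
      (by rw [← hcard]; exact single d) (by rw [← hcard]; exact pair a c hac hnac)
      (by rw [← hcard]; exact pair b d hbd hnbd)
    obtain ⟨q1, q2, q3, q4, q5, q6⟩ := res
    refine ⟨hB, q1, q2, q3, q4, ?_, ?_⟩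
    · rw [q5, q1, q3]
    · rw [q6, q2, q4]
  · obtain ⟨x0, x1, x2, x3, x4, x5, x6⟩ := wt_hub (a := a) (b := b) (c := c) (d := d)
    obtain ⟨y0, y1, y2, y3, y4, y5, y6⟩ := wt_triangle hab.ne hac hda.ne.symm hbc.ne hbd hcd.ne
    obtain ⟨z0, z1, z2, z3, z4, z5, z6⟩ := wt_edge hab.ne hda.ne.symm hbc.ne hbd hcd.ne
    obtain ⟨u0, u1, u2, u3, u4, u5, u6⟩ := wt_edge hbc.ne hab.ne.symm hcd.ne hac.symm hda.ne
    rw [pair_comm' c a] at u6
    fin_cases i
    · have h1 : NoLargeWith G (U ∪ {a, b, c, d}) 1 (hub a b c d) := noWith_iff.1 h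
      rw [L r1, x0, x1, x2, x3, x4, x5, x6] at h1
      have := arith_hub ma mb mc md p1 p2 p3 p4 s' (by exact_mod_cast h1)
      obtain ⟨q1, q2, q3, q4, q5, q6⟩ := this
      exact ⟨q5, q6, Or.inl ⟨rfl, q1, q2, q3, q4⟩⟩
    · have h1 : NoLargeWith G (U ∪ {a, b, c, d}) 3 (triangle a b c d) := noWith_iff.1 h
      rw [L r2, y0, y1, y2, y3, y4, y5, y6] at h1
      have := arith_triangle ma mb mc md p1 p2 p3 p4 s' (by exact_mod_cast h1)
      obtain ⟨q1, q2, q3, q4, q5, q6⟩ := this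
      exact ⟨q5, q6, Or.inr (Or.inl ⟨rfl, q1, q2, q3, q4⟩)⟩
    · have h1 : NoLargeWith G (U ∪ {a, b, c, d}) 2 (edge a b c d) := noWith_iff.1 h
      rw [L r3, z0, z1, z2, z3, z4, z5, z6] at h1
      have := arith_edge ma mb mc md p1 p2 p3 p4 s' (by exact_mod_cast h1)
      obtain ⟨q1, q2, q3, q4, q5, q6⟩ := this
      exact ⟨q5, q6, Or.inr (Or.inr (Or.inl ⟨rfl, q1, q2, q3, q4⟩))⟩
    · have h1 : NoLargeWith G (U ∪ {a, b, c, d}) 2 (edge b c d a) := noWith_iff.1 h
      rw [L r4, u0, u1, u2, u3, u4, u5, u6] at h1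
      have := arith_edge' ma mb mc md p1 p2 p3 p4 s' (by exact_mod_cast h1)
      obtain ⟨q1, q2, q3, q4, q5, q6⟩ := this
      exact ⟨q5, q6, Or.inr (Or.inr (Or.inr ⟨rfl, q1, q2, q3, q4⟩))⟩

/-- At most one of the conditions on one side of a separating 4-cycle holds. -/
theorem four_unique {C : ∀ V : Type, SimpleGraph V → Prop} (hC : FourColourClass C) [Finite V]
    (hG : C V G) {U D : Finset V}
    (hab : G.Adj a b) (hbc : G.Adj b c) (hcd : G.Adj c d) (hda : G.Adj d a)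
    (hac : a ≠ c) (hbd : b ≠ d) (hnac : ¬ G.Adj a c) (hnbd : ¬ G.Adj b d)
    (hUT : Disjoint U {a, b, c, d}) (hUD : Disjoint U D)
    (hTD : Disjoint ({a, b, c, d} : Finset V) D) (hD : (G.induce (D : Set V)).Connected)
    (hatt : ∀ t ∈ ({a, b, c, d} : Finset V), ∃ e ∈ D, G.Adj t e)
    {o o' : Finset V ⊕ Fin 4} (h : Side G a b c d U o) (h' : Side G a b c d U o') : o = o' :=
  pat_unique
    (side_pat hC hG hab hbc hcd hda hac hbd hnac hnbd hUT hUD hTD hD hatt h)
    (side_pat hC hG hab hbc hcd hda hac hbd hnac hnbd hUT hUD hTD hD hatt h')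

/-- The theorem on separating 4-cycles in terms of the conditions on the sides. -/
theorem four_side_iff {C : ∀ V : Type, SimpleGraph V → Prop} (hC : FourColourClass C) [Finite V]
    (hG : C V G) {U1 U2 : Finset V}
    (hab : G.Adj a b) (hbc : G.Adj b c) (hcd : G.Adj c d) (hda : G.Adj d a)
    (hac : a ≠ c) (hbd : b ≠ d) (hnac : ¬ G.Adj a c) (hnbd : ¬ G.Adj b d)
    (h1T : Disjoint U1 {a, b, c, d}) (h2T : Disjoint U2 {a, b, c, d}) (h12 : Disjoint U1 U2)
    (hno : ∀ x ∈ U1, ∀ y ∈ U2, ¬ G.Adj x y)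
    (hc1 : (G.induce (U1 : Set V)).Connected) (hc2 : (G.induce (U2 : Set V)).Connected)
    (ha1 : ∀ t ∈ ({a, b, c, d} : Finset V), ∃ e ∈ U1, G.Adj t e)
    (ha2 : ∀ t ∈ ({a, b, c, d} : Finset V), ∃ e ∈ U2, G.Adj t e) :
    No G (U1 ∪ {a, b, c, d} ∪ U2) ↔
      ∃ o, Side G a b c d U1 o ∧ Side G a b c d U2 (partner {a, b, c, d} o) := by
  rw [no_iff, four_iff hC hG hab hbc hcd hda hac hbd hnac hnbd h1T h2T h12 hno hc1 hc2 ha1 ha2]
  constructor
  · rintro (⟨B, hB, hN1, hN2⟩ | h | h | h | h)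
    · exact ⟨Sum.inl B, ⟨hB, no_iff.2 hN1⟩, Finset.sdiff_subset, no_iff.2 hN2⟩
    · exact ⟨Sum.inr 0, noWith_iff.2 h.1, noWith_iff.2 h.2⟩
    · exact ⟨Sum.inr 1, noWith_iff.2 h.1, noWith_iff.2 h.2⟩
    · exact ⟨Sum.inr 2, noWith_iff.2 h.1, noWith_iff.2 h.2⟩
    · exact ⟨Sum.inr 3, noWith_iff.2 h.1, noWith_iff.2 h.2⟩
  · rintro ⟨o, h1, h2⟩
    rcases o with B | i
    · exact Or.inl ⟨B, h1.1, no_iff.1 h1.2, no_iff.1 h2.2⟩
    · right
      fin_cases i
      · exact Or.inl ⟨noWith_iff.1 h1, noWith_iff.1 h2⟩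
      · exact Or.inr (Or.inl ⟨noWith_iff.1 h1, noWith_iff.1 h2⟩)
      · exact Or.inr (Or.inr (Or.inl ⟨noWith_iff.1 h1, noWith_iff.1 h2⟩))
      · exact Or.inr (Or.inr (Or.inr ⟨noWith_iff.1 h1, noWith_iff.1 h2⟩))

end Cycle

end Pool.Agent.Lib.Helper31.P80
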